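import Mathlib
import Pool.Agent.H235R2.Kad3.Sim

/-!
Renormings: square roots of invariant operators, and similarities for finite groups of unitaries
that do not increase the norm of the homomorphism.
-/

open scoped ComplexOrder InnerProductSpace ComplexConjugate
open Finset

noncomputable section

namespace Y268.Kad

open H759R2.Kad H759R2.Kad.A25

universe u v

section sq

variable {H : Type v} [NormedAddCommGroup H] [InnerProductSpace ℂ H] [CompleteSpace H]

/-- The square root of an operator given by a quadratic form with bounds. -/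
theorem sqrtPair (T : H →L[ℂ] H) (q : H → ℝ) (hT : ∀ ξ, ⟪T ξ, ξ⟫_ℂ = (q ξ : ℂ)) {c : ℝ}
    (hc : 0 < c) (hlow : ∀ ξ, ‖ξ‖ ^ 2 ≤ c ^ 2 * q ξ) (hup : ∀ ξ, q ξ ≤ c ^ 2 * ‖ξ‖ ^ 2) :
    ∃ S S' : H →L[ℂ] H, S * S' = 1 ∧ S' * S = 1 ∧ star S = S ∧ star S' = S' ∧ ‖S‖ ≤ c ∧
      ‖S'‖ ≤ c ∧ S * S = T ∧ ∀ ξ, ‖S ξ‖ ^ 2 = q ξ := by
  have hq0 : ∀ ξ, 0 ≤ q ξ := by
    intro ξ
    have h1 := hlow ξ
    have h2 : 0 ≤ ‖ξ‖ ^ 2 := by positivity
    have h3 : 0 < c ^ 2 := by positivity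
    by_contra h
    push Not at h
    nlinarith
  have hTn : 0 ≤ T := by
    rw [ContinuousLinearMap.nonneg_iff_isPositive, ContinuousLinearMap.isPositive_iff_complex]
    intro x
    have h1 : (T.reApplyInnerSelf x) = q x := by
      rw [ContinuousLinearMap.reApplyInnerSelf_apply, hT]
      simp
    rw [hT]
    simp [hq0 x]
  have hTu : IsUnit T := by
    have hcc : (0 : NNReal) < ⟨(c ^ 2)⁻¹, by positivity⟩ := by
      have : (0 : ℝ) < (c ^ 2)⁻¹ := by positivity
      exact this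
    refine ContinuousLinearMap.isUnit_of_forall_le_norm_inner_map T hcc fun ξ => ?_
    rw [hT, Complex.norm_real, Real.norm_eq_abs]
    refine le_trans ?_ (le_abs_self _)
    change ‖ξ‖ ^ 2 * (c ^ 2)⁻¹ ≤ _
    rw [← div_eq_mul_inv, div_le_iff₀ (by positivity)]
    linarith [hlow ξ]
  set S := CFC.sqrt T with hS
  have hSS : S * S = T := CFC.sqrt_mul_sqrt_self T hTn
  have hSsa : star S = S := (IsSelfAdjoint.of_nonneg (CFC.sqrt_nonneg T)).star_eq
  have hSu : IsUnit S := by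
    have : IsUnit (S * S) := by rw [hSS]; exact hTu
    exact ((Commute.refl S).isUnit_mul_iff.mp this).1
  obtain ⟨w, hw⟩ := hSu
  set S' : H →L[ℂ] H := ((w⁻¹ : (H →L[ℂ] H)ˣ) : H →L[ℂ] H) with hS'
  have i1 : S * S' = 1 := by rw [← hw, hS']; exact w.mul_inv
  have i2 : S' * S = 1 := by rw [← hw, hS']; exact w.inv_mul
  have hSn : ∀ ξ, ‖S ξ‖ ^ 2 = q ξ := by
    intro ξ
    have e1 := inner_star_mul S ξ
    rw [hSsa, hSS, hT] at e1
    exact_mod_cast e1.symm
  have hS's : star S' = S' := by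
    have e1 : star S' * S = 1 := by
      have := congrArg star i1
      rw [star_mul, hSsa, star_one] at this
      exact this
    calc star S' = star S' * (S * S') := by rw [i1, mul_one]
      _ = S' := by rw [← mul_assoc, e1, one_mul]
  refine ⟨S, S', i1, i2, hSsa, hS's, ?_, ?_, hSS, hSn⟩
  · refine ContinuousLinearMap.opNorm_le_bound _ hc.le fun ξ => ?_
    refine le_of_sq_le_sq ?_ (by positivity)
    rw [hSn, mul_pow]
    exact hup ξ
  · refine ContinuousLinearMap.opNorm_le_bound _ hc.le fun η => ?_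
    refine le_of_sq_le_sq ?_ (by positivity)
    have e : S (S' η) = η := by
      have : (S * S') η = η := by rw [i1]; rfl
      exact this
    have := hlow (S' η)
    rw [← hSn, e] at this
    rw [mul_pow]
    exact this

end sq

/-- Similarity for a finite group of unitaries. The norm of the homomorphism does not increase. -/
theorem groupRen {A : Type u} [CStarAlgebra A] {H : Type v} [NormedAddCommGroup H]
    [InnerProductSpace ℂ H] [CompleteSpace H] (u : A →ₗ[ℂ] (H →L[ℂ] H)) (hu : IsHom u) {c : ℝ}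
    (hc : 0 ≤ c) (hbd : ∀ a, ‖u a‖ ≤ c * ‖a‖) {G : Type} [Fintype G] [Nonempty G] (g : G → A)
    (hg : ∀ i, g i ∈ unitary A) (hmul : ∀ h, ∃ φ : G ≃ G, ∀ i, g (φ i) = g i * g h) :
    ∃ S S' : H →L[ℂ] H, S * S' = 1 ∧ S' * S = 1 ∧ ‖S‖ ≤ c ∧ ‖S'‖ ≤ c ∧
      (∀ a, ‖S * u a * S'‖ ≤ c * ‖a‖) ∧
      ∀ i, star (S * u (g i) * S') = S * u (star (g i)) * S' := by
  rcases subsingleton_or_nontrivial H with hH | hH
  · refine ⟨0, 0, Subsingleton.elim _ _, Subsingleton.elim _ _, by simpa using hc,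
      by simpa using hc, fun a => ?_, fun _ => Subsingleton.elim _ _⟩
    have : (0 : H →L[ℂ] H) * u a * 0 = 0 := by simp
    rw [this, norm_zero]
    positivity
  have hun : ∀ x : A, x ∈ unitary A → ‖x‖ ≤ 1 := fun x hx =>
    H294R2.Kad2.norm_le_one_of_unitary hx
  have hu1 : ∀ x : A, x ∈ unitary A → ‖u x‖ ≤ c := by
    intro x hx
    refine (hbd x).trans ?_
    have := mul_le_mul_of_nonneg_left (hun x hx) hc
    simpa using this
  have hinv : ∀ i, u (star (g i)) * u (g i) = 1 := by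
    intro i
    rw [← hu.mul, (Unitary.mem_iff.mp (hg i)).1, hu.one]
  have hinv' : ∀ i, u (g i) * u (star (g i)) = 1 := by
    intro i
    rw [← hu.mul, (Unitary.mem_iff.mp (hg i)).2, hu.one]
  have hcpos : 0 < c := by
    rcases hc.eq_or_lt with h0 | h0
    · exfalso
      obtain ⟨i⟩ := (inferInstance : Nonempty G)
      have h1 := hu1 _ (hg i)
      rw [← h0] at h1
      have h2 : u (g i) = 0 := norm_le_zero_iff.mp h1
      have h3 := hinv i
      rw [h2, mul_zero] at h3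
      exact zero_ne_one h3
    · exact h0
  have hcard : (0 : ℝ) < Fintype.card G := by exact_mod_cast Fintype.card_pos
  set q : H → ℝ := fun ξ => (Fintype.card G : ℝ)⁻¹ * ∑ i, ‖u (g i) ξ‖ ^ 2 with hq
  set T : H →L[ℂ] H := ((Fintype.card G : ℝ)⁻¹ : ℝ) • ∑ i, star (u (g i)) * u (g i) with hT
  have hTin : ∀ ξ, ⟪T ξ, ξ⟫_ℂ = (q ξ : ℂ) := by
    intro ξ
    have e1 : T ξ = ((Fintype.card G : ℝ)⁻¹ : ℝ) • ∑ i, (star (u (g i)) * u (g i)) ξ := by
      rw [hT]
      simp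
    have e2 : ∀ (r : ℝ) (x : H), r • x = ((r : ℝ) : ℂ) • x := fun r x => (Complex.coe_smul r x).symm
    rw [e1, e2, inner_smul_left, Complex.conj_ofReal, sum_inner]
    simp only [inner_star_mul, hq]
    push_cast
    rfl
  have avg : ∀ (f : G → ℝ) (t : ℝ), (∀ i, f i ≤ t) → (Fintype.card G : ℝ)⁻¹ * ∑ i, f i ≤ t := by
    intro f t h
    rw [inv_mul_le_iff₀ hcard]
    calc ∑ i, f i ≤ ∑ _i : G, t := Finset.sum_le_sum fun i _ => h i
      _ = _ := by rw [Finset.sum_const, Finset.card_univ, nsmul_eq_mul]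
  have avg' : ∀ (f : G → ℝ) (t : ℝ), (∀ i, t ≤ f i) → t ≤ (Fintype.card G : ℝ)⁻¹ * ∑ i, f i := by
    intro f t h
    rw [le_inv_mul_iff₀ hcard]
    calc (Fintype.card G : ℝ) * t = ∑ _i : G, t := by
          rw [Finset.sum_const, Finset.card_univ, nsmul_eq_mul]
      _ ≤ ∑ i, f i := Finset.sum_le_sum fun i _ => h i
  -- comparison of two group elements
  have hcmp : ∀ (a : A) (i : G) (ζ : H), ‖u a ζ‖ ≤ c * ‖a‖ * ‖u (g i) ζ‖ := by
    intro a i ζ
    have e : u a ζ = u (a * star (g i)) (u (g i) ζ) := by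
      have h1 : u (a * star (g i)) * u (g i) = u a := by
        rw [← hu.mul, mul_assoc, (Unitary.mem_iff.mp (hg i)).1, mul_one]
      exact (congrArg (fun S : H →L[ℂ] H => S ζ) h1).symm
    rw [e]
    refine (ContinuousLinearMap.le_opNorm _ _).trans ?_
    refine mul_le_mul_of_nonneg_right ?_ (norm_nonneg _)
    refine (hbd _).trans (mul_le_mul_of_nonneg_left ?_ hc)
    calc ‖a * star (g i)‖ ≤ ‖a‖ * ‖star (g i)‖ := norm_mul_le _ _
      _ ≤ ‖a‖ * 1 := mul_le_mul_of_nonneg_left (hun _ (Unitary.star_mem (hg i))) (norm_nonneg _)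
      _ = ‖a‖ := mul_one _
  have hq2 : ∀ (a : A) (ζ : H), ‖u a ζ‖ ^ 2 ≤ c ^ 2 * ‖a‖ ^ 2 * q ζ := by
    intro a ζ
    rw [hq]
    simp only
    rw [mul_left_comm, Finset.mul_sum]
    refine avg' _ _ fun i => ?_
    calc ‖u a ζ‖ ^ 2 ≤ (c * ‖a‖ * ‖u (g i) ζ‖) ^ 2 :=
          pow_le_pow_left₀ (norm_nonneg _) (hcmp a i ζ) 2
      _ = _ := by ring
  have hlow : ∀ ξ, ‖ξ‖ ^ 2 ≤ c ^ 2 * q ξ := by
    intro ξ
    have h1 := hq2 1 ξ
    rw [hu.one] at h1
    have h2 : ‖(1 : A)‖ ≤ 1 := hun 1 (one_mem _)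
    have h3 : 0 ≤ q ξ := by rw [hq]; positivity
    calc ‖ξ‖ ^ 2 ≤ c ^ 2 * ‖(1 : A)‖ ^ 2 * q ξ := h1
      _ ≤ c ^ 2 * 1 ^ 2 * q ξ := by gcongr
      _ = c ^ 2 * q ξ := by ring
  have hup : ∀ ξ, q ξ ≤ c ^ 2 * ‖ξ‖ ^ 2 := by
    intro ξ
    refine avg _ _ fun i => ?_
    have : ‖u (g i) ξ‖ ≤ c * ‖ξ‖ :=
      ((u (g i)).le_opNorm ξ).trans (mul_le_mul_of_nonneg_right (hu1 _ (hg i)) (norm_nonneg _))
    calc ‖u (g i) ξ‖ ^ 2 ≤ (c * ‖ξ‖) ^ 2 := pow_le_pow_left₀ (norm_nonneg _) this 2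
      _ = c ^ 2 * ‖ξ‖ ^ 2 := by ring
  obtain ⟨S, S', i1, i2, s1, s2, n1, n2, hSS, hSn⟩ := sqrtPair T q hTin hcpos hlow hup
  refine ⟨S, S', i1, i2, n1, n2, fun a => ?_, fun h => ?_⟩
  · refine ContinuousLinearMap.opNorm_le_bound _ (by positivity) fun η => ?_
    refine le_of_sq_le_sq ?_ (by positivity)
    have e0 : S (S' η) = η := by
      have : (S * S') η = η := by rw [i1]; rfl
      exact this
    have e1 : (S * u a * S') η = S (u a (S' η)) := rfl
    rw [e1, hSn]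
    have h1 : q (u a (S' η)) ≤ c ^ 2 * ‖a‖ ^ 2 * q (S' η) := by
      refine avg _ _ fun i => ?_
      have e2 : u (g i) (u a (S' η)) = u (g i * a) (S' η) := by
        rw [hu.mul]
        rfl
      rw [e2]
      have h3 : ‖g i * a‖ ≤ ‖a‖ := by
        calc ‖g i * a‖ ≤ ‖g i‖ * ‖a‖ := norm_mul_le _ _
          _ ≤ 1 * ‖a‖ := mul_le_mul_of_nonneg_right (hun _ (hg i)) (norm_nonneg _)
          _ = ‖a‖ := one_mul _
      have h4 : 0 ≤ q (S' η) := by rw [hq]; positivity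
      calc ‖u (g i * a) (S' η)‖ ^ 2 ≤ c ^ 2 * ‖g i * a‖ ^ 2 * q (S' η) := hq2 _ _
        _ ≤ c ^ 2 * ‖a‖ ^ 2 * q (S' η) := by gcongr
    refine h1.trans (le_of_eq ?_)
    rw [← hSn (S' η), e0]
    ring
  · have hTinv : star (u (g h)) * T * u (g h) = T := by
      obtain ⟨φ, hφ⟩ := hmul h
      rw [hT, mul_smul_comm, smul_mul_assoc, Finset.mul_sum, Finset.sum_mul]
      congr 1
      rw [← Equiv.sum_comp φ (fun i => star (u (g i)) * u (g i))]
      refine Finset.sum_congr rfl fun i _ => ?_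
      rw [hφ, hu.mul, star_mul]
      simp only [mul_assoc]
    have e1 : star (u (g h)) * (S * S) = S * S * u (star (g h)) := by
      rw [hSS]
      calc star (u (g h)) * T = star (u (g h)) * T * (u (g h) * u (star (g h))) := by
            rw [hinv', mul_one]
        _ = (star (u (g h)) * T * u (g h)) * u (star (g h)) := by simp only [mul_assoc]
        _ = T * u (star (g h)) := by rw [hTinv]
    rw [star_mul, star_mul, s1, s2]
    calc S' * (star (u (g h)) * S) = S' * (star (u (g h)) * (S * S)) * S' := by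
          simp only [mul_assoc, i1, mul_one]
      _ = S' * (S * S * u (star (g h))) * S' := by rw [e1]
      _ = (S' * S) * S * u (star (g h)) * S' := by simp only [mul_assoc]
      _ = S * u (star (g h)) * S' := by rw [i2, one_mul]

end Y268.Kad
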