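import Mathlib
import Pool.Agent.H770R2.Kad.HAsm

/-!
From von Neumann algebras to all C*-algebras, with a general bound.
-/

open scoped ComplexOrder InnerProductSpace

noncomputable section

namespace Y268.Kad

open H759R2.Kad H711R2.KG H770R2.Kad

/-- Level bounds `Φ c` for homomorphisms of norm `c` of von Neumann algebras. -/
def VnBd (Φ : ℝ → ℝ) : Prop :=
  ∀ (L : Type) [NormedAddCommGroup L] [InnerProductSpace ℂ L] [CompleteSpace L]
    (M : VonNeumannAlgebra L) [PartialOrder M.toStarSubalgebra]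
    [StarOrderedRing M.toStarSubalgebra]
    (H : Type) [NormedAddCommGroup H] [InnerProductSpace ℂ H] [CompleteSpace H]
    (W : M.toStarSubalgebra →ₗ[ℂ] (H →L[ℂ] H)), IsHom W → ∀ c : ℝ, 1 ≤ c →
    (∀ a, ‖W a‖ ≤ c * ‖a‖) → ∀ m, LvlBd W m (Φ c)

/-- Level bounds for homomorphisms of C*-algebras. -/
def CbBd (Φ : ℝ → ℝ) : Prop :=
  ∀ (A : Type) [CStarAlgebra A] [PartialOrder A] [StarOrderedRing A]
    (H : Type) [NormedAddCommGroup H] [InnerProductSpace ℂ H] [CompleteSpace H]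
    (w : A →ₗ[ℂ] (H →L[ℂ] H)), IsHom w → ∀ c : ℝ, 1 ≤ c → (∀ a, ‖w a‖ ≤ c * ‖a‖) →
    ∀ m, LvlBd w m (Φ c)

/-- Extension of a homomorphism to a von Neumann algebra, with norm at most `k` times the norm. -/
def Ext (k : ℝ) : Prop :=
  ∀ (A : Type) [CStarAlgebra A]
    (H : Type) [NormedAddCommGroup H] [InnerProductSpace ℂ H] [CompleteSpace H]
    (w : A →ₗ[ℂ] (H →L[ℂ] H)), IsHom w → ∀ c : ℝ, 0 ≤ c → (∀ a, ‖w a‖ ≤ c * ‖a‖) →
    ∀ (L : Type) [NormedAddCommGroup L] [InnerProductSpace ℂ L] [CompleteSpace L]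
      (π : A →⋆ₐ[ℂ] (L →L[ℂ] L)),
      (∀ ξ : H, ∃ p q : L, ∀ a, ‖w a ξ‖ ≤ ‖π a p‖ + ‖π (star a) q‖) →
    ∃ (M : VonNeumannAlgebra L) (θ : A →⋆ₐ[ℂ] M.toStarSubalgebra)
      (W : M.toStarSubalgebra →ₗ[ℂ] (H →L[ℂ] H)), IsHom W ∧ (∀ x, ‖W x‖ ≤ k * c * ‖x‖) ∧
      ∀ a, W (θ a) = w a

theorem ext_two : Ext 2 := prove_hext (prove_net prove_kap)

/-- Bounded homomorphisms of C*-algebras are completely bounded, from von Neumann algebras. -/
theorem cb_of (Φ : ℝ → ℝ) (hΦ : ∀ c, 1 ≤ c → 0 ≤ Φ c) (k : ℝ) (hk : 1 ≤ k) (h2 : Ext k)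
    (h3 : VnBd Φ) : CbBd (fun c => Φ (k * c)) := by
  have h1 : H_uni := prove_uni (prove_piet H710R2.DP.fin_gt) prove_dsum prove_gns
  intro A _ _ _ H _ _ _ w hw c hc hwb m X
  have hkc : 1 ≤ k * c := by nlinarith
  rcases subsingleton_or_nontrivial A with hA | hA
  · have h0 : amp w (Fin m) X = 0 := by
      ext v i
      rw [amp_apply]
      have : ∀ j, w (X i j) = 0 := fun j => by
        rw [Subsingleton.elim (X i j) 0, map_zero]
      simp [this]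
    rw [h0, norm_zero]
    exact mul_nonneg (hΦ _ hkc) (norm_nonneg _)
  · obtain ⟨L, iL1, iL2, iL3, π, hπ⟩ := h1 A H w c (by linarith) hwb
    obtain ⟨M, θ, W, hW, hWb, hWθ⟩ := h2 A H w hw c (by linarith) hwb L π hπ
    let i1 : PartialOrder M.toStarSubalgebra := CStarAlgebra.spectralOrder M.toStarSubalgebra
    let i2 : StarOrderedRing M.toStarSubalgebra :=
      CStarAlgebra.spectralOrderedRing M.toStarSubalgebra
    set Z : CStarMatrix (Fin m) (Fin m) M.toStarSubalgebra :=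
      CStarMatrix.mapₙₐ (n := Fin m) (θ : A →⋆ₙₐ[ℂ] M.toStarSubalgebra) X with hZ
    have hZn : ‖Z‖ ≤ ‖X‖ := NonUnitalStarAlgHom.norm_apply_le _ _
    have hZa : ∀ i k, Z i k = θ (X i k) := fun i k => rfl
    have he : amp w (Fin m) X = amp W (Fin m) Z := by
      ext ξ i
      rw [amp_apply, amp_apply]
      refine Finset.sum_congr rfl fun k _ => ?_
      rw [hZa, hWθ]
    have h := h3 L M H W hW (k * c) hkc hWb m Z
    rw [he]
    exact h.trans (mul_le_mul_of_nonneg_left hZn (hΦ _ hkc))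

/-- The similarity, from level bounds. -/
theorem similar_of (Φ : ℝ → ℝ) (hΦ : ∀ c, 1 ≤ c → 1 ≤ Φ c) (h : CbBd Φ) (A : Type)
    [CStarAlgebra A]
    (H : Type) [NormedAddCommGroup H] [InnerProductSpace ℂ H] [CompleteSpace H]
    (u : A →ₗ[ℂ] (H →L[ℂ] H)) (hu : IsHom u) (c : ℝ) (hc : 1 ≤ c) (hb : ∀ a, ‖u a‖ ≤ c * ‖a‖) :
    ∃ S S' : H →L[ℂ] H, S * S' = 1 ∧ S' * S = 1 ∧ ‖S‖ ^ 2 ≤ Φ c ∧
      ‖S'‖ ^ 2 ≤ Φ c ∧ ∀ a, star (S * u a * S') = S * u (star a) * S' := by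
  let i1 : PartialOrder A := CStarAlgebra.spectralOrder A
  have i2 : StarOrderedRing A := CStarAlgebra.spectralOrderedRing A
  exact final_similar A H u hu (Φ c) (hΦ c hc) (h A H u hu c hc hb)

end Y268.Kad
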