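import Mathlib
import Pool.Agent.H711R2.KG.P.A5
import Pool.Agent.H711R2.KG.G1

/-!
Algebras without tracial state: the bound `10 c ^ 3`.
-/

open scoped ComplexOrder InnerProductSpace ComplexConjugate
open Finset

noncomputable section

namespace Y268.Kad

open H759R2.Kad H711R2.KG H711R2.KG.P_A4 H711R2.KG.P_A5

universe u v

variable {B : Type u} [CStarAlgebra B] [PartialOrder B] [StarOrderedRing B]
  {K : Type v} [NormedAddCommGroup K] [InnerProductSpace ℂ K] [CompleteSpace K]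
  {w : B →ₗ[ℂ] (K →L[ℂ] K)}

omit [CStarAlgebra B] [PartialOrder B] [StarOrderedRing B] in
theorem om_apply {b : Type} (f : b → b → B) (i j : b) :
    (CStarMatrix.ofMatrix f : CStarMatrix b b B) i j = f i j := rfl

/-- Little Grothendieck inequality for rows of matrices. -/
theorem row_mat' (hgt : St_gt.{u, v}) {b : Type} [Fintype b] [DecidableEq b] (η : b → K) {M : ℝ}
    (hM0 : 0 ≤ M) (hT : ∀ (Z : CStarMatrix b b B) (j : b), ‖∑ k, w (Z j k) (η k)‖ ≤ M * ‖Z‖)
    (Y : CStarMatrix b b B) :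
    ∑ r, ‖∑ k, w (Y r k) (η k)‖ ^ 2 ≤
      3 * M ^ 2 * (‖Y‖ ^ 2 + ‖∑ r, ∑ k, Y r k * star (Y r k)‖) := by
  rcases isEmpty_or_nonempty b with hb | ⟨⟨j₀⟩⟩
  · simp only [Finset.univ_eq_empty, Finset.sum_empty]
    positivity
  have hmain := hgt (CStarMatrix b b B) K (Tm w j₀ η) M hM0 (fun Z => by
      rw [Tm_apply]
      exact hT Z j₀) b
    (fun r => CStarMatrix.ofMatrix fun i k => if i = j₀ then Y r k else 0)
  have e1 : ∀ r, Tm w j₀ η (CStarMatrix.ofMatrix fun i k => if i = j₀ then Y r k else 0) =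
      ∑ k, w (Y r k) (η k) := by
    intro r
    rw [Tm_apply]
    refine Finset.sum_congr rfl fun k _ => ?_
    have : (CStarMatrix.ofMatrix fun i k => if i = j₀ then Y r k else (0 : B)) j₀ k = Y r k := by
      rw [om_apply, if_pos rfl]
    rw [this]
  have e2 : ∑ r, star (CStarMatrix.ofMatrix fun i k => if i = j₀ then Y r k else (0 : B)) *
      (CStarMatrix.ofMatrix fun i k => if i = j₀ then Y r k else (0 : B)) = star Y * Y := by
    ext i k
    rw [CStarMatrix.mul_apply, sum_entry]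
    refine Finset.sum_congr rfl fun r _ => ?_
    rw [CStarMatrix.mul_apply, Finset.sum_eq_single j₀]
    · rw [CStarMatrix.star_apply, CStarMatrix.star_apply, om_apply, om_apply, if_pos rfl,
        if_pos rfl]
    · intro l _ hl
      rw [om_apply, if_neg hl, mul_zero]
    · intro h
      exact absurd (Finset.mem_univ _) h
  have e3 : ‖∑ r, (CStarMatrix.ofMatrix fun i k => if i = j₀ then Y r k else (0 : B)) *
      star (CStarMatrix.ofMatrix fun i k => if i = j₀ then Y r k else (0 : B))‖ ≤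
      ‖∑ r, ∑ k, Y r k * star (Y r k)‖ := by
    refine (norm_le_sum _).trans ?_
    rw [Finset.sum_eq_single j₀, Finset.sum_eq_single j₀]
    · rw [sum_entry]
      refine le_of_eq ?_
      congr 1
      refine Finset.sum_congr rfl fun r _ => ?_
      rw [CStarMatrix.mul_apply]
      refine Finset.sum_congr rfl fun k _ => ?_
      rw [CStarMatrix.star_apply, om_apply, if_pos rfl]
    · intro i _ hi
      rw [sum_entry, Finset.sum_eq_zero, norm_zero]
      intro r _
      rw [CStarMatrix.mul_apply]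
      refine Finset.sum_eq_zero fun k _ => ?_
      rw [CStarMatrix.star_apply, om_apply, if_neg hi, zero_mul]
    · intro h
      exact absurd (Finset.mem_univ _) h
    · intro j _ hj
      refine Finset.sum_eq_zero fun i _ => ?_
      rw [sum_entry, Finset.sum_eq_zero, norm_zero]
      intro r _
      rw [CStarMatrix.mul_apply]
      refine Finset.sum_eq_zero fun k _ => ?_
      rw [CStarMatrix.star_apply, om_apply, om_apply,
        if_neg hj, star_zero, mul_zero]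
    · intro h
      exact absurd (Finset.mem_univ _) h
  rw [e2] at hmain
  simp only [e1] at hmain
  refine hmain.trans ?_
  rw [CStarRing.norm_star_mul_self, ← pow_two]
  gcongr

/-- The row inequality with respect to words. -/
theorem row_words (hgt : St_gt.{u, v}) (hw : IsHom w) {c : ℝ} (hc : 0 ≤ c)
    (hwb : ∀ b, ‖w b‖ ≤ c * ‖b‖) {N : ℕ} (t : Fin N → B) (ht : ∑ i, star (t i) * t i = 1) {ε : ℝ}
    (hε : ‖∑ i, t i * star (t i)‖ ≤ ε) {κ : Type} [Fintype κ] (a : κ → B) (ξ : κ → K) :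
    ‖∑ k, w (a k) (ξ k)‖ ^ 2 ≤
      3 * c ^ 2 * (‖∑ k, a k * star (a k)‖ + ‖∑ k, star (a k) * a k‖ * ε) *
        ∑ k, ∑ l, ‖w (t l) (ξ k)‖ ^ 2 := by
  have hε0 : 0 ≤ ε := (norm_nonneg _).trans hε
  have hvb : ∀ b, ‖vmap w b‖ ≤ c * ‖b‖ := by
    intro b
    rw [norm_vmap, ← norm_star b]
    exact hwb _
  set p : B := ∑ k, star (a k) * a k with hp
  have hp0 : 0 ≤ p := Finset.sum_nonneg fun k _ => star_mul_self_nonneg _
  have e1 : ∑ k, w (a k) (ξ k) = ∑ q : κ × Fin N, w (a q.1 * star (t q.2)) (w (t q.2) (ξ q.1)) := by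
    rw [Fintype.sum_prod_type]
    refine Finset.sum_congr rfl fun k _ => ?_
    have h1 : w (a k) = ∑ l, w (a k * star (t l)) * w (t l) := by
      have h2 : a k = ∑ l, (a k * star (t l)) * t l := by
        simp only [mul_assoc]
        rw [← Finset.mul_sum, ht, mul_one]
      conv_lhs => rw [h2]
      rw [map_sum]
      exact Finset.sum_congr rfl fun l _ => hw.mul _ _
    rw [h1]
    simp only [_root_.sum_apply, mul_apply_eq_comp]
  rw [e1, ← Fintype.sum_prod_type']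
  refine row_of_col (fun b => w b) (fun b => vmap w b) (fun b => star_w w b) _
    (by positivity) (κ × Fin N) (fun q => a q.1 * star (t q.2)) (fun z => ?_)
    (fun q => w (t q.2) (ξ q.1))
  have h1 := gt_app hgt B K (vmap w) c hc hvb (κ × Fin N)
    (fun q => star (a q.1 * star (t q.2))) z
  simp only [star_star] at h1
  refine h1.trans ?_
  have e2 : ∑ q : κ × Fin N, (a q.1 * star (t q.2)) * star (a q.1 * star (t q.2)) =
      ∑ k, a k * star (a k) := by
    rw [Fintype.sum_prod_type]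
    refine Finset.sum_congr rfl fun k _ => ?_
    have h3 : ∀ l, (a k * star (t l)) * star (a k * star (t l)) =
        a k * (star (t l) * t l) * star (a k) := by
      intro l
      rw [star_mul, star_star]
      simp only [mul_assoc]
    simp only [h3]
    rw [← Finset.sum_mul, ← Finset.mul_sum, ht, mul_one]
  have e3 : ∑ q : κ × Fin N, star (a q.1 * star (t q.2)) * (a q.1 * star (t q.2)) =
      ∑ l, t l * p * star (t l) := by
    rw [Fintype.sum_prod_type_right]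
    refine Finset.sum_congr rfl fun l _ => ?_
    rw [hp, Finset.mul_sum, Finset.sum_mul]
    refine Finset.sum_congr rfl fun k _ => ?_
    rw [star_mul, star_star]
    simp only [mul_assoc]
  have e4 : ‖∑ l, t l * p * star (t l)‖ ≤ ‖p‖ * ε :=
    (norm_sandwich t p hp0).trans (by gcongr)
  rw [e2, e3]
  calc 3 * (c * ‖z‖) ^ 2 * (‖∑ k, a k * star (a k)‖ + ‖∑ l, t l * p * star (t l)‖)
      ≤ 3 * (c * ‖z‖) ^ 2 * (‖∑ k, a k * star (a k)‖ + ‖p‖ * ε) := by gcongr
    _ = _ := by ring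

/-- Algebras with small words. -/
theorem words_bd (hgt : St_gt.{u, v}) (hw : IsHom w) {c : ℝ} (hc : 0 ≤ c)
    (hwb : ∀ b, ‖w b‖ ≤ c * ‖b‖) (hwords : HasWords B) (m : ℕ) : LvlBd w m (10 * c ^ 3) := by
  intro X
  obtain ⟨N, s, hs, hε⟩ := hwords (1 / (100 * ((m : ℝ) ^ 2 + 1))) (by positivity)
  set ε : ℝ := 1 / (100 * ((m : ℝ) ^ 2 + 1)) with hεdef
  have hε0 : 0 ≤ ε := by positivity
  have hm2 : (0 : ℝ) < (m : ℝ) ^ 2 + 1 := by positivity
  have hε1 : ε ≤ 1 / 100 := by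
    rw [hεdef]
    gcongr
    nlinarith [sq_nonneg (m : ℝ)]
  have hε2 : (m : ℝ) ^ 2 * ε ≤ 1 / 100 := by
    rw [hεdef, mul_one_div, div_le_div_iff₀ (by positivity) (by norm_num)]
    nlinarith
  obtain ⟨N', t, ht, hδ⟩ := hwords (1 / (100 * ((N : ℝ) * m + 1))) (by positivity)
  set δ : ℝ := 1 / (100 * ((N : ℝ) * m + 1)) with hδdef
  have hδ0 : 0 ≤ δ := by positivity
  have hNm : (0 : ℝ) < (N : ℝ) * m + 1 := by positivity
  have hδ1 : δ ≤ 1 / 100 := by
    rw [hδdef]
    gcongr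
    have : (0 : ℝ) ≤ (N : ℝ) * m := by positivity
    linarith
  have hδ2 : ((N : ℝ) * m) * δ ≤ 1 / 100 := by
    rw [hδdef, mul_one_div, div_le_div_iff₀ (by positivity) (by norm_num)]
    nlinarith
  refine ContinuousLinearMap.opNorm_le_bound _ (by positivity) fun ξ => ?_
  set η : Fin N × Fin m → K := fun k => w (s k.1) (ξ k.2) with hη
  -- the vectors in the norm given by the second words
  set Q : ℝ := ∑ k, ∑ l, ‖w (t l) (η k)‖ ^ 2 with hQdef
  have hQ0 : 0 ≤ Q := by positivity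
  have hQ : Q ≤ 3 * c ^ 2 * (1 + δ) * ‖ξ‖ ^ 2 := by
    have e1 : Q = ∑ j, ∑ q : Fin N' × Fin N, ‖w (t q.1 * s q.2) (ξ j)‖ ^ 2 := by
      rw [hQdef, Fintype.sum_prod_type, Finset.sum_comm]
      refine Finset.sum_congr rfl fun j _ => ?_
      rw [Fintype.sum_prod_type_right]
      refine Finset.sum_congr rfl fun p _ => Finset.sum_congr rfl fun l _ => ?_
      rw [hη, hw.mul]
      rfl
    rw [e1, PiLp.norm_sq_eq_of_L2, Finset.mul_sum]
    refine Finset.sum_le_sum fun j _ => ?_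
    have h1 := gt_app hgt B K w c hc hwb (Fin N' × Fin N) (fun q => t q.1 * s q.2) (ξ j)
    refine h1.trans ?_
    have e2 : ∑ q : Fin N' × Fin N, star (t q.1 * s q.2) * (t q.1 * s q.2) = 1 := by
      rw [Fintype.sum_prod_type_right, ← hs]
      refine Finset.sum_congr rfl fun p _ => ?_
      have h3 : ∀ l, star (t l * s p) * (t l * s p) = star (s p) * (star (t l) * t l) * s p := by
        intro l
        rw [star_mul]
        simp only [mul_assoc]
      simp only [h3]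
      rw [← Finset.sum_mul, ← Finset.mul_sum, ht, mul_one]
    have e3 : ∑ q : Fin N' × Fin N, (t q.1 * s q.2) * star (t q.1 * s q.2) =
        ∑ l, t l * (∑ p, s p * star (s p)) * star (t l) := by
      rw [Fintype.sum_prod_type]
      refine Finset.sum_congr rfl fun l _ => ?_
      rw [Finset.mul_sum, Finset.sum_mul]
      refine Finset.sum_congr rfl fun k _ => ?_
      rw [star_mul]
      simp only [mul_assoc]
    have e4 : ‖∑ l, t l * (∑ p, s p * star (s p)) * star (t l)‖ ≤ δ := by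
      refine (norm_sandwich t _ (Finset.sum_nonneg fun p _ => mul_star_self_nonneg _)).trans ?_
      calc ‖∑ p, s p * star (s p)‖ * ‖∑ i, t i * star (t i)‖ ≤ 1 * δ := by
            refine mul_le_mul (hε.trans (by linarith)) hδ (norm_nonneg _) zero_le_one
        _ = δ := one_mul _
    rw [e2, e3]
    have e5 : ‖(1 : B)‖ ≤ 1 := Col.norm_one_le
    calc 3 * (c * ‖ξ j‖) ^ 2 * (‖(1 : B)‖ + ‖∑ l, t l * (∑ p, s p * star (s p)) * star (t l)‖)
        ≤ 3 * (c * ‖ξ j‖) ^ 2 * (1 + δ) := by gcongr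
      _ = _ := by ring
  have hX : ‖amp w (Fin m) X ξ‖ ^ 2 ≤ 3 * c ^ 2 * (1 + ε) *
      ∑ r, ‖∑ k, w (sandw s X r k) (η k)‖ ^ 2 := by
    rw [Fintype.sum_prod_type, Finset.sum_comm, PiLp.norm_sq_eq_of_L2, Finset.mul_sum]
    refine Finset.sum_le_sum fun i _ => ?_
    rw [amp_expand w hw s hs X ξ i]
    exact word_row hgt w hc hwb s hs hε _
  -- the row bound
  set M : ℝ := √(3 * c ^ 2 * (1 + 1 / 100) * Q) with hM
  have hM0 : 0 ≤ M := Real.sqrt_nonneg _
  have hM2 : M ^ 2 = 3 * c ^ 2 * (1 + 1 / 100) * Q := Real.sq_sqrt (by positivity)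
  have hT : ∀ (Z : CStarMatrix (Fin N × Fin m) (Fin N × Fin m) B) (j : Fin N × Fin m),
      ‖∑ k, w (Z j k) (η k)‖ ≤ M * ‖Z‖ := by
    intro Z j
    have h1 : ‖∑ k, Z j k * star (Z j k)‖ ≤ ‖Z‖ ^ 2 := by
      have h2 : (Z * star Z) j j = ∑ k, Z j k * star (Z j k) := by
        rw [CStarMatrix.mul_apply]
        rfl
      rw [← h2]
      refine CStarMatrix.norm_entry_le_norm.trans ?_
      rw [CStarRing.norm_self_mul_star, pow_two]
    have h2 : ‖∑ k, star (Z j k) * Z j k‖ ≤ ((N : ℝ) * m) * ‖Z‖ ^ 2 := by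
      refine (norm_sum_le _ _).trans ?_
      calc ∑ k, ‖star (Z j k) * Z j k‖ ≤ ∑ _k : Fin N × Fin m, ‖Z‖ ^ 2 := by
            refine Finset.sum_le_sum fun k _ => ?_
            rw [CStarRing.norm_star_mul_self, ← pow_two]
            exact pow_le_pow_left₀ (norm_nonneg _) CStarMatrix.norm_entry_le_norm 2
        _ = _ := by
            rw [Finset.sum_const, Finset.card_univ, Fintype.card_prod, Fintype.card_fin,
              Fintype.card_fin, nsmul_eq_mul]
            push_cast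
            ring
    have h3 := row_words hgt hw hc hwb t ht hδ (fun k => Z j k) η
    have h4 : ‖∑ k, w (Z j k) (η k)‖ ^ 2 ≤ (M * ‖Z‖) ^ 2 := by
      refine h3.trans ?_
      rw [mul_pow, hM2]
      calc 3 * c ^ 2 * (‖∑ k, Z j k * star (Z j k)‖ + ‖∑ k, star (Z j k) * Z j k‖ * δ) * Q
          ≤ 3 * c ^ 2 * (‖Z‖ ^ 2 + ((N : ℝ) * m) * ‖Z‖ ^ 2 * δ) * Q := by gcongr
        _ = 3 * c ^ 2 * (1 + ((N : ℝ) * m) * δ) * Q * ‖Z‖ ^ 2 := by ring
        _ ≤ 3 * c ^ 2 * (1 + 1 / 100) * Q * ‖Z‖ ^ 2 := by gcongr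
    exact (pow_le_pow_iff_left₀ (norm_nonneg _) (by positivity) two_ne_zero).1 h4
  have hrow := row_mat' hgt (w := w) η hM0 hT (sandw s X)
  have hsX := norm_sandw s hs X
  have hsr := sandw_row s hs ε hε X
  have hfin : ‖amp w (Fin m) X ξ‖ ^ 2 ≤ (10 * c ^ 3 * ‖X‖ * ‖ξ‖) ^ 2 := by
    calc ‖amp w (Fin m) X ξ‖ ^ 2
        ≤ 3 * c ^ 2 * (1 + ε) * ∑ r, ‖∑ k, w (sandw s X r k) (η k)‖ ^ 2 := hX
      _ ≤ 3 * c ^ 2 * (1 + ε) * (3 * (3 * c ^ 2 * (1 + 1 / 100) *
            (3 * c ^ 2 * (1 + δ) * ‖ξ‖ ^ 2)) * (‖X‖ ^ 2 + (m : ℝ) ^ 2 * ‖X‖ ^ 2 * ε)) := by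
          gcongr
          refine hrow.trans ?_
          rw [hM2]
          gcongr
      _ = (81 * (1 + 1 / 100) * ((1 + ε) * (1 + δ) * (1 + (m : ℝ) ^ 2 * ε))) *
            (c ^ 6 * ‖X‖ ^ 2 * ‖ξ‖ ^ 2) := by ring
      _ ≤ (81 * (1 + 1 / 100) * ((1 + 1 / 100) * (1 + 1 / 100) * (1 + 1 / 100))) *
            (c ^ 6 * ‖X‖ ^ 2 * ‖ξ‖ ^ 2) := by gcongr
      _ ≤ 100 * (c ^ 6 * ‖X‖ ^ 2 * ‖ξ‖ ^ 2) := by
          gcongr
          norm_num
      _ = _ := by ring
  exact (pow_le_pow_iff_left₀ (norm_nonneg _) (by positivity) two_ne_zero).1 hfin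

/-- The no-trace theorem. -/
theorem notrace3 (B : Type u) [CStarAlgebra B] [PartialOrder B] [StarOrderedRing B]
    (ht : ¬ ∃ τ : B →ₗ[ℂ] ℂ, IsTracialState τ)
    (H : Type v) [NormedAddCommGroup H] [InnerProductSpace ℂ H] [CompleteSpace H]
    (u : B →ₗ[ℂ] (H →L[ℂ] H)) (hu : IsHom u) (c : ℝ) (hc : 0 ≤ c) (hb : ∀ X, ‖u X‖ ≤ c * ‖X‖)
    (m : ℕ) : LvlBd u m (10 * c ^ 3) := by
  obtain ⟨n, a, δ, hδ, ha⟩ := p_A_hb B ht
  obtain ⟨k, r, ρ, hρ0, hρ1, hr1, hr2⟩ := p_A_fam B n a δ hδ ha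
  exact words_bd main_gt hu hc hb (p_A_word B k r ρ hρ0 hρ1 hr1 hr2) m

end Y268.Kad
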