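import Mathlib
import Pool.Agent.Y268.Kad.Base

/-!
Similarity making a homomorphism of `M_L(B)` preserve adjoints on scalar matrices, without
increasing its norm.
-/

open scoped ComplexOrder InnerProductSpace ComplexConjugate
open Finset

noncomputable section

namespace Y268.Kad

open H759R2.Kad H759R2.Kad.A25

universe u v

/-- The norm preserving form of `K_sim`. -/
theorem sim2 (B : Type u) [CStarAlgebra B] [PartialOrder B] [StarOrderedRing B]
    (H : Type v) [NormedAddCommGroup H] [InnerProductSpace ℂ H] [CompleteSpace H] (L : ℕ)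
    (u : CStarMatrix (Fin L) (Fin L) B →ₗ[ℂ] (H →L[ℂ] H)) (hu : IsHom u) (c : ℝ) (hc : 0 ≤ c)
    (hbd : ∀ X, ‖u X‖ ≤ c * ‖X‖) : ∃ S S' : H →L[ℂ] H, S * S' = 1 ∧ S' * S = 1 ∧ ‖S‖ ≤ c ∧
      ‖S'‖ ≤ c ∧ (∀ X, ‖S * u X * S'‖ ≤ c * ‖X‖) ∧
      ∀ s : Matrix (Fin L) (Fin L) ℂ,
        star (S * u (tens s 1) * S') = S * u (tens (star s) 1) * S' := by
  set G := Equiv.Perm (Fin L) × (Fin L → ℤˣ) with hG
  have hone : (1 : B) ∈ unitary B := one_mem _
  have hmem : ∀ g : G, tens (spm g.1 g.2) (1 : B) ∈ unitary (CStarMatrix (Fin L) (Fin L) B) :=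
    fun g => Block.tens_unitary (spm_mem g.1 g.2) hone
  obtain ⟨S, S', i1, i2, n1, n2, hn, hstar⟩ := groupRen u hu hc hbd
    (fun g : G => tens (spm g.1 g.2) (1 : B)) hmem
    (fun h => ⟨Equiv.ofBijective (rmul h.1 h.2)
      ((Finite.injective_iff_bijective).mp (rmul_inj h.1 h.2)), fun g => by
        rw [tens_mul_tens, spm_mul]
        rfl⟩)
  refine ⟨S, S', i1, i2, n1, n2, hn, ?_⟩
  have hP : ∀ g : G, star (S * u (tens (spm g.1 g.2) 1) * S') =
      S * u (tens (star (spm g.1 g.2)) 1) * S' := fun g => by
    rw [hstar g, H294R2.Kad2.star_tens, star_one]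
  have hadd : ∀ s t : Matrix (Fin L) (Fin L) ℂ,
      star (S * u (tens s 1) * S') = S * u (tens (star s) 1) * S' →
      star (S * u (tens t 1) * S') = S * u (tens (star t) 1) * S' →
      star (S * u (tens (s + t) 1) * S') = S * u (tens (star (s + t)) 1) * S' := by
    intro s t hs ht
    rw [tens_add', map_add, mul_add, add_mul, star_add, hs, ht, star_add, tens_add', map_add,
      mul_add, add_mul]
  have hsmul : ∀ (a : ℂ) (s : Matrix (Fin L) (Fin L) ℂ),
      star (S * u (tens s 1) * S') = S * u (tens (star s) 1) * S' →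
      star (S * u (tens (a • s) 1) * S') = S * u (tens (star (a • s)) 1) * S' := by
    intro a s hs
    rw [tens_smul', map_smul, mul_smul_comm, smul_mul_assoc, star_smul, hs, star_smul, tens_smul',
      map_smul, mul_smul_comm, smul_mul_assoc]
  have hsingle : ∀ i j : Fin L, Matrix.single i j (1 : ℂ) =
      (1 / 2 : ℂ) • (spm (Equiv.swap i j) (fun _ => 1) +
        (-1 : ℂ) • spm (Equiv.swap i j) (Function.update (fun _ => 1) i (-1))) := by
    intro i j
    ext a b
    rw [Matrix.smul_apply, Matrix.add_apply, Matrix.smul_apply, spm_apply, spm_apply,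
      Matrix.single_apply]
    by_cases ha : a = i
    · subst ha
      by_cases hb : b = j
      · subst hb
        simp
        norm_num
      · have hb' : ¬ (j = b) := fun h => hb h.symm
        simp [hb']
    · have ha' : ¬ (i = a) := fun h => ha h.symm
      simp only [Function.update_of_ne ha, ha', false_and, if_false, Units.val_one, Int.cast_one,
        smul_eq_mul]
      split_ifs <;> norm_num
  intro s
  rw [Matrix.matrix_eq_sum_single s]
  have hzero : star (S * u (tens (0 : Matrix (Fin L) (Fin L) ℂ) 1) * S') =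
      S * u (tens (star (0 : Matrix (Fin L) (Fin L) ℂ)) 1) * S' := by
    have := hsmul 0 (spm 1 1) (hP (1, 1))
    simpa using this
  have hsum : ∀ (κ : Type) (F : Finset κ) (f : κ → Matrix (Fin L) (Fin L) ℂ),
      (∀ k ∈ F, star (S * u (tens (f k) 1) * S') = S * u (tens (star (f k)) 1) * S') →
      star (S * u (tens (∑ k ∈ F, f k) 1) * S') = S * u (tens (star (∑ k ∈ F, f k)) 1) * S' := by
    classical
    intro κ F f
    induction F using Finset.induction_on with
    | empty => intro _; simpa using hzero
    | insert a F ha ih =>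
      intro h
      rw [Finset.sum_insert ha]
      exact hadd _ _ (h a (Finset.mem_insert_self a F))
        (ih fun k hk => h k (Finset.mem_insert_of_mem hk))
  apply hsum
  intro i _
  apply hsum
  intro j _
  have e : Matrix.single i j (s i j) = s i j • Matrix.single i j (1 : ℂ) := by
    rw [Matrix.smul_single, smul_eq_mul, mul_one]
  rw [e, hsingle]
  apply hsmul
  apply hsmul
  apply hadd
  · exact hP (Equiv.swap i j, fun _ => 1)
  · apply hsmul
    exact hP (Equiv.swap i j, Function.update (fun _ => 1) i (-1))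

end Y268.Kad
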