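import Mathlib
import Pool.Agent.Y268.Kad.Base
import Pool.Agent.H804R2.Kad3.Fam1
import Pool.Agent.H777R2.Kad.Dix
import Pool.Agent.H57R2.Kad2.Col
import Pool.Agent.H294R2.Kad2.Dix2
import Pool.Agent.H847R2.Kad5.Wlim
import Pool.Agent.H778R2.Kad3.Vmap
import Pool.Agent.H71R2.Kad.Block

/-!
Averaging data, the limit norm, and the inequalities at a finite stage.
-/

open scoped ComplexOrder InnerProductSpace ComplexConjugate
open Finset

noncomputable section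

namespace Y268.Kad

open H759R2.Kad

/-- Families of unitaries that average finitely many elements to scalars. -/
structure AvData {B : Type} [CStarAlgebra B] (τ : B →ₗ[ℂ] ℂ) where
  N : Finset B × ℕ → ℕ
  b : ∀ i, Fin (N i + 1) → unitary B
  good : ∀ i, ∀ y ∈ i.1, ‖((N i + 1 : ℂ))⁻¹ • ∑ k, (b i k : B) * y * star (b i k : B) -
    algebraMap ℂ B (τ y)‖ ≤ 1 / ((i.2 : ℝ) + 1)

theorem exists_av {B : Type} [CStarAlgebra B] {τ : B →ₗ[ℂ] ℂ} (hτ : IsTracialState τ)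
    (hd : HasDixmier τ) : Nonempty (AvData τ) := by
  have h : ∀ i : Finset B × ℕ, ∃ (N : ℕ) (b : Fin (N + 1) → unitary B), ∀ y ∈ i.1,
      ‖((N + 1 : ℂ))⁻¹ • ∑ k, (b k : B) * y * star (b k : B) -
        algebraMap ℂ B (τ y)‖ ≤ 1 / ((i.2 : ℝ) + 1) := by
    intro i
    obtain ⟨Ω, i1, i2, g, hg⟩ := F804.famA hτ hd (1 / ((i.2 : ℝ) + 1)) (by positivity)
      (i.1 : Set B) i.1.finite_toSet
    obtain ⟨N, hN⟩ : ∃ N, Fintype.card Ω = N + 1 :=
      Nat.exists_eq_succ_of_ne_zero Fintype.card_ne_zero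
    let e : Fin (N + 1) ≃ Ω := (Fintype.equivFinOfCardEq hN).symm
    refine ⟨N, fun k => g (e k), fun y hy => ?_⟩
    have h1 := hg y (by exact_mod_cast hy)
    unfold F804.avr fav at h1
    rw [hN] at h1
    rw [Equiv.sum_comp e (fun s => (g s : B) * y * star (g s : B))]
    push_cast at h1
    exact h1
  choose N b hb using h
  exact ⟨⟨N, b, hb⟩⟩

section basic

variable {B : Type} [CStarAlgebra B] {τ : B →ₗ[ℂ] ℂ}
  {K : Type} [NormedAddCommGroup K] [InnerProductSpace ℂ K]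

/-- The quadratic form at a finite stage. -/
def qn (D : AvData τ) (w : B →ₗ[ℂ] (K →L[ℂ] K)) (i : Finset B × ℕ) (ξ : K) : ℝ :=
  ((D.N i : ℝ) + 1)⁻¹ * ∑ k, ‖w (D.b i k) ξ‖ ^ 2

theorem qn_nonneg (D : AvData τ) (w : B →ₗ[ℂ] (K →L[ℂ] K)) (i : Finset B × ℕ) (ξ : K) :
    0 ≤ qn D w i ξ := by
  unfold qn
  positivity

/-- Signed permutations and the unitaries of the data, together. -/
theorem dixF [PartialOrder B] [StarOrderedRing B] (D : AvData τ) (ι : Type) [Fintype ι]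
    [DecidableEq ι] [Nonempty ι] (X : CStarMatrix ι ι B) (i : Finset B × ℕ) (hi : avd X ∈ i.1) :
    ∃ (N : ℕ) (s : Fin (N + 1) → unitary (Matrix ι ι ℂ)) (t : Fin (N + 1) → Fin (D.N i + 1)),
      (∀ f : Fin (D.N i + 1) → ℝ, ((D.N i : ℝ) + 1) * ∑ k, f (t k) = ((N : ℝ) + 1) * ∑ k, f k) ∧
      ‖((N + 1 : ℂ))⁻¹ • ∑ k, tens (s k : Matrix ι ι ℂ) (D.b i (t k) : B) * X *
              star (tens (s k : Matrix ι ι ℂ) (D.b i (t k) : B)) -
            algebraMap ℂ (CStarMatrix ι ι B) (ntr τ ι X)‖ ≤ 1 / ((i.2 : ℝ) + 1) := by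
  set N₀ := D.N i with hN₀
  set g := D.b i with hgd
  have hg := D.good i (avd X) hi
  have hcard : 0 < Fintype.card (AvI ι N₀) := Fintype.card_pos
  obtain ⟨N, hN⟩ : ∃ N, Fintype.card (AvI ι N₀) = N + 1 := ⟨Fintype.card (AvI ι N₀) - 1, by omega⟩
  let E : AvI ι N₀ ≃ Fin (N + 1) := Fintype.equivFinOfCardEq hN
  have hM' : ((N : ℝ) + 1) = (Fintype.card (Equiv.Perm ι) : ℝ) * (Fintype.card (ι → ℤˣ) : ℝ) *
      ((N₀ : ℝ) + 1) := by
    have := congrArg (Nat.cast (R := ℝ)) hN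
    rw [Fintype.card_prod, Fintype.card_prod, Fintype.card_fin] at this
    push_cast at this ⊢
    rw [← this]
    ring
  refine ⟨N, fun k => ⟨spm (E.symm k).1 (E.symm k).2.1, spm_mem _ _⟩, fun k => (E.symm k).2.2,
    fun f => ?_, ?_⟩
  · rw [Equiv.sum_comp E.symm (fun p : AvI ι N₀ => f p.2.2), hM', Fintype.sum_prod_type]
    simp only [Fintype.sum_prod_type, Finset.sum_const, Finset.card_univ, nsmul_eq_mul]
    ring
  have hsum : ∑ k : Fin (N + 1), tens (spm (E.symm k).1 (E.symm k).2.1)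
      (g (E.symm k).2.2 : B) * X * star (tens (spm (E.symm k).1 (E.symm k).2.1)
      (g (E.symm k).2.2 : B)) =
      ((Fintype.card (Equiv.Perm ι) : ℂ) * (Fintype.card (ι → ℤˣ) : ℂ)) •
        dgl B ι (∑ k, (g k : B) * avd X * star (g k : B)) := by
    rw [Equiv.sum_comp E.symm (fun p : AvI ι N₀ => tens (spm p.1 p.2.1) (g p.2.2 : B) * X *
      star (tens (spm p.1 p.2.1) (g p.2.2 : B)))]
    rw [Fintype.sum_prod_type]
    simp only [Fintype.sum_prod_type]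
    have h1 : ∀ σ : Equiv.Perm ι, ∑ e : ι → ℤˣ, ∑ k : Fin (N₀ + 1),
        tens (spm σ e) (g k : B) * X * star (tens (spm σ e) (g k : B)) =
        ∑ k : Fin (N₀ + 1), ∑ e : ι → ℤˣ,
          tens (spm σ e) (g k : B) * X * star (tens (spm σ e) (g k : B)) :=
      fun σ => Finset.sum_comm
    rw [Finset.sum_congr rfl fun σ _ => h1 σ, Finset.sum_comm,
      Finset.sum_congr rfl fun k _ => sum_conj (g k : B) X, ← Finset.smul_sum, map_sum]
  have hM : ((N : ℂ) + 1) = (Fintype.card (Equiv.Perm ι) : ℂ) * (Fintype.card (ι → ℤˣ) : ℂ) *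
      ((N₀ : ℂ) + 1) := by
    have := congrArg (Nat.cast (R := ℂ)) hN
    rw [Fintype.card_prod, Fintype.card_prod, Fintype.card_fin] at this
    push_cast at this ⊢
    rw [← this]
    ring
  have hP : (Fintype.card (Equiv.Perm ι) : ℂ) ≠ 0 := by exact_mod_cast Fintype.card_ne_zero
  have hS : (Fintype.card (ι → ℤˣ) : ℂ) ≠ 0 := by exact_mod_cast Fintype.card_ne_zero
  have hN0 : ((N₀ : ℂ) + 1) ≠ 0 := by exact_mod_cast Nat.succ_ne_zero N₀
  have halg : algebraMap ℂ (CStarMatrix ι ι B) (ntr τ ι X) =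
      dgl B ι (algebraMap ℂ B (τ (avd X))) := by
    ext i j
    rw [dgl_apply, CStarMatrix.algebraMap_apply, tau_avd]
  show ‖((N : ℂ) + 1)⁻¹ • ∑ k : Fin (N + 1), tens (spm (E.symm k).1 (E.symm k).2.1)
      (g (E.symm k).2.2 : B) * X * star (tens (spm (E.symm k).1 (E.symm k).2.1)
      (g (E.symm k).2.2 : B)) - _‖ ≤ _
  rw [hsum, halg, smul_smul, hM]
  have hco : ((Fintype.card (Equiv.Perm ι) : ℂ) * (Fintype.card (ι → ℤˣ) : ℂ) *
      ((N₀ : ℂ) + 1))⁻¹ * ((Fintype.card (Equiv.Perm ι) : ℂ) * (Fintype.card (ι → ℤˣ) : ℂ)) =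
      ((N₀ : ℂ) + 1)⁻¹ := by
    field_simp
  rw [hco, ← map_smul, ← map_sub]
  exact (norm_dgl_le ι _).trans hg

/-- Norm of the image of an elementary tensor. -/
theorem amp_tens_norm (w : B →ₗ[ℂ] (K →L[ℂ] K)) {ι : Type} [Fintype ι] [DecidableEq ι]
    {s : Matrix ι ι ℂ} (hs : s ∈ unitary (Matrix ι ι ℂ)) (h : B) (v : HH ι K) :
    ‖amp w ι (tens s h) v‖ ^ 2 = ∑ c, ‖w h (v c)‖ ^ 2 := by
  have h1 : ∀ i, amp w ι (tens s h) v i = ∑ j, s i j • w h (v j) := by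
    intro i
    rw [amp_apply]
    refine Finset.sum_congr rfl fun j _ => ?_
    have : tens s h i j = s i j • h := rfl
    rw [this, map_smul]
    rfl
  rw [PiLp.norm_sq_eq_of_L2, ← H294R2.Kad2.sum_scal hs (fun j => w h (v j))]
  exact Finset.sum_congr rfl fun i _ => by rw [h1 i]

/-- Summation over the combined family. -/
theorem sum_tens (D : AvData τ) (w : B →ₗ[ℂ] (K →L[ℂ] K)) {ι : Type} [Fintype ι] [DecidableEq ι]
    (i : Finset B × ℕ) {N : ℕ} (s : Fin (N + 1) → unitary (Matrix ι ι ℂ))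
    (t : Fin (N + 1) → Fin (D.N i + 1))
    (ht : ∀ f : Fin (D.N i + 1) → ℝ, ((D.N i : ℝ) + 1) * ∑ k, f (t k) = ((N : ℝ) + 1) * ∑ k, f k)
    (v : HH ι K) :
    ∑ k, ‖amp w ι (tens (s k : Matrix ι ι ℂ) (D.b i (t k) : B)) v‖ ^ 2 =
      ((N : ℝ) + 1) * ∑ c, qn D w i (v c) := by
  have h1 := ht fun k => ∑ c, ‖w (D.b i k) (v c)‖ ^ 2
  have hN : (0 : ℝ) < (D.N i : ℝ) + 1 := by positivity
  have h2 : ∑ k, ‖amp w ι (tens (s k : Matrix ι ι ℂ) (D.b i (t k) : B)) v‖ ^ 2 =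
      ∑ k, ∑ c, ‖w (D.b i (t k)) (v c)‖ ^ 2 :=
    Finset.sum_congr rfl fun k _ => amp_tens_norm w (s k).2 _ v
  rw [h2]
  have h3 : ∑ c, qn D w i (v c) = ((D.N i : ℝ) + 1)⁻¹ * ∑ k, ∑ c, ‖w (D.b i k) (v c)‖ ^ 2 := by
    unfold qn
    rw [← Finset.mul_sum, Finset.sum_comm]
  rw [h3, mul_left_comm, ← h1, ← mul_assoc, inv_mul_cancel₀ hN.ne', one_mul]

end basic

section stage

variable {B : Type} [CStarAlgebra B] [PartialOrder B] [StarOrderedRing B] {τ : B →ₗ[ℂ] ℂ}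
  {K : Type} [NormedAddCommGroup K] [InnerProductSpace ℂ K] [CompleteSpace K]

/-- Column inequality at a finite stage. -/
theorem col_stage (h : St_gt.{0, 0}) (hτ : IsTracialState τ) (D : AvData τ)
    (w : B →ₗ[ℂ] (K →L[ℂ] K)) (hw : IsHom w) (β : Type) [Fintype β] [DecidableEq β] [Nonempty β]
    (γ : ℝ) (hγ : 0 ≤ γ) (hb : ∀ Y : CStarMatrix β β B, ‖amp w β Y‖ ≤ γ * ‖Y‖)
    (κ : Type) [Fintype κ] (a : κ → CStarMatrix β β B) (ζ : HH β K) (i : Finset B × ℕ)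
    (hi : avd (∑ k, a k * star (a k)) ∈ i.1) :
    ∑ k, ∑ c, qn D w i (amp w β (a k) ζ c) ≤
      3 * (γ * ‖ζ‖) ^ 2 * (2 * ‖∑ k, star (a k) * a k‖ + 1 / ((i.2 : ℝ) + 1)) := by
  obtain ⟨N, s, t, ht, hg⟩ := dixF D β (∑ k, a k * star (a k)) i hi
  have hN : (0 : ℝ) < (N : ℝ) + 1 := by positivity
  have hgt := gt_dix h (CStarMatrix β β B) (HH β K)
    ((ContinuousLinearMap.apply ℂ (HH β K) ζ).toLinearMap.comp (amp w β)) (γ * ‖ζ‖)
    (by positivity) (fun b => by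
      simp only [LinearMap.comp_apply, ContinuousLinearMap.coe_coe, ContinuousLinearMap.apply_apply]
      calc ‖amp w β b ζ‖ ≤ ‖amp w β b‖ * ‖ζ‖ := (amp w β b).le_opNorm ζ
        _ ≤ γ * ‖b‖ * ‖ζ‖ := by gcongr; exact hb b
        _ = γ * ‖ζ‖ * ‖b‖ := by ring) (ntr τ β) (isTracialState_ntr hτ β) κ a
    (1 / ((i.2 : ℝ) + 1)) N
    (fun k => ⟨tens (s k : Matrix β β ℂ) (D.b i (t k) : B),
      Block.tens_unitary (s k).2 (D.b i (t k)).2⟩) hg
  simp only [LinearMap.comp_apply, ContinuousLinearMap.coe_coe,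
    ContinuousLinearMap.apply_apply] at hgt
  have e : ∑ ik : Fin (N + 1) × κ, ‖amp w β (tens (s ik.1 : Matrix β β ℂ) (D.b i (t ik.1) : B) *
      a ik.2) ζ‖ ^ 2 = ((N : ℝ) + 1) * ∑ k, ∑ c, qn D w i (amp w β (a k) ζ c) := by
    rw [Fintype.sum_prod_type, Finset.sum_comm, Finset.mul_sum]
    refine Finset.sum_congr rfl fun k _ => ?_
    rw [← sum_tens D w i s t ht (amp w β (a k) ζ)]
    refine Finset.sum_congr rfl fun m _ => ?_
    rw [(H294R2.Kad2.amp_isHom hw).mul]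
    rfl
  rw [e] at hgt
  have h2 : ((N : ℝ) + 1) * ∑ k, ∑ c, qn D w i (amp w β (a k) ζ c) ≤ ((N : ℝ) + 1) *
      (3 * (γ * ‖ζ‖) ^ 2 * (2 * ‖∑ k, star (a k) * a k‖ + 1 / ((i.2 : ℝ) + 1))) := by
    refine hgt.trans (le_of_eq ?_)
    ring
  exact le_of_mul_le_mul_left h2 hN

/-- Row inequality at a finite stage. -/
theorem row_stage (h : St_gt.{0, 0}) (hτ : IsTracialState τ) (D : AvData τ)
    (w : B →ₗ[ℂ] (K →L[ℂ] K)) (hw : IsHom w) (β : Type) [Fintype β] [DecidableEq β] [Nonempty β]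
    (γ : ℝ) (hγ : 0 ≤ γ) (hb : ∀ Y : CStarMatrix β β B, ‖amp w β Y‖ ≤ γ * ‖Y‖)
    (κ : Type) [Fintype κ] (a : κ → CStarMatrix β β B) (ξ : κ → HH β K) (i : Finset B × ℕ)
    (hi : avd (∑ k, star (a k) * a k) ∈ i.1) :
    ‖∑ k, amp w β (a k) (ξ k)‖ ^ 2 ≤
      3 * γ ^ 2 * (2 * ‖∑ k, a k * star (a k)‖ + 1 / ((i.2 : ℝ) + 1)) *
        ∑ k, ∑ c, qn D w i (ξ k c) := by
  set η : HH β K := ∑ k, amp w β (a k) (ξ k) with hη
  have hv := fun X => (prove3_vmap.{0, 0} B K w).1 β X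
  have hi' : avd (∑ k, star (a k) * star (star (a k))) ∈ i.1 := by simpa only [star_star] using hi
  obtain ⟨N, s, t, ht, hg⟩ := dixF D β (∑ k, star (a k) * star (star (a k))) i hi'
  have hN : (0 : ℝ) < (N : ℝ) + 1 := by positivity
  have hgt := gt_dix h (CStarMatrix β β B) (HH β K)
    ((ContinuousLinearMap.apply ℂ (HH β K) η).toLinearMap.comp (amp (vmap w) β)) (γ * ‖η‖)
    (by positivity) (fun b => by
      simp only [LinearMap.comp_apply, ContinuousLinearMap.coe_coe, ContinuousLinearMap.apply_apply]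
      calc ‖amp (vmap w) β b η‖ ≤ ‖amp (vmap w) β b‖ * ‖η‖ := (amp (vmap w) β b).le_opNorm η
        _ ≤ γ * ‖b‖ * ‖η‖ := by
            gcongr
            have e1 : ‖amp (vmap w) β b‖ = ‖amp w β (star b)‖ := by
              rw [hv, ContinuousLinearMap.star_eq_adjoint]
              exact LinearIsometryEquiv.norm_map _ _
            rw [e1]
            exact (hb _).trans (by rw [norm_star])
        _ = γ * ‖η‖ * ‖b‖ := by ring) (ntr τ β) (isTracialState_ntr hτ β) κ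
    (fun k => star (a k)) (1 / ((i.2 : ℝ) + 1)) N
    (fun k => ⟨tens (s k : Matrix β β ℂ) (D.b i (t k) : B),
      Block.tens_unitary (s k).2 (D.b i (t k)).2⟩) hg
  simp only [LinearMap.comp_apply, ContinuousLinearMap.coe_coe,
    ContinuousLinearMap.apply_apply, star_star] at hgt
  set g : Fin (N + 1) → CStarMatrix β β B := fun k => tens (s k : Matrix β β ℂ) (D.b i (t k) : B)
    with hgdef
  have hgu : ∀ m, g m ∈ unitary (CStarMatrix β β B) := fun m =>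
    Block.tens_unitary (s m).2 (D.b i (t m)).2
  -- the pairing
  have hpair : ∀ (m : Fin (N + 1)) (k : κ), ⟪η, amp w β (a k) (ξ k)⟫_ℂ =
      ⟪amp (vmap w) β (g m * star (a k)) η, amp w β (g m) (ξ k)⟫_ℂ := by
    intro m k
    rw [hv, star_mul, star_star, ContinuousLinearMap.star_eq_adjoint,
      ContinuousLinearMap.adjoint_inner_left, ← mul_apply_eq_comp,
      ← (H294R2.Kad2.amp_isHom hw).mul, mul_assoc, (Unitary.mem_iff.mp (hgu m)).1, mul_one]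
  have hsum : ((N : ℝ) + 1) * ‖η‖ ^ 2 ≤ ∑ p : Fin (N + 1) × κ,
      ‖amp (vmap w) β (g p.1 * star (a p.2)) η‖ * ‖amp w β (g p.1) (ξ p.2)‖ := by
    rw [Fintype.sum_prod_type]
    have h1 : ∀ m : Fin (N + 1), ‖η‖ ^ 2 ≤ ∑ k,
        ‖amp (vmap w) β (g m * star (a k)) η‖ * ‖amp w β (g m) (ξ k)‖ := by
      intro m
      have e1 : (‖η‖ ^ 2 : ℝ) = ‖⟪η, η⟫_ℂ‖ := by
        rw [inner_self_eq_norm_sq_to_K]
        simp
      have e2 : ⟪η, η⟫_ℂ = ∑ k, ⟪amp (vmap w) β (g m * star (a k)) η, amp w β (g m) (ξ k)⟫_ℂ := by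
        conv_lhs => rw [hη]
        rw [← hη, inner_sum]
        exact Finset.sum_congr rfl fun k _ => hpair m k
      rw [e1, e2]
      exact (norm_sum_le _ _).trans (Finset.sum_le_sum fun k _ => norm_inner_le_norm _ _)
    calc ((N : ℝ) + 1) * ‖η‖ ^ 2 = ∑ _m : Fin (N + 1), ‖η‖ ^ 2 := by
          rw [Finset.sum_const, Finset.card_univ, Fintype.card_fin, nsmul_eq_mul]
          push_cast
          ring
      _ ≤ _ := Finset.sum_le_sum fun m _ => h1 m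
  have e : ∑ p : Fin (N + 1) × κ, ‖amp w β (g p.1) (ξ p.2)‖ ^ 2 =
      ((N : ℝ) + 1) * ∑ k, ∑ c, qn D w i (ξ k c) := by
    rw [Fintype.sum_prod_type, Finset.sum_comm, Finset.mul_sum]
    exact Finset.sum_congr rfl fun k _ => sum_tens D w i s t ht (ξ k)
  set Qs : ℝ := ∑ k, ∑ c, qn D w i (ξ k c) with hQs
  have hQ0 : 0 ≤ Qs := Finset.sum_nonneg fun k _ => Finset.sum_nonneg fun c _ => qn_nonneg _ _ _ _
  set R : ℝ := 2 * ‖∑ k, a k * star (a k)‖ + 1 / ((i.2 : ℝ) + 1) with hR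
  have hR0 : 0 ≤ R := by positivity
  have hcs : (((N : ℝ) + 1) * ‖η‖ ^ 2) ^ 2 ≤ (3 * (γ * ‖η‖) ^ 2 * (((N : ℝ) + 1) * R)) *
      (((N : ℝ) + 1) * Qs) := by
    calc (((N : ℝ) + 1) * ‖η‖ ^ 2) ^ 2 ≤ (∑ p : Fin (N + 1) × κ,
          ‖amp (vmap w) β (g p.1 * star (a p.2)) η‖ * ‖amp w β (g p.1) (ξ p.2)‖) ^ 2 :=
          pow_le_pow_left₀ (by positivity) hsum 2
      _ ≤ (∑ p : Fin (N + 1) × κ, ‖amp (vmap w) β (g p.1 * star (a p.2)) η‖ ^ 2) *
          ∑ p : Fin (N + 1) × κ, ‖amp w β (g p.1) (ξ p.2)‖ ^ 2 :=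
          Finset.sum_mul_sq_le_sq_mul_sq _ _ _
      _ ≤ _ := by
          rw [e]
          exact mul_le_mul_of_nonneg_right hgt (by positivity)
  rcases eq_or_ne (‖η‖) 0 with h0 | h0
  · have h6 : 0 ≤ 3 * γ ^ 2 * R * Qs := mul_nonneg (mul_nonneg (by positivity) hR0) hQ0
    rw [h0]
    simpa using h6
  · have hη2 : 0 < ‖η‖ ^ 2 := by positivity
    have h5 : (((N : ℝ) + 1) ^ 2 * ‖η‖ ^ 2) * ‖η‖ ^ 2 ≤
        (((N : ℝ) + 1) ^ 2 * ‖η‖ ^ 2) * (3 * γ ^ 2 * R * Qs) := by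
      calc (((N : ℝ) + 1) ^ 2 * ‖η‖ ^ 2) * ‖η‖ ^ 2 = (((N : ℝ) + 1) * ‖η‖ ^ 2) ^ 2 := by ring
        _ ≤ _ := hcs
        _ = _ := by ring
    exact le_of_mul_le_mul_left h5 (by positivity)

end stage

end Y268.Kad
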