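import Mathlib
import Pool.Agent.Y268.Kad.Avg1

/-!
The limit norm: column, row and block inequalities without loss.
-/

open scoped ComplexOrder InnerProductSpace ComplexConjugate
open Finset Filter

noncomputable section

namespace Y268.Kad

open H759R2.Kad

/-- An ultrafilter that contains all final segments of the index set. -/
structure Uf (B : Type) where
  U : Ultrafilter (Finset B × ℕ)
  ev : ∀ i₀ : Finset B × ℕ, ∀ᶠ i in (U : Filter (Finset B × ℕ)), i₀.1 ⊆ i.1 ∧ i₀.2 ≤ i.2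

theorem exists_uf (B : Type) : Nonempty (Uf B) := by
  classical
  refine ⟨⟨Ultrafilter.of (atTop : Filter (Finset B × ℕ)), fun i₀ => ?_⟩⟩
  have h : ∀ᶠ i in (atTop : Filter (Finset B × ℕ)), i₀ ≤ i := eventually_ge_atTop i₀
  exact (h.filter_mono (Ultrafilter.of_le _)).mono fun i hi => ⟨hi.1, hi.2⟩

section lim

variable {B : Type} [CStarAlgebra B] {τ : B →ₗ[ℂ] ℂ}
  {K : Type} [NormedAddCommGroup K] [InnerProductSpace ℂ K] [CompleteSpace K]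

/-- `S` gives the limit norm of the finite stages. -/
structure IsLim (D : AvData τ) (F : Uf B) (w : B →ₗ[ℂ] (K →L[ℂ] K)) (γ : ℝ)
    (S S' : K →L[ℂ] K) : Prop where
  r : S * S' = 1
  l : S' * S = 1
  sa : star S = S
  sa' : star S' = S'
  n : ‖S‖ ≤ γ
  n' : ‖S'‖ ≤ γ
  lim : ∀ ξ, Tendsto (fun i => qn D w i ξ) F.U (nhds (‖S ξ‖ ^ 2))

theorem unitary_norm {w : B →ₗ[ℂ] (K →L[ℂ] K)} {γ : ℝ} (hγ : 0 ≤ γ)
    (hb : ∀ b, ‖w b‖ ≤ γ * ‖b‖) (g : unitary B) : ‖w (g : B)‖ ≤ γ := by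
  refine (hb _).trans ?_
  have := mul_le_mul_of_nonneg_left (H294R2.Kad2.norm_le_one_of_unitary g.2) hγ
  simpa using this

theorem exists_lim (D : AvData τ) (F : Uf B) (w : B →ₗ[ℂ] (K →L[ℂ] K)) (hw : IsHom w) (γ : ℝ)
    (hγ : 0 < γ) (hb : ∀ b, ‖w b‖ ≤ γ * ‖b‖) : ∃ S S' : K →L[ℂ] K, IsLim D F w γ S S' := by
  set T : Finset B × ℕ → (K →L[ℂ] K) := fun i =>
    (((D.N i : ℝ) + 1)⁻¹ : ℝ) • ∑ k, star (w (D.b i k)) * w (D.b i k) with hT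
  have hin : ∀ i ξ, ⟪ξ, T i ξ⟫_ℂ = (qn D w i ξ : ℂ) := by
    intro i ξ
    have e1 : T i ξ = (((D.N i : ℝ) + 1)⁻¹ : ℝ) • ∑ k, (star (w (D.b i k)) * w (D.b i k)) ξ := by
      rw [hT]
      simp
    have e2 : ∀ (r : ℝ) (x : K), r • x = ((r : ℝ) : ℂ) • x := fun r x =>
      (Complex.coe_smul r x).symm
    have e3 : ∀ k, ⟪ξ, (star (w (D.b i k)) * w (D.b i k)) ξ⟫_ℂ =
        ((‖w (D.b i k) ξ‖ ^ 2 : ℝ) : ℂ) := by
      intro k
      have h := A25.inner_star_mul (w (D.b i k)) ξ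
      rw [← inner_conj_symm, h, Complex.conj_ofReal]
    rw [e1, e2, inner_smul_right, inner_sum]
    simp only [e3, qn]
    push_cast
    rfl
  have hTn : ∀ i, ‖T i‖ ≤ γ ^ 2 := by
    intro i
    have hN : (0 : ℝ) < (D.N i : ℝ) + 1 := by positivity
    rw [hT]
    simp only
    rw [norm_smul, Real.norm_of_nonneg (by positivity), inv_mul_le_iff₀ hN]
    refine (norm_sum_le _ _).trans ?_
    calc ∑ k, ‖star (w (D.b i k)) * w (D.b i k)‖ ≤ ∑ _k : Fin (D.N i + 1), γ ^ 2 := by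
          refine Finset.sum_le_sum fun k _ => ?_
          rw [CStarRing.norm_star_mul_self, ← sq]
          exact pow_le_pow_left₀ (norm_nonneg _) (unitary_norm hγ.le hb _) 2
      _ = _ := by
          rw [Finset.sum_const, Finset.card_univ, Fintype.card_fin, nsmul_eq_mul]
          push_cast
          ring
  obtain ⟨E, -, hE⟩ := H770R2.Kad.prove_wlim K (Finset B × ℕ) F.U T (γ ^ 2) (by positivity) hTn
  set q : K → ℝ := fun ξ => (⟪ξ, E ξ⟫_ℂ).re with hq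
  have hlim : ∀ ξ, Tendsto (fun i => qn D w i ξ) F.U (nhds (q ξ)) := by
    intro ξ
    have h1 := (Complex.continuous_re.tendsto _).comp (hE ξ ξ)
    refine h1.congr fun i => ?_
    simp only [Function.comp, hin, Complex.ofReal_re]
  have him : ∀ ξ, (⟪ξ, E ξ⟫_ℂ).im = 0 := by
    intro ξ
    have h1 := (Complex.continuous_im.tendsto _).comp (hE ξ ξ)
    have h2 : Tendsto (fun _ : Finset B × ℕ => (0 : ℝ)) F.U (nhds (⟪ξ, E ξ⟫_ℂ).im) := by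
      refine h1.congr fun i => ?_
      simp only [Function.comp, hin, Complex.ofReal_im]
    exact tendsto_nhds_unique h2 tendsto_const_nhds
  have hET : ∀ ξ, ⟪E ξ, ξ⟫_ℂ = (q ξ : ℂ) := by
    intro ξ
    rw [← inner_conj_symm]
    have : ⟪ξ, E ξ⟫_ℂ = (q ξ : ℂ) := Complex.ext rfl (by simpa using him ξ)
    rw [this, Complex.conj_ofReal]
  have hlow : ∀ ξ, ‖ξ‖ ^ 2 ≤ γ ^ 2 * q ξ := by
    intro ξ
    refine ge_of_tendsto' ((hlim ξ).const_mul (γ ^ 2)) fun i => ?_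
    have hN : (0 : ℝ) < (D.N i : ℝ) + 1 := by positivity
    unfold qn
    rw [mul_left_comm, le_inv_mul_iff₀ hN, Finset.mul_sum]
    calc ((D.N i : ℝ) + 1) * ‖ξ‖ ^ 2 = ∑ _k : Fin (D.N i + 1), ‖ξ‖ ^ 2 := by
          rw [Finset.sum_const, Finset.card_univ, Fintype.card_fin, nsmul_eq_mul]
          push_cast
          ring
      _ ≤ _ := by
          refine Finset.sum_le_sum fun k _ => ?_
          have e : ξ = w (star (D.b i k : B)) (w (D.b i k) ξ) := by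
            have : (w (star (D.b i k : B)) * w (D.b i k)) ξ = ξ := by
              rw [← hw.mul, Unitary.coe_star_mul_self, hw.one]
              rfl
            exact this.symm
          have h1 : ‖ξ‖ ≤ γ * ‖w (D.b i k) ξ‖ := by
            calc ‖ξ‖ = ‖w (star (D.b i k : B)) (w (D.b i k) ξ)‖ := by rw [← e]
              _ ≤ ‖w (star (D.b i k : B))‖ * ‖w (D.b i k) ξ‖ := ContinuousLinearMap.le_opNorm _ _
              _ ≤ _ := by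
                  refine mul_le_mul_of_nonneg_right ?_ (norm_nonneg _)
                  exact unitary_norm hγ.le hb (star (D.b i k))
          calc ‖ξ‖ ^ 2 ≤ (γ * ‖w (D.b i k) ξ‖) ^ 2 := pow_le_pow_left₀ (norm_nonneg _) h1 2
            _ = _ := by ring
  have hup : ∀ ξ, q ξ ≤ γ ^ 2 * ‖ξ‖ ^ 2 := by
    intro ξ
    refine le_of_tendsto' (hlim ξ) fun i => ?_
    have hN : (0 : ℝ) < (D.N i : ℝ) + 1 := by positivity
    unfold qn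
    rw [inv_mul_le_iff₀ hN]
    calc ∑ k, ‖w (D.b i k) ξ‖ ^ 2 ≤ ∑ _k : Fin (D.N i + 1), γ ^ 2 * ‖ξ‖ ^ 2 := by
          refine Finset.sum_le_sum fun k _ => ?_
          have h1 : ‖w (D.b i k) ξ‖ ≤ γ * ‖ξ‖ := ((w (D.b i k)).le_opNorm ξ).trans
            (mul_le_mul_of_nonneg_right (unitary_norm hγ.le hb _) (norm_nonneg _))
          calc ‖w (D.b i k) ξ‖ ^ 2 ≤ (γ * ‖ξ‖) ^ 2 := pow_le_pow_left₀ (norm_nonneg _) h1 2
            _ = _ := by ring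
      _ = _ := by
          rw [Finset.sum_const, Finset.card_univ, Fintype.card_fin, nsmul_eq_mul]
          push_cast
          ring
  obtain ⟨S, S', i1, i2, s1, s2, n1, n2, -, hSn⟩ := sqrtPair E q hET hγ hlow hup
  exact ⟨S, S', i1, i2, s1, s2, n1, n2, fun ξ => by rw [hSn]; exact hlim ξ⟩

/-- Left multiplication of a linear map into operators by an operator. -/
def lm (S : K →L[ℂ] K) (w : B →ₗ[ℂ] (K →L[ℂ] K)) : B →ₗ[ℂ] (K →L[ℂ] K) where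
  toFun b := S * w b
  map_add' a b := by rw [map_add, mul_add]
  map_smul' r a := by rw [map_smul, mul_smul_comm, RingHom.id_apply]

theorem lm_apply (S : K →L[ℂ] K) (w : B →ₗ[ℂ] (K →L[ℂ] K)) (b : B) : lm S w b = S * w b := rfl

theorem amp_lm (S : K →L[ℂ] K) (w : B →ₗ[ℂ] (K →L[ℂ] K)) {ι : Type} [Fintype ι]
    (X : CStarMatrix ι ι B) (v : HH ι K) (i : ι) : amp (lm S w) ι X v i = S (amp w ι X v i) := by
  rw [amp_apply, amp_apply, map_sum]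
  rfl

theorem amp_lm_norm (S : K →L[ℂ] K) (w : B →ₗ[ℂ] (K →L[ℂ] K)) {ι : Type} [Fintype ι]
    (X : CStarMatrix ι ι B) (v : HH ι K) :
    ‖amp (lm S w) ι X v‖ ^ 2 = ∑ i, ‖S (amp w ι X v i)‖ ^ 2 := by
  rw [PiLp.norm_sq_eq_of_L2]
  exact Finset.sum_congr rfl fun i _ => by rw [amp_lm]

/-- Column inequality with constant `6 γ²` for a linear map `v`, for all level bounds `γ` of
the homomorphism `w`. -/
def ColIneq [PartialOrder B] [StarOrderedRing B] (v w : B →ₗ[ℂ] (K →L[ℂ] K)) : Prop :=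
  ∀ (β : Type) [Fintype β] [DecidableEq β] [Nonempty β] (γ : ℝ), 0 ≤ γ →
    (∀ Y : CStarMatrix β β B, ‖amp w β Y‖ ≤ γ * ‖Y‖) → ∀ (κ : Type) [Fintype κ]
    (a : κ → CStarMatrix β β B) (ζ : HH β K),
    ∑ k, ‖amp v β (a k) ζ‖ ^ 2 ≤ 6 * γ ^ 2 * ‖∑ k, star (a k) * a k‖ * ‖ζ‖ ^ 2

variable [PartialOrder B] [StarOrderedRing B]

theorem eps_ev (F : Uf B) {ε : ℝ} (hε : 0 < ε) (y : B) :
    ∀ᶠ i in (F.U : Filter (Finset B × ℕ)), y ∈ i.1 ∧ 1 / ((i.2 : ℝ) + 1) ≤ ε := by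
  classical
  obtain ⟨n, hn⟩ := exists_nat_one_div_lt hε
  refine (F.ev ({y}, n)).mono fun i hi => ⟨hi.1 (by simp), ?_⟩
  have h1 : (n : ℝ) ≤ i.2 := by exact_mod_cast hi.2
  calc 1 / ((i.2 : ℝ) + 1) ≤ 1 / ((n : ℝ) + 1) := by
        apply one_div_le_one_div_of_le (by positivity)
        linarith
    _ ≤ ε := hn.le

theorem col_lim (h : St_gt.{0, 0}) (hτ : IsTracialState τ) (D : AvData τ) (F : Uf B)
    {w : B →ₗ[ℂ] (K →L[ℂ] K)} (hw : IsHom w) {γ₀ : ℝ} {S S' : K →L[ℂ] K}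
    (hS : IsLim D F w γ₀ S S') : ColIneq (lm S w) w := by
  intro β _ _ _ γ hγ hb κ _ a ζ
  have hl : Tendsto (fun i => ∑ k, ∑ c, qn D w i (amp w β (a k) ζ c)) F.U
      (nhds (∑ k, ‖amp (lm S w) β (a k) ζ‖ ^ 2)) := by
    have e : ∑ k, ‖amp (lm S w) β (a k) ζ‖ ^ 2 = ∑ k, ∑ c, ‖S (amp w β (a k) ζ c)‖ ^ 2 :=
      Finset.sum_congr rfl fun k _ => amp_lm_norm S w (a k) ζ
    rw [e]
    exact tendsto_finsetSum _ fun k _ => tendsto_finsetSum _ fun c _ => hS.lim _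
  have main : ∀ ε : ℝ, 0 < ε → ∑ k, ‖amp (lm S w) β (a k) ζ‖ ^ 2 ≤
      3 * (γ * ‖ζ‖) ^ 2 * (2 * ‖∑ k, star (a k) * a k‖ + ε) := by
    intro ε hε
    refine le_of_tendsto hl ((eps_ev F hε (avd (∑ k, a k * star (a k)))).mono fun i hi => ?_)
    refine (col_stage h hτ D w hw β γ hγ hb κ a ζ i hi.1).trans ?_
    have := hi.2
    gcongr
  refine le_of_forall_pos_le_add fun δ hδ => ?_
  have hcc : 0 < 3 * (γ * ‖ζ‖) ^ 2 + 1 := by positivity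
  refine (main (δ / (3 * (γ * ‖ζ‖) ^ 2 + 1)) (by positivity)).trans ?_
  have h1 : 3 * (γ * ‖ζ‖) ^ 2 * (δ / (3 * (γ * ‖ζ‖) ^ 2 + 1)) ≤ δ := by
    rw [mul_div_assoc', div_le_iff₀ hcc]
    nlinarith [hδ]
  calc 3 * (γ * ‖ζ‖) ^ 2 * (2 * ‖∑ k, star (a k) * a k‖ + δ / (3 * (γ * ‖ζ‖) ^ 2 + 1))
      = 6 * γ ^ 2 * ‖∑ k, star (a k) * a k‖ * ‖ζ‖ ^ 2 +
        3 * (γ * ‖ζ‖) ^ 2 * (δ / (3 * (γ * ‖ζ‖) ^ 2 + 1)) := by ring
    _ ≤ _ := by linarith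

theorem row_lim (h : St_gt.{0, 0}) (hτ : IsTracialState τ) (D : AvData τ) (F : Uf B)
    {w : B →ₗ[ℂ] (K →L[ℂ] K)} (hw : IsHom w) {γ₀ : ℝ} {S S' : K →L[ℂ] K}
    (hS : IsLim D F w γ₀ S S') (β : Type) [Fintype β] [DecidableEq β] [Nonempty β] (γ : ℝ)
    (hγ : 0 ≤ γ) (hb : ∀ Y : CStarMatrix β β B, ‖amp w β Y‖ ≤ γ * ‖Y‖) (κ : Type) [Fintype κ]
    (a : κ → CStarMatrix β β B) (ξ : κ → HH β K) :
    ‖∑ k, amp w β (a k) (ξ k)‖ ^ 2 ≤ 6 * γ ^ 2 * ‖∑ k, a k * star (a k)‖ *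
      ∑ k, ∑ c, ‖S (ξ k c)‖ ^ 2 := by
  set Q : ℝ := ∑ k, ∑ c, ‖S (ξ k c)‖ ^ 2 with hQ
  have hQ0 : 0 ≤ Q := by positivity
  have main : ∀ ε : ℝ, 0 < ε → ‖∑ k, amp w β (a k) (ξ k)‖ ^ 2 ≤
      3 * γ ^ 2 * (2 * ‖∑ k, a k * star (a k)‖ + ε) * Q := by
    intro ε hε
    have hl : Tendsto (fun i => 3 * γ ^ 2 * (2 * ‖∑ k, a k * star (a k)‖ + ε) *
        ∑ k, ∑ c, qn D w i (ξ k c)) F.U
        (nhds (3 * γ ^ 2 * (2 * ‖∑ k, a k * star (a k)‖ + ε) * Q)) :=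
      (tendsto_finsetSum _ fun k _ => tendsto_finsetSum _ fun c _ => hS.lim _).const_mul _
    refine ge_of_tendsto hl ((eps_ev F hε (avd (∑ k, star (a k) * a k))).mono fun i hi => ?_)
    refine (row_stage h hτ D w hw β γ hγ hb κ a ξ i hi.1).trans ?_
    have h1 := hi.2
    have h2 : 0 ≤ ∑ k, ∑ c, qn D w i (ξ k c) :=
      Finset.sum_nonneg fun k _ => Finset.sum_nonneg fun c _ => qn_nonneg _ _ _ _
    gcongr
  refine le_of_forall_pos_le_add fun δ hδ => ?_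
  have hcc : 0 < 3 * γ ^ 2 * Q + 1 := by positivity
  refine (main (δ / (3 * γ ^ 2 * Q + 1)) (by positivity)).trans ?_
  have h1 : 3 * γ ^ 2 * Q * (δ / (3 * γ ^ 2 * Q + 1)) ≤ δ := by
    rw [mul_div_assoc', div_le_iff₀ hcc]
    nlinarith [hδ]
  calc 3 * γ ^ 2 * (2 * ‖∑ k, a k * star (a k)‖ + δ / (3 * γ ^ 2 * Q + 1)) * Q
      = 6 * γ ^ 2 * ‖∑ k, a k * star (a k)‖ * Q +
        3 * γ ^ 2 * Q * (δ / (3 * γ ^ 2 * Q + 1)) := by ring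
    _ ≤ _ := by linarith

/-- The dual norm of the limit norm of `w` is at most the limit norm of the adjoint
homomorphism. -/
theorem dual_le (D : AvData τ) (F : Uf B) {w : B →ₗ[ℂ] (K →L[ℂ] K)} (hw : IsHom w)
    {γ₀ γ₁ : ℝ} {S S' R R' : K →L[ℂ] K} (hS : IsLim D F w γ₀ S S')
    (hR : IsLim D F (vmap w) γ₁ R R') (ψ : K) : ‖S' ψ‖ ≤ ‖R ψ‖ := by
  have h1 : ∀ (ξ : K) (i : Finset B × ℕ), ‖⟪ψ, ξ⟫_ℂ‖ ^ 2 ≤ qn D (vmap w) i ψ * qn D w i ξ := by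
    intro ξ i
    have hN : (0 : ℝ) < (D.N i : ℝ) + 1 := by positivity
    have h2 : ((D.N i : ℝ) + 1) * ‖⟪ψ, ξ⟫_ℂ‖ ≤
        ∑ k, ‖vmap w (D.b i k) ψ‖ * ‖w (D.b i k) ξ‖ := by
      calc ((D.N i : ℝ) + 1) * ‖⟪ψ, ξ⟫_ℂ‖ = ∑ _k : Fin (D.N i + 1), ‖⟪ψ, ξ⟫_ℂ‖ := by
            rw [Finset.sum_const, Finset.card_univ, Fintype.card_fin, nsmul_eq_mul]
            push_cast
            ring
        _ ≤ _ := by
            refine Finset.sum_le_sum fun k _ => ?_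
            have e : ⟪ψ, ξ⟫_ℂ = ⟪vmap w (D.b i k) ψ, w (D.b i k) ξ⟫_ℂ := by
              rw [vmap_apply, ContinuousLinearMap.star_eq_adjoint,
                ContinuousLinearMap.adjoint_inner_left, ← mul_apply_eq_comp, ← hw.mul,
                Unitary.coe_star_mul_self, hw.one]
              rfl
            rw [e]
            exact norm_inner_le_norm _ _
    have h3 : (((D.N i : ℝ) + 1) * ‖⟪ψ, ξ⟫_ℂ‖) ^ 2 ≤
        (∑ k, ‖vmap w (D.b i k) ψ‖ ^ 2) * ∑ k, ‖w (D.b i k) ξ‖ ^ 2 :=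
      (pow_le_pow_left₀ (by positivity) h2 2).trans (Finset.sum_mul_sq_le_sq_mul_sq _ _ _)
    unfold qn
    have h4 : ((D.N i : ℝ) + 1)⁻¹ * (∑ k, ‖vmap w (D.b i k) ψ‖ ^ 2) *
        (((D.N i : ℝ) + 1)⁻¹ * ∑ k, ‖w (D.b i k) ξ‖ ^ 2) = (((D.N i : ℝ) + 1) ^ 2)⁻¹ *
        ((∑ k, ‖vmap w (D.b i k) ψ‖ ^ 2) * ∑ k, ‖w (D.b i k) ξ‖ ^ 2) := by
      rw [sq, mul_inv]
      ring
    rw [h4, le_inv_mul_iff₀ (by positivity)]
    calc ((D.N i : ℝ) + 1) ^ 2 * ‖⟪ψ, ξ⟫_ℂ‖ ^ 2 = (((D.N i : ℝ) + 1) * ‖⟪ψ, ξ⟫_ℂ‖) ^ 2 := by ring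
      _ ≤ _ := h3
  have h2 : ∀ ξ : K, ‖⟪ψ, ξ⟫_ℂ‖ ^ 2 ≤ ‖R ψ‖ ^ 2 * ‖S ξ‖ ^ 2 := fun ξ =>
    ge_of_tendsto' ((hR.lim ψ).mul (hS.lim ξ)) fun i => h1 ξ i
  have h3 := h2 (S' (S' ψ))
  have e1 : ⟪ψ, S' (S' ψ)⟫_ℂ = ((‖S' ψ‖ ^ 2 : ℝ) : ℂ) := by
    have h := A25.inner_star_mul S' ψ
    rw [hS.sa'] at h
    rw [← inner_conj_symm]
    change conj ⟪(S' * S') ψ, ψ⟫_ℂ = _
    rw [h, Complex.conj_ofReal]
  have e2 : S (S' (S' ψ)) = S' ψ := by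
    have : (S * S') (S' ψ) = S' ψ := by rw [hS.r]; rfl
    exact this
  rw [e1, e2, Complex.norm_real, Real.norm_of_nonneg (by positivity)] at h3
  rcases eq_or_ne (‖S' ψ‖) 0 with h0 | h0
  · rw [h0]
    exact norm_nonneg _
  · have h4 : 0 < ‖S' ψ‖ ^ 2 := by positivity
    have h5 : ‖S' ψ‖ ^ 2 * ‖S' ψ‖ ^ 2 ≤ ‖R ψ‖ ^ 2 * ‖S' ψ‖ ^ 2 := by
      calc ‖S' ψ‖ ^ 2 * ‖S' ψ‖ ^ 2 = (‖S' ψ‖ ^ 2) ^ 2 := by ring
        _ ≤ _ := h3
    exact le_of_sq_le_sq (le_of_mul_le_mul_right h5 h4) (norm_nonneg _)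

/-- Level bounds of the adjoint homomorphism. -/
theorem vmap_lvl {w : B →ₗ[ℂ] (K →L[ℂ] K)} {β : Type} [Fintype β] [DecidableEq β] {γ : ℝ}
    (hb : ∀ Y : CStarMatrix β β B, ‖amp w β Y‖ ≤ γ * ‖Y‖) (Y : CStarMatrix β β B) :
    ‖amp (vmap w) β Y‖ ≤ γ * ‖Y‖ := by
  have hv := fun X => (prove3_vmap.{0, 0} B K w).1 β X
  have e1 : ‖amp (vmap w) β Y‖ = ‖amp w β (star Y)‖ := by
    rw [hv, ContinuousLinearMap.star_eq_adjoint]
    exact LinearIsometryEquiv.norm_map _ _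
  rw [e1]
  exact (hb _).trans (by rw [norm_star])

theorem vmap_vmap (w : B →ₗ[ℂ] (K →L[ℂ] K)) : vmap (vmap w) = w := by
  ext b ξ
  rw [vmap_apply, vmap_apply, star_star, star_star]

/-- Column inequality for the adjoint homomorphism in the dual norm. -/
theorem col_dual (h : St_gt.{0, 0}) (hτ : IsTracialState τ) (D : AvData τ) (F : Uf B)
    {w : B →ₗ[ℂ] (K →L[ℂ] K)} (hw : IsHom w) {γ₀ : ℝ} (hγ₀ : 0 < γ₀)
    (hwb : ∀ b, ‖w b‖ ≤ γ₀ * ‖b‖) {S S' : K →L[ℂ] K} (hS : IsLim D F w γ₀ S S') :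
    ColIneq (lm S' (vmap w)) (vmap w) := by
  intro β _ _ _ γ hγ hb κ _ a ζ
  obtain ⟨R, R', hR⟩ := exists_lim D F (vmap w) hw.vmap γ₀ hγ₀
    ((prove3_vmap.{0, 0} B K w).2.2 γ₀ hwb)
  refine le_trans (Finset.sum_le_sum fun k _ => ?_) (col_lim h hτ D F hw.vmap hR β γ hγ hb κ a ζ)
  rw [amp_lm_norm, amp_lm_norm]
  exact Finset.sum_le_sum fun i _ =>
    pow_le_pow_left₀ (norm_nonneg _) (dual_le D F hw hS hR _) 2

end lim

end Y268.Kad
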