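import Mathlib
import Pool.Agent.Y268.Kad.Avg2
import Pool.Agent.H862R2.Kad.Embed

/-!
The block inequality in the limit norm.
-/

open scoped ComplexOrder InnerProductSpace ComplexConjugate
open Finset Filter

noncomputable section

namespace Y268.Kad

open H759R2.Kad Block

variable {A : Type} [CStarAlgebra A] [PartialOrder A] [StarOrderedRing A] {τ : A →ₗ[ℂ] ℂ}
  {H : Type} [NormedAddCommGroup H] [InnerProductSpace ℂ H] [CompleteSpace H]

theorem block_stage (h1 : St_gt.{0, 0}) (hτ : IsTracialState τ) (D : AvData τ) (F : Uf A)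
    {w : A →ₗ[ℂ] (H →L[ℂ] H)} (hw : IsHom w) {γ₀ : ℝ} {S S' : H →L[ℂ] H}
    (hS : IsLim D F w γ₀ S S') (α β : Type) [Fintype α] [DecidableEq α] [Nonempty α] [Fintype β]
    [DecidableEq β] [Nonempty β] (γ : ℝ) (hγ : 0 ≤ γ)
    (hamp : ∀ Y : CStarMatrix β β A, ‖amp w β Y‖ ≤ γ * ‖Y‖)
    (X : CStarMatrix (α × β) (α × β) A) (ξ : HH (α × β) H) (i₀ : Finset A × ℕ)
    (hi₀ : avd (∑ i, blk (X * star X) i i) ∈ i₀.1) :
    ∑ p, qn D w i₀ (amp w (α × β) X ξ p) ≤ 18 * γ ^ 2 * (∑ p, ‖S (ξ p)‖ ^ 2) *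
      (‖X‖ ^ 2 + 1 / (Fintype.card β : ℝ) * (tr τ (α × β) (star X * X)).re +
        1 / ((i₀.2 : ℝ) + 1)) := by
  have hwb : IsHom (amp w β) := H294R2.Kad2.amp_isHom hw
  obtain ⟨a0⟩ := ‹Nonempty α›
  set Q : ℝ := ∑ p, ‖S (ξ p)‖ ^ 2 with hQ
  have hQ0 : 0 ≤ Q := by positivity
  have hQsec : ∑ j, ∑ c, ‖S (sec j ξ c)‖ ^ 2 = Q := by
    rw [hQ, Fintype.sum_prod_type]
    rfl
  set Mc : ℝ := √(6 * γ ^ 2 * Q) with hMc
  have hM0 : 0 ≤ Mc := Real.sqrt_nonneg _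
  have hM2 : Mc ^ 2 = 6 * γ ^ 2 * Q := Real.sq_sqrt (by positivity)
  -- the row bound
  have hrow : ∀ Z : CStarMatrix (α × β) (α × β) A, ‖rowMap w ξ a0 Z‖ ≤ Mc * ‖Z‖ := by
    intro Z
    have h := row_lim h1 hτ D F hw hS β γ hγ hamp α (fun j => blk Z a0 j) (fun j => sec j ξ)
    rw [hQsec] at h
    have h5 : ‖rowMap w ξ a0 Z‖ ^ 2 ≤ (Mc * ‖Z‖) ^ 2 := by
      rw [rowMap_apply, mul_pow, hM2]
      refine h.trans ?_
      have h6 := row_norm Z a0
      have h7 : 0 ≤ 6 * γ ^ 2 := by positivity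
      have h8 : 6 * γ ^ 2 * ‖∑ j, blk Z a0 j * star (blk Z a0 j)‖ ≤
          6 * γ ^ 2 * ‖Z‖ ^ 2 := mul_le_mul_of_nonneg_left h6 h7
      calc 6 * γ ^ 2 * ‖∑ j, blk Z a0 j * star (blk Z a0 j)‖ * Q
          ≤ 6 * γ ^ 2 * ‖Z‖ ^ 2 * Q := mul_le_mul_of_nonneg_right h8 hQ0
        _ = _ := by ring
    exact (pow_le_pow_iff_left₀ (norm_nonneg _) (by positivity) two_ne_zero).mp h5
  -- the averaged block
  set p : CStarMatrix β β A := ∑ i, blk (X * star X) i i with hp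
  set trX : ℝ := (tr τ (α × β) (star X * X)).re with htr
  set l : ℝ := (Fintype.card β : ℝ) with hl
  have hl0 : 0 < l := by
    rw [hl]
    exact_mod_cast Fintype.card_pos
  have htrX : tr τ (α × β) (star X * X) = ∑ q : α × β, ∑ r : α × β,
      τ (star (X r q) * X r q) := by
    rw [tr_apply]
    refine Finset.sum_congr rfl fun q _ => ?_
    rw [CStarMatrix.mul_apply, map_sum]
    exact Finset.sum_congr rfl fun r _ => by rw [CStarMatrix.star_apply]
  have htrX2 : tr τ (α × β) (X * star X) = tr τ (α × β) (star X * X) := by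
    rw [htrX, tr_apply, Finset.sum_comm]
    refine Finset.sum_congr rfl fun q _ => ?_
    rw [CStarMatrix.mul_apply, map_sum]
    refine Finset.sum_congr rfl fun r _ => ?_
    rw [CStarMatrix.star_apply, hτ.comm]
  have htr0 : 0 ≤ tr τ (α × β) (star X * X) := by
    rw [htrX]
    exact Finset.sum_nonneg fun q _ => Finset.sum_nonneg fun r _ => hτ.pos _
  have htr0' : 0 ≤ trX := (Complex.nonneg_iff.mp htr0).1
  have htrc : tr τ (α × β) (star X * X) = (trX : ℂ) := by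
    rw [htr]
    exact Complex.ext rfl (by simpa using (Complex.nonneg_iff.mp htr0).2.symm)
  have hntr : ntr τ β p = ((trX / l : ℝ) : ℂ) := by
    have e1 : tr τ β p = tr τ (α × β) (X * star X) := by
      rw [hp, map_sum, tr_apply, Fintype.sum_prod_type]
      refine Finset.sum_congr rfl fun i _ => ?_
      rw [tr_apply]
      rfl
    rw [ntr, LinearMap.smul_apply, e1, htrX2, htrc, smul_eq_mul]
    push_cast
    rw [hl]
    push_cast
    ring
  set ε : ℝ := 1 / ((i₀.2 : ℝ) + 1) with hε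
  have hε0 : 0 ≤ ε := by positivity
  obtain ⟨N, s, t, ht, hg'⟩ := dixF D β p i₀ hi₀
  set g : Fin (N + 1) → unitary (CStarMatrix β β A) := fun k =>
    ⟨tens (s k : Matrix β β ℂ) (D.b i₀ (t k) : A), tens_unitary (s k).2 (D.b i₀ (t k)).2⟩ with hgd
  have hg : ‖((N + 1 : ℂ))⁻¹ • ∑ k, (g k : CStarMatrix β β A) * p *
          star (g k : CStarMatrix β β A) - algebraMap ℂ (CStarMatrix β β A) (ntr τ β p)‖ ≤ ε := hg'
  have hN0 : (0 : ℝ) < (N : ℝ) + 1 := by positivity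
  -- norm of the sum of conjugates
  have hsum : ‖∑ k, (g k : CStarMatrix β β A) * p * star (g k : CStarMatrix β β A)‖ ≤
      (N + 1) * (trX / l + ε) := by
    have e1 : ‖((N + 1 : ℂ))⁻¹ • ∑ k, (g k : CStarMatrix β β A) * p *
        star (g k : CStarMatrix β β A)‖ ≤ trX / l + ε := by
      have e2 : ‖algebraMap ℂ (CStarMatrix β β A) (ntr τ β p)‖ ≤ trX / l := by
        rw [hntr, norm_algebraMap]
        have e3 : ‖((trX / l : ℝ) : ℂ)‖ = trX / l := by
          rw [Complex.norm_real, Real.norm_of_nonneg (by positivity)]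
        rw [e3]
        have e4 := norm_one_le (CStarMatrix β β A)
        have e5 : 0 ≤ trX / l := by positivity
        nlinarith
      calc ‖((N + 1 : ℂ))⁻¹ • ∑ k, (g k : CStarMatrix β β A) * p *
          star (g k : CStarMatrix β β A)‖ = ‖(((N + 1 : ℂ))⁻¹ • ∑ k,
            (g k : CStarMatrix β β A) * p * star (g k : CStarMatrix β β A) -
            algebraMap ℂ (CStarMatrix β β A) (ntr τ β p)) +
            algebraMap ℂ (CStarMatrix β β A) (ntr τ β p)‖ := by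
            rw [sub_add_cancel]
        _ ≤ _ + _ := norm_add_le _ _
        _ ≤ ε + trX / l := add_le_add hg e2
        _ = _ := by ring
    rw [norm_smul, norm_inv] at e1
    have e6 : ‖(N + 1 : ℂ)‖ = (N : ℝ) + 1 := by
      have : (N + 1 : ℂ) = (((N : ℝ) + 1 : ℝ) : ℂ) := by push_cast; ring
      rw [this, Complex.norm_real, Real.norm_of_nonneg hN0.le]
    rw [e6, inv_mul_le_iff₀ hN0] at e1
    exact e1
  -- the family
  set x : α × Fin (N + 1) → CStarMatrix (α × β) (α × β) A :=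
    fun q => put a0 q.1 (g q.2 : CStarMatrix β β A) * X with hx
  have e6 : ‖(N + 1 : ℂ)‖ = (N : ℝ) + 1 := by
    have : (N + 1 : ℂ) = (((N : ℝ) + 1 : ℝ) : ℂ) := by push_cast; ring
    rw [this, Complex.norm_real, Real.norm_of_nonneg hN0.le]
  have hcol : ∑ q, star (x q) * x q = (N + 1 : ℂ) • (star X * X) := by
    have e1 : ∀ q, star (x q) * x q = star X * put q.1 q.1 (1 : CStarMatrix β β A) * X := by
      intro q
      rw [hx]
      simp only [star_mul, put_star]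
      have e2 : star X * put q.1 a0 (star (g q.2 : CStarMatrix β β A)) *
          (put a0 q.1 (g q.2 : CStarMatrix β β A) * X) =
          star X * (put q.1 a0 (star (g q.2 : CStarMatrix β β A)) *
            put a0 q.1 (g q.2 : CStarMatrix β β A)) * X := by
        simp only [mul_assoc]
      rw [e2, put_mul_put, Unitary.coe_star_mul_self]
    simp only [e1]
    rw [Fintype.sum_prod_type]
    simp only [Finset.sum_const, Finset.card_univ, Fintype.card_fin]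
    rw [← Finset.smul_sum, ← Finset.sum_mul, ← Finset.mul_sum, sum_put_one, mul_one]
    rw [← Nat.cast_smul_eq_nsmul ℂ]
    push_cast
    rfl
  have hcoln : ‖∑ q, star (x q) * x q‖ = ((N : ℝ) + 1) * ‖X‖ ^ 2 := by
    rw [hcol, norm_smul, e6, CStarRing.norm_star_mul_self, sq]
  have hroww : ∑ q, x q * star (x q) = put a0 a0 (∑ k, (g k : CStarMatrix β β A) * p *
      star (g k : CStarMatrix β β A)) := by
    have e1 : ∀ q, x q * star (x q) = put a0 a0 ((g q.2 : CStarMatrix β β A) *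
        blk (X * star X) q.1 q.1 * star (g q.2 : CStarMatrix β β A)) := by
      intro q
      rw [hx]
      simp only [star_mul, put_star]
      rw [← put_mul_mul_put]
      simp only [mul_assoc]
    simp only [e1]
    have e2 : ∀ f : α × Fin (N + 1) → CStarMatrix β β A,
        ∑ q, put a0 a0 (f q) = put a0 a0 (∑ q, f q) := fun f =>
      (map_sum (putHom (A := A) (β := β) a0) f Finset.univ).symm
    rw [e2 (fun q => (g q.2 : CStarMatrix β β A) *
        blk (X * star X) q.1 q.1 * star (g q.2 : CStarMatrix β β A))]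
    congr 1
    rw [Fintype.sum_prod_type, Finset.sum_comm]
    refine Finset.sum_congr rfl fun k _ => ?_
    rw [hp, Finset.mul_sum, Finset.sum_mul]
  have hrown : ‖∑ q, x q * star (x q)‖ ≤ ((N : ℝ) + 1) * (trX / l + ε) := by
    rw [hroww, norm_put]
    exact hsum
  -- little Grothendieck
  have hgt := h1 (CStarMatrix (α × β) (α × β) A) (HH β H) (rowMap w ξ a0) Mc hM0 hrow
    (α × Fin (N + 1)) x
  have hgt2 : ∑ q, ‖rowMap w ξ a0 (x q)‖ ^ 2 ≤ 18 * γ ^ 2 * Q *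
      (((N : ℝ) + 1) * (‖X‖ ^ 2 + (trX / l + ε))) := by
    refine hgt.trans ?_
    rw [hM2, hcoln]
    have h0 : 0 ≤ 3 * (6 * γ ^ 2 * Q) := by positivity
    calc 3 * (6 * γ ^ 2 * Q) * (((N : ℝ) + 1) * ‖X‖ ^ 2 + ‖∑ q, x q * star (x q)‖)
        ≤ 3 * (6 * γ ^ 2 * Q) * (((N : ℝ) + 1) * ‖X‖ ^ 2 +
          ((N : ℝ) + 1) * (trX / l + ε)) :=
          mul_le_mul_of_nonneg_left (by linarith) h0
      _ = _ := by ring
  -- the left side
  have hleft : ∑ q, ‖rowMap w ξ a0 (x q)‖ ^ 2 = ((N : ℝ) + 1) *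
      ∑ p, qn D w i₀ (amp w (α × β) X ξ p) := by
    rw [Fintype.sum_prod_type, Fintype.sum_prod_type, Finset.mul_sum]
    refine Finset.sum_congr rfl fun j _ => ?_
    have e1 : ∀ k : Fin (N + 1), rowMap w ξ a0 (x (j, k)) =
        amp w β (tens (s k : Matrix β β ℂ) (D.b i₀ (t k) : A)) (sec j (amp w (α × β) X ξ)) := by
      intro k
      rw [rowMap_apply, sec_amp, map_sum]
      refine Finset.sum_congr rfl fun j' _ => ?_
      rw [hx]
      simp only
      rw [blk_put_mul, hwb.mul]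
      rfl
    simp only [e1]
    rw [sum_tens D w i₀ s t ht]
    rfl
  rw [hleft] at hgt2
  have hfin : ((N : ℝ) + 1) * ∑ p, qn D w i₀ (amp w (α × β) X ξ p) ≤ ((N : ℝ) + 1) *
      (18 * γ ^ 2 * Q * (‖X‖ ^ 2 + 1 / l * trX + ε)) := by
    refine hgt2.trans (le_of_eq ?_)
    ring
  exact le_of_mul_le_mul_left hfin hN0

/-- Conjugation by the limit norm. -/
def cj (S S' : H →L[ℂ] H) (w : A →ₗ[ℂ] (H →L[ℂ] H)) : A →ₗ[ℂ] (H →L[ℂ] H) where
  toFun b := S * w b * S'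
  map_add' a b := by rw [map_add, mul_add, add_mul]
  map_smul' r a := by rw [map_smul, mul_smul_comm, smul_mul_assoc, RingHom.id_apply]

omit [CompleteSpace H] [PartialOrder A] [StarOrderedRing A] in
theorem cj_apply (S S' : H →L[ℂ] H) (w : A →ₗ[ℂ] (H →L[ℂ] H)) (b : A) :
    cj S S' w b = S * w b * S' := rfl

omit [CompleteSpace H] [PartialOrder A] [StarOrderedRing A] in
theorem cj_hom {S S' : H →L[ℂ] H} (h1 : S * S' = 1) (h2 : S' * S = 1)
    {w : A →ₗ[ℂ] (H →L[ℂ] H)} (hw : IsHom w) : IsHom (cj S S' w) := by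
  refine ⟨fun X Y => ?_, ?_⟩
  · rw [cj_apply, cj_apply, cj_apply, hw.mul]
    calc S * (w X * w Y) * S' = S * w X * 1 * w Y * S' := by simp only [mul_assoc, one_mul]
      _ = S * w X * (S' * S) * w Y * S' := by rw [h2]
      _ = _ := by simp only [mul_assoc]
  · rw [cj_apply, hw.one, mul_one, h1]

/-- Coordinatewise application of an operator. -/
def dgo (S : H →L[ℂ] H) (ι : Type) [Fintype ι] (v : HH ι H) : HH ι H :=
  WithLp.toLp 2 fun i => S (v i)

omit [CompleteSpace H] in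
theorem dgo_apply (S : H →L[ℂ] H) {ι : Type} [Fintype ι] (v : HH ι H) (i : ι) :
    dgo S ι v i = S (v i) := rfl

omit [CompleteSpace H] [PartialOrder A] [StarOrderedRing A] in
theorem amp_cj (S S' : H →L[ℂ] H) (w : A →ₗ[ℂ] (H →L[ℂ] H)) {ι : Type} [Fintype ι]
    (X : CStarMatrix ι ι A) (v : HH ι H) (i : ι) :
    amp (cj S S' w) ι X v i = S (amp w ι X (dgo S' ι v) i) := by
  rw [amp_apply, amp_apply, map_sum]
  rfl

/-- The block inequality holds without loss in the limit norm. -/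
def BlockIneq (v : A →ₗ[ℂ] (H →L[ℂ] H)) (τ : A →ₗ[ℂ] ℂ) (w : A →ₗ[ℂ] (H →L[ℂ] H)) : Prop :=
  ∀ (α β : Type) [Fintype α] [DecidableEq α] [Nonempty α] [Fintype β] [DecidableEq β]
      [Nonempty β] (γ : ℝ), 0 ≤ γ → (∀ Y : CStarMatrix β β A, ‖amp w β Y‖ ≤ γ * ‖Y‖) →
      ∀ (X : CStarMatrix (α × β) (α × β) A) (ξ : HH (α × β) H),
        ‖amp v (α × β) X ξ‖ ^ 2 ≤ 18 * γ ^ 2 * ‖ξ‖ ^ 2 *
          (‖X‖ ^ 2 + 1 / (Fintype.card β : ℝ) * (tr τ (α × β) (star X * X)).re)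

theorem block_lim (h1 : St_gt.{0, 0}) (hτ : IsTracialState τ) (D : AvData τ) (F : Uf A)
    {w : A →ₗ[ℂ] (H →L[ℂ] H)} (hw : IsHom w) {γ₀ : ℝ} {S S' : H →L[ℂ] H}
    (hS : IsLim D F w γ₀ S S') : BlockIneq (cj S S' w) τ w := by
  intro α β _ _ _ _ _ _ γ hγ hamp X ξ
  set ξ' : HH (α × β) H := dgo S' (α × β) ξ with hξ'
  have hQ : ∑ p, ‖S (ξ' p)‖ ^ 2 = ‖ξ‖ ^ 2 := by
    rw [PiLp.norm_sq_eq_of_L2]
    refine Finset.sum_congr rfl fun p _ => ?_
    have : (S * S') (ξ p) = ξ p := by rw [hS.r]; rfl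
    rw [hξ', dgo_apply]
    change ‖(S * S') (ξ p)‖ ^ 2 = _
    rw [this]
  have hl : Tendsto (fun i => ∑ p, qn D w i (amp w (α × β) X ξ' p)) F.U
      (nhds (‖amp (cj S S' w) (α × β) X ξ‖ ^ 2)) := by
    have e : ‖amp (cj S S' w) (α × β) X ξ‖ ^ 2 = ∑ p, ‖S (amp w (α × β) X ξ' p)‖ ^ 2 := by
      rw [PiLp.norm_sq_eq_of_L2]
      exact Finset.sum_congr rfl fun p _ => by rw [amp_cj]
    rw [e]
    exact tendsto_finsetSum _ fun p _ => hS.lim _
  set R : ℝ := ‖X‖ ^ 2 + 1 / (Fintype.card β : ℝ) * (tr τ (α × β) (star X * X)).re with hR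
  have main : ∀ ε : ℝ, 0 < ε → ‖amp (cj S S' w) (α × β) X ξ‖ ^ 2 ≤
      18 * γ ^ 2 * ‖ξ‖ ^ 2 * (R + ε) := by
    intro ε hε
    refine le_of_tendsto hl ((eps_ev F hε (avd (∑ i, blk (X * star X) i i))).mono
      fun i hi => ?_)
    refine (block_stage h1 hτ D F hw hS α β γ hγ hamp X ξ' i hi.1).trans ?_
    rw [hQ]
    have := hi.2
    gcongr
  refine le_of_forall_pos_le_add fun δ hδ => ?_
  have hcc : 0 < 18 * γ ^ 2 * ‖ξ‖ ^ 2 + 1 := by positivity
  refine (main (δ / (18 * γ ^ 2 * ‖ξ‖ ^ 2 + 1)) (by positivity)).trans ?_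
  have h2 : 18 * γ ^ 2 * ‖ξ‖ ^ 2 * (δ / (18 * γ ^ 2 * ‖ξ‖ ^ 2 + 1)) ≤ δ := by
    rw [mul_div_assoc', div_le_iff₀ hcc]
    nlinarith [hδ]
  calc 18 * γ ^ 2 * ‖ξ‖ ^ 2 * (R + δ / (18 * γ ^ 2 * ‖ξ‖ ^ 2 + 1))
      = 18 * γ ^ 2 * ‖ξ‖ ^ 2 * R +
        18 * γ ^ 2 * ‖ξ‖ ^ 2 * (δ / (18 * γ ^ 2 * ‖ξ‖ ^ 2 + 1)) := by ring
    _ ≤ _ := by linarith

end Y268.Kad
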