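import Mathlib
import Pool.Agent.Y268.Kad.Avg3
import Pool.Agent.H226R2.Kad3.Wcol
import Pool.Agent.H847R2.Kad3.Generic
import Pool.Agent.H216R2.Kad3.Level

/-!
The bound for the random vectors, from the column inequality.
-/

open scoped ComplexOrder InnerProductSpace ComplexConjugate
open Finset

noncomputable section

namespace Y268.Kad

open H759R2.Kad

variable {B : Type} [CStarAlgebra B] [PartialOrder B] [StarOrderedRing B]
  {K : Type} [NormedAddCommGroup K] [InnerProductSpace ℂ K] [CompleteSpace K]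

open A20 Embed in
/-- The weighted column inequality. -/
theorem wcol {v w : B →ₗ[ℂ] (K →L[ℂ] K)} (hc : ColIneq v w) (γ : ℝ) (hγ : 0 ≤ γ) (L : ℕ)
    (hL : LvlBd w L γ) (ι : Type) [Fintype ι] [DecidableEq ι] (M : Finset ι) (hM : M.card ≤ L)
    (κ : Type) [Fintype κ] (Z : κ → CStarMatrix ι ι B)
    (hZ : ∀ k i j, j ∉ M → Z k i j = 0) (lam : ι → ℝ) (ε : ℝ) (hlam : ∀ j, 0 ≤ lam j)
    (hε : 0 < ε)
    (hn : ‖∑ k, star (Z k) * Z k - dgc B (fun j => if j ∈ M then lam j else 0)‖ ≤ ε)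
    (θ : HH ι K) :
    ∑ k, ‖amp v ι (Z k) θ‖ ^ 2 ≤ 6 * γ ^ 2 * ∑ j ∈ M, (lam j + ε) * ‖θ j‖ ^ 2 := by
  rcases M.eq_empty_or_nonempty with hM0 | hM0
  · subst hM0
    have hz : ∀ k, Z k = 0 := by
      intro k
      ext i j
      exact hZ k i j (by simp)
    simp [hz]
  obtain ⟨j00, hj00⟩ := hM0
  let ι' := {x // x ∈ M}
  let j0 : ι' := ⟨j00, hj00⟩
  have : Nonempty ι' := ⟨j0⟩
  have hlev : ∀ Y : CStarMatrix ι' ι' B, ‖amp w ι' Y‖ ≤ γ * ‖Y‖ :=
    prove3_level.{0, 0} B K w L γ hγ hL ι' (by rw [Fintype.card_coe]; exact hM)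
  -- the weights
  let s : ι → ℝ := fun j => (Real.sqrt (lam j + ε))⁻¹
  let r : ι → ℝ := fun j => Real.sqrt (lam j + ε)
  have hrs : ∀ j, s j * r j = 1 := fun j => by
    have h5 : 0 < lam j + ε := by linarith [hlam j]
    exact inv_mul_cancel₀ (Real.sqrt_pos.2 h5).ne'
  let a : κ × ι → CStarMatrix ι' ι' B := fun q => CStarMatrix.ofMatrix fun i' j' =>
    if i' = j0 then (s j' : ℂ) • Z q.1 q.2 j' else 0
  have ha : ∀ q i' j', a q i' j' = if i' = j0 then (s j' : ℂ) • Z q.1 q.2 j' else 0 :=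
    fun q i' j' => rfl
  let ζ : HH ι' K := WithLp.toLp 2 fun j' => (r j' : ℂ) • θ j'
  have hζ : ∀ j', ζ j' = (r j' : ℂ) • θ j' := fun j' => rfl
  have hcol := hc ι' γ hγ hlev (κ × ι) a ζ
  -- the left side
  have hleft : ∑ q, ‖amp v ι' (a q) ζ‖ ^ 2 = ∑ k, ‖amp v ι (Z k) θ‖ ^ 2 := by
    rw [Fintype.sum_prod_type]
    refine Finset.sum_congr rfl fun k _ => ?_
    rw [PiLp.norm_sq_eq_of_L2]
    refine Finset.sum_congr rfl fun i _ => ?_
    rw [PiLp.norm_sq_eq_of_L2, Finset.sum_eq_single j0]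
    · rw [amp_apply, amp_apply]
      congr 2
      have e1 : ∑ j : ι, v (Z k i j) (θ j) = ∑ j ∈ M, v (Z k i j) (θ j) := by
        symm
        apply Finset.sum_subset (Finset.subset_univ _)
        intro j _ hj
        rw [hZ k i j hj, map_zero]
        rfl
      rw [e1, ← Finset.sum_coe_sort M]
      refine Finset.sum_congr rfl fun j _ => ?_
      rw [ha, if_pos rfl, hζ, map_smul, map_smul, smul_apply, smul_smul]
      have : (r (j : ι) : ℂ) * (s (j : ι) : ℂ) = 1 := by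
        rw [mul_comm, ← Complex.ofReal_mul, hrs, Complex.ofReal_one]
      rw [this, one_smul]
    · intro b _ hb
      rw [amp_apply]
      have : ∑ j, v (a (k, i) b j) (ζ j) = 0 := by
        refine Finset.sum_eq_zero fun j _ => ?_
        rw [ha, if_neg hb, map_zero]
        rfl
      rw [this]
      simp
    · intro h
      exact absurd (mem_univ _) h
  -- the norm of `ζ`
  have hζn : ‖ζ‖ ^ 2 = ∑ j ∈ M, (lam j + ε) * ‖θ j‖ ^ 2 := by
    rw [PiLp.norm_sq_eq_of_L2, ← Finset.sum_coe_sort M]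
    refine Finset.sum_congr rfl fun j _ => ?_
    rw [hζ, norm_smul, mul_pow, Complex.norm_real, Real.norm_eq_abs, sq_abs]
    have h5 : 0 < lam (j : ι) + ε := by linarith [hlam j]
    rw [Real.sq_sqrt h5.le]
  -- the Gram matrix
  let e : ι' ↪ ι := Function.Embedding.subtype (fun x => x ∈ M)
  have he : ∀ j : ι', e j = j := fun j => rfl
  have hrange : ∀ i : ι, i ∉ Set.range e → i ∉ M := by
    intro i hi hiM
    exact hi ⟨⟨i, hiM⟩, rfl⟩
  set P : CStarMatrix ι ι B := ∑ k, star (Z k) * Z k with hP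
  have hPapp : ∀ i j, P i j = ∑ k, ∑ l, star (Z k l i) * Z k l j := by
    intro i j
    rw [hP, sumapp]
    refine Finset.sum_congr rfl fun k _ => ?_
    rw [CStarMatrix.mul_apply]
    refine Finset.sum_congr rfl fun l _ => ?_
    rw [CStarMatrix.star_apply]
  set W : CStarMatrix ι ι B := dgc B (fun j => if j ∈ M then (Real.sqrt (lam j + ε))⁻¹ else 0)
    with hWd
  have hWPW : ∀ i j, (W * P * W) i j = (((if i ∈ M then s i else 0) *
      (if j ∈ M then s j else 0) : ℝ) : ℂ) • P i j := by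
    intro i j
    rw [CStarMatrix.mul_apply, Finset.sum_eq_single j]
    · rw [CStarMatrix.mul_apply, Finset.sum_eq_single i]
      · rw [hWd, dgc_apply, dgc_apply, if_pos rfl, if_pos rfl, Algebra.algebraMap_eq_smul_one,
          Algebra.algebraMap_eq_smul_one, smul_mul_assoc, one_mul, mul_smul_comm, mul_one,
          smul_smul]
        congr 1
        push_cast
        rw [mul_comm]
      · intro b _ hb
        rw [hWd, dgc_apply, if_neg (Ne.symm hb), zero_mul]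
      · intro h
        exact absurd (mem_univ _) h
    · intro b _ hb
      rw [hWd, dgc_apply, if_neg hb, mul_zero]
    · intro h
      exact absurd (mem_univ _) h
  have hex : exH e (∑ q, star (a q) * a q) = W * P * W := by
    rw [exH_apply]
    refine exM_ext e _ _ (fun i j => ?_) (fun i j hi => ?_) (fun i j hj => ?_)
    · rw [hWPW, he, he, hPapp, sumapp, Fintype.sum_prod_type, Finset.smul_sum]
      simp only [i.2, j.2, if_true]
      refine Finset.sum_congr rfl fun k _ => ?_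
      rw [Finset.smul_sum]
      refine Finset.sum_congr rfl fun l _ => ?_
      rw [CStarMatrix.mul_apply, Finset.sum_eq_single j0]
      · rw [CStarMatrix.star_apply, ha, ha, if_pos rfl, if_pos rfl, star_smul, smul_mul_smul_comm]
        congr 1
        push_cast
        congr 1
        exact (Complex.conj_ofReal _).symm
      · intro b _ hb
        rw [ha (k, l) b j, if_neg hb, mul_zero]
      · intro h
        exact absurd (mem_univ _) h
    · rw [hWPW, if_neg (hrange i hi), zero_mul]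
      simp
    · rw [hWPW, if_neg (hrange j hj), mul_zero]
      simp
  have hinj : Function.Injective (exH e : CStarMatrix ι' ι' B →⋆ₙₐ[ℂ] CStarMatrix ι ι B) := by
    intro X Y hXY
    ext i j
    have := congrArg (fun T : CStarMatrix ι ι B => T (e i) (e j)) hXY
    simpa [exH_apply, exM_apply] using this
  have hnorm : ‖∑ q, star (a q) * a q‖ ≤ 1 := by
    rw [← NonUnitalStarAlgHom.norm_map (exH e) hinj, hex]
    refine weights M P ?_ lam ε hlam hε hn
    exact Finset.sum_nonneg fun k _ => star_mul_self_nonneg _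
  rw [hleft, hζn] at hcol
  refine hcol.trans ?_
  have h0 : 0 ≤ ∑ j ∈ M, (lam j + ε) * ‖θ j‖ ^ 2 :=
    Finset.sum_nonneg fun j _ => mul_nonneg (by linarith [hlam j]) (by positivity)
  refine mul_le_mul_of_nonneg_right ?_ h0
  have h6 : 0 ≤ 6 * γ ^ 2 := by positivity
  nlinarith

section steps

open A21

variable {n : ℕ}

theorem step1 {v w : B →ₗ[ℂ] (K →L[ℂ] K)} (hc : ColIneq v w) (γ : ℝ) (hγ : 0 ≤ γ)
    (L : ℕ) (hL : LvlBd w L γ) (R k : ℕ) (hk : k + 1 ≤ L)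
    (hR : k + 1 < R) (Ω : Type) [Fintype Ω] [Nonempty Ω] (G : Ω → Fin n → unitary B)
    (x y : CStarMatrix (Fin n) (Fin n) B) (hy : y ∈ unitary (CStarMatrix (Fin n) (Fin n) B))
    (ε : ℝ) (hε : 0 < ε) (lam : Fin n → ℝ) (hlam : ∀ j, 0 ≤ lam j)
    (M : Finset (Fin n)) (hM : M.card = k + 1)
    (hG : ‖fav Ω (fun s => star (Yf x (G s) R k (ind R M)) * Yf x (G s) R k (ind R M)) -
        dgc B (fun j => if j ∈ M then lam j else 0)‖ ≤ ε) (θ : HH (Fin n) K) :
    ∑ s, ‖amp v (Fin n) (y * Yf x (G s) R k (ind R M)) θ‖ ^ 2 ≤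
      (Fintype.card Ω : ℝ) * (6 * γ ^ 2 * ∑ j ∈ M, (lam j + ε) * ‖θ j‖ ^ 2) := by
  have hN : (0 : ℝ) < Fintype.card Ω := by exact_mod_cast Fintype.card_pos
  have h := wcol hc γ hγ L hL (Fin n) M (by omega) Ω
    (fun s => (((Real.sqrt (Fintype.card Ω : ℕ))⁻¹ : ℝ) : ℂ) •
      (y * Yf x (G s) R k (ind R M)))
    (by
      intro s i j hj
      rw [CStarMatrix.smul_apply, CStarMatrix.mul_apply, Finset.sum_eq_zero, smul_zero]
      intro l _
      rw [Yf_col x (G s) R k hR M l j hj, mul_zero])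
    lam ε hlam hε
    (by
      have e : ∑ s, star ((((Real.sqrt (Fintype.card Ω : ℕ))⁻¹ : ℝ) : ℂ) •
          (y * Yf x (G s) R k (ind R M))) * ((((Real.sqrt (Fintype.card Ω : ℕ))⁻¹ : ℝ) : ℂ) •
          (y * Yf x (G s) R k (ind R M))) =
          fav Ω (fun s => star (Yf x (G s) R k (ind R M)) * Yf x (G s) R k (ind R M)) := by
        unfold fav
        rw [Finset.smul_sum]
        exact Finset.sum_congr rfl fun s _ => star_smul_mul _ _ _ hy
      rw [e]
      exact hG)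
    θ
  simp only [amp_smul_norm_sq] at h
  rw [← Finset.mul_sum, inv_mul_le_iff₀ hN] at h
  exact h

theorem step2 (h4 : K_fourier.{0}) {v w : B →ₗ[ℂ] (K →L[ℂ] K)} (hc : ColIneq v w)
    (γn : ℝ) (hγn : 0 ≤ γn) (hn : 0 < n) (hLn : LvlBd w n γn) (R k : ℕ) [NeZero R]
    (hR : k + 1 < R) (Ω : Type) [Fintype Ω] [Nonempty Ω] (G : Ω → Fin n → unitary B)
    (x y : CStarMatrix (Fin n) (Fin n) B) (hx : x ∈ unitary (CStarMatrix (Fin n) (Fin n) B))
    (hy : y ∈ unitary (CStarMatrix (Fin n) (Fin n) B))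
    (ε κ : ℝ) (hε : 0 < ε) (hκ : 0 ≤ κ) (lam : Finset (Fin n) → Fin n → ℝ)
    (hG2 : ∀ M : Finset (Fin n), M.card = k + 1 →
      ‖fav Ω (fun s => star (Yf x (G s) R k (ind R M)) * Yf x (G s) R k (ind R M)) -
        dgc B (fun j => if j ∈ M then lam M j else 0)‖ ≤ ε)
    (hG3 : ∀ j, ∑ M ∈ univ.filter (fun M : Finset (Fin n) => M.card = k + 1 ∧ j ∈ M),
      lam M j ≤ 1)
    (hG4 : ∀ j, 1 - κ ≤ ∑ M ∈ univ.filter
      (fun M : Finset (Fin n) => M.card = k + 1 ∧ j ∈ M), lam M j)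
    (θ : HH (Fin n) K) :
    ∑ s, ∑ f ∈ univ.filter (fun f => f ∉ Ss n k R),
      ‖amp v (Fin n) (y * Yf x (G s) R k f) θ‖ ^ 2 ≤
      (Fintype.card Ω : ℝ) * (6 * γn ^ 2 * (κ + (n : ℝ) ^ (k + 1) * ε) * ‖θ‖ ^ 2) := by
  have hN : (0 : ℝ) < Fintype.card Ω := by exact_mod_cast Fintype.card_pos
  have : Nonempty (Fin n) := ⟨⟨0, hn⟩⟩
  have hcol := (hc (Fin n) γn hγn hLn (Ω × (Fin n → ZMod R))
    (fun p => if p.2 ∈ Ss n k R then 0 else
      (((Real.sqrt (Fintype.card Ω : ℕ))⁻¹ : ℝ) : ℂ) • (y * Yf x (G p.1) R k p.2)) θ)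
  have eL : ∑ p : Ω × (Fin n → ZMod R), ‖amp v (Fin n) (if p.2 ∈ Ss n k R then 0 else
      (((Real.sqrt (Fintype.card Ω : ℕ))⁻¹ : ℝ) : ℂ) • (y * Yf x (G p.1) R k p.2)) θ‖ ^ 2 =
      (Fintype.card Ω : ℝ)⁻¹ * ∑ s, ∑ f ∈ univ.filter (fun f => f ∉ Ss n k R),
      ‖amp v (Fin n) (y * Yf x (G s) R k f) θ‖ ^ 2 := by
    rw [Fintype.sum_prod_type, Finset.mul_sum]
    refine Finset.sum_congr rfl fun s _ => ?_
    rw [Finset.mul_sum, Finset.sum_filter]
    refine Finset.sum_congr rfl fun f _ => ?_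
    by_cases hf : f ∈ Ss n k R
    · simp [hf]
    · simp only [hf, if_false, not_false_eq_true, if_true]
      exact amp_smul_norm_sq _ _ _ _
  have eR : ∑ p : Ω × (Fin n → ZMod R), star (if p.2 ∈ Ss n k R then 0 else
      (((Real.sqrt (Fintype.card Ω : ℕ))⁻¹ : ℝ) : ℂ) • (y * Yf x (G p.1) R k p.2)) *
      (if p.2 ∈ Ss n k R then 0 else
      (((Real.sqrt (Fintype.card Ω : ℕ))⁻¹ : ℝ) : ℂ) • (y * Yf x (G p.1) R k p.2)) =
      ∑ s, ∑ f ∈ univ.filter (fun f => f ∉ Ss n k R),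
        (Fintype.card Ω : ℂ)⁻¹ • (star (Yf x (G s) R k f) * Yf x (G s) R k f) := by
    rw [Fintype.sum_prod_type]
    refine Finset.sum_congr rfl fun s _ => ?_
    rw [Finset.sum_filter]
    refine Finset.sum_congr rfl fun f _ => ?_
    by_cases hf : f ∈ Ss n k R
    · simp [hf]
    · simp only [hf, if_false, not_false_eq_true, if_true]
      exact star_smul_mul _ _ _ hy
  rw [eL, eR, inv_mul_le_iff₀ hN] at hcol
  refine hcol.trans ?_
  have hrest := norm_rest k R (by omega) Ω (fun s f => Yf x (G s) R k f)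
    (fun s => (h4 B (Fin n) R x (G s) k).2 hx) ε κ hε hκ lam hG2 hG3 hG4
  gcongr

end steps

theorem generic (h4 : K_fourier.{0}) (h5 : K_pars.{0}) {v w : B →ₗ[ℂ] (K →L[ℂ] K)}
    (hc : ColIneq v w) (γ γn : ℝ) (hγ : 0 ≤ γ) (hγn : 0 ≤ γn) (L n : ℕ) (hn : 0 < n)
    (hL : LvlBd w L γ) (hLn : LvlBd w n γn) (R k : ℕ) [NeZero R] (hk : k + 1 ≤ L)
    (hR : k + 1 < R) (Ω : Type) [Fintype Ω] [Nonempty Ω] (G : Ω → Fin n → unitary B)
    (x y : CStarMatrix (Fin n) (Fin n) B) (hx : x ∈ unitary (CStarMatrix (Fin n) (Fin n) B))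
    (hy : y ∈ unitary (CStarMatrix (Fin n) (Fin n) B)) (ε κ : ℝ) (hε : 0 < ε) (hκ : 0 ≤ κ)
    (hG : GramOK Ω G x R k ε κ) (θ : HH (Fin n) K) :
    ∑ s, ∑ ω : Fin n → ZMod R, ‖amp v (Fin n) (y * Tw x (G s) ω k) θ‖ ^ 2 ≤
      (Fintype.card Ω * Fintype.card (Fin n → ZMod R) : ℝ) *
        (6 * (γ ^ 2 * (1 + n ^ (k + 1) * ε) + γn ^ 2 * (κ + n ^ (k + 1) * ε)) *
          ‖θ‖ ^ 2) := by
  obtain ⟨lam, hl0, hG2, hG3, hG4⟩ := hG
  -- Parseval
  have e0 : ∀ s, ∑ ω : Fin n → ZMod R, ‖amp v (Fin n) (y * Tw x (G s) ω k) θ‖ ^ 2 =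
      (Fintype.card (Fin n → ZMod R) : ℝ) *
        ∑ f, ‖amp v (Fin n) (y * Yf x (G s) R k f) θ‖ ^ 2 := by
    intro s
    rw [← h5 (Fin n) R (HH (Fin n) K) (fun f => amp v (Fin n) (y * Yf x (G s) R k f) θ)]
    refine Finset.sum_congr rfl fun ω _ => ?_
    rw [(h4 B (Fin n) R x (G s) k).1 ω, Finset.mul_sum, map_sum, _root_.sum_apply]
    congr 2
    refine Finset.sum_congr rfl fun f _ => ?_
    rw [mul_smul_comm, map_smul, smul_apply]
  have e1 : ∑ s, ∑ ω : Fin n → ZMod R, ‖amp v (Fin n) (y * Tw x (G s) ω k) θ‖ ^ 2 =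
      (Fintype.card (Fin n → ZMod R) : ℝ) *
        (∑ M ∈ A21.Ps n k, ∑ s, ‖amp v (Fin n) (y * Yf x (G s) R k (ind R M)) θ‖ ^ 2 +
          ∑ s, ∑ f ∈ univ.filter (fun f => f ∉ A21.Ss n k R),
            ‖amp v (Fin n) (y * Yf x (G s) R k f) θ‖ ^ 2) := by
    simp only [e0]
    rw [← Finset.mul_sum]
    congr 1
    rw [Finset.sum_comm (s := A21.Ps n k), ← Finset.sum_add_distrib]
    refine Finset.sum_congr rfl fun s _ => ?_
    rw [A21.sum_split k R, A21.sum_Ss k R (by omega)]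
  have e2 : ∑ M ∈ A21.Ps n k, ∑ s, ‖amp v (Fin n) (y * Yf x (G s) R k (ind R M)) θ‖ ^ 2 ≤
      (Fintype.card Ω : ℝ) * (6 * γ ^ 2 * ((1 + (n : ℝ) ^ (k + 1) * ε) * ‖θ‖ ^ 2)) := by
    calc ∑ M ∈ A21.Ps n k, ∑ s, ‖amp v (Fin n) (y * Yf x (G s) R k (ind R M)) θ‖ ^ 2
        ≤ ∑ M ∈ A21.Ps n k, (Fintype.card Ω : ℝ) *
          (6 * γ ^ 2 * ∑ j ∈ M, (lam M j + ε) * ‖θ j‖ ^ 2) := by
          refine Finset.sum_le_sum fun M hM => ?_
          have hM' : M.card = k + 1 := by simpa [A21.Ps] using hM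
          exact step1 hc γ hγ L hL R k hk hR Ω G x y hy ε hε (lam M)
            (hl0 M) M hM' (hG2 M hM') θ
      _ = (Fintype.card Ω : ℝ) * (6 * γ ^ 2 *
          ∑ M ∈ A21.Ps n k, ∑ j ∈ M, (lam M j + ε) * ‖θ j‖ ^ 2) := by
          simp only [← Finset.mul_sum]
      _ ≤ _ := by
          have hs : ∑ M ∈ A21.Ps n k, ∑ j ∈ M, (lam M j + ε) * ‖θ j‖ ^ 2 ≤
              (1 + (n : ℝ) ^ (k + 1) * ε) * ‖θ‖ ^ 2 := by
            have hsw : ∑ M ∈ A21.Ps n k, ∑ j ∈ M, (lam M j + ε) * ‖θ j‖ ^ 2 =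
                ∑ j : Fin n, ∑ M ∈ univ.filter
                  (fun M : Finset (Fin n) => M.card = k + 1 ∧ j ∈ M),
                  (lam M j + ε) * ‖θ j‖ ^ 2 := by
              refine Finset.sum_comm' ?_
              intro M j
              simp [A21.Ps]
            rw [hsw, PiLp.norm_sq_eq_of_L2, Finset.mul_sum]
            refine Finset.sum_le_sum fun j _ => ?_
            rw [← Finset.sum_mul]
            refine mul_le_mul_of_nonneg_right ?_ (by positivity)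
            rw [Finset.sum_add_distrib, Finset.sum_const, nsmul_eq_mul]
            refine add_le_add (hG3 j) ?_
            refine mul_le_mul_of_nonneg_right ?_ hε.le
            refine le_trans ?_ (A21.card_le n k)
            exact_mod_cast Finset.card_le_card (fun M hM => by
              simp only [Finset.mem_filter, Finset.mem_univ, true_and] at hM ⊢
              exact hM.1)
          gcongr
  have e3 := step2 h4 hc γn hγn hn hLn R k hR Ω G x y hx hy ε κ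
    hε hκ lam hG2 hG3 hG4 θ
  rw [e1]
  calc (Fintype.card (Fin n → ZMod R) : ℝ) *
        (∑ M ∈ A21.Ps n k, ∑ s, ‖amp v (Fin n) (y * Yf x (G s) R k (ind R M)) θ‖ ^ 2 +
          ∑ s, ∑ f ∈ univ.filter (fun f => f ∉ A21.Ss n k R),
            ‖amp v (Fin n) (y * Yf x (G s) R k f) θ‖ ^ 2)
      ≤ (Fintype.card (Fin n → ZMod R) : ℝ) *
        ((Fintype.card Ω : ℝ) * (6 * γ ^ 2 * ((1 + (n : ℝ) ^ (k + 1) * ε) * ‖θ‖ ^ 2)) +
          (Fintype.card Ω : ℝ) * (6 * γn ^ 2 * (κ + (n : ℝ) ^ (k + 1) * ε) *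
            ‖θ‖ ^ 2)) := by
        gcongr
    _ = _ := by ring

end Y268.Kad
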