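import Mathlib
import Pool.Agent.Y268.Kad.Gen
import Pool.Agent.H153R2.Kad3.Orbit
import Pool.Agent.H403R2.Kad3.Crude

/-!
The orbit bounds, in the limit norm.
-/

open scoped ComplexOrder InnerProductSpace ComplexConjugate
open Finset

noncomputable section

namespace Y268.Kad

open H759R2.Kad

variable {B : Type} [CStarAlgebra B] [PartialOrder B] [StarOrderedRing B]
  {K : Type} [NormedAddCommGroup K] [InnerProductSpace ℂ K] [CompleteSpace K]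

theorem num_bound' (m n k : ℕ) (γ : ℝ) (hγ : 1 ≤ γ) (hm : 0 < m) (hn : 0 < n) (hk : k < m) :
    6 * (γ ^ 2 * (1 + (n : ℝ) ^ (k + 1) * (1 / (12 * m ^ 2 * (n : ℝ) ^ m))) +
      (m * γ) ^ 2 * (1 / (12 * m ^ 2) + (n : ℝ) ^ (k + 1) * (1 / (12 * m ^ 2 * (n : ℝ) ^ m)))) ≤
      8 * γ ^ 2 := by
  have h := A22.num_bound m n k γ hγ hm hn hk
  have h0 : 0 < γ ^ 2 := by positivity
  refine le_of_mul_le_mul_left ?_ h0
  calc _ = 6 * γ ^ 2 * (γ ^ 2 * (1 + (n : ℝ) ^ (k + 1) * (1 / (12 * m ^ 2 * (n : ℝ) ^ m))) +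
      (m * γ) ^ 2 * (1 / (12 * m ^ 2) + (n : ℝ) ^ (k + 1) *
        (1 / (12 * m ^ 2 * (n : ℝ) ^ m)))) := by ring
    _ ≤ 8 * γ ^ 4 := h
    _ = _ := by ring

/-- The duality between the two norms. -/
theorem inner_low' {τ : B →ₗ[ℂ] ℂ} {D : AvData τ} {F : Uf B} {w : B →ₗ[ℂ] (K →L[ℂ] K)}
    (hw : IsHom w) {γ₀ : ℝ} {S S' : K →L[ℂ] K} (hS : IsLim D F w γ₀ S S') {ι : Type} [Fintype ι]
    [DecidableEq ι] (U : CStarMatrix ι ι B) (hU : U ∈ unitary (CStarMatrix ι ι B)) (θ : HH ι K) :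
    ‖θ‖ ^ 2 ≤ ‖amp (lm S' (vmap w)) ι U θ‖ * ‖amp (lm S w) ι U θ‖ := by
  have hv : amp (vmap w) ι U = star (amp w ι (star U)) := (prove3_vmap.{0, 0} B K w).1 ι U
  have e2 : ⟪amp (vmap w) ι U θ, amp w ι U θ⟫_ℂ = ⟪θ, θ⟫_ℂ := by
    rw [hv, ContinuousLinearMap.star_eq_adjoint, ContinuousLinearMap.adjoint_inner_left,
      ← mul_apply_eq_comp, ← Orbit.amp_mul hw, (Unitary.mem_iff.mp hU).1, Orbit.amp_one hw]
    rfl
  have e4 : ⟪amp (lm S' (vmap w)) ι U θ, amp (lm S w) ι U θ⟫_ℂ = ⟪θ, θ⟫_ℂ := by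
    rw [← e2, PiLp.inner_apply, PiLp.inner_apply]
    refine Finset.sum_congr rfl fun i _ => ?_
    rw [amp_lm, amp_lm]
    have h1 : ∀ a b : K, ⟪S' a, S b⟫_ℂ = ⟪a, b⟫_ℂ := by
      intro a b
      have h2 : S' (S b) = b := by
        have : (S' * S) b = b := by rw [hS.l]; rfl
        exact this
      calc ⟪S' a, S b⟫_ℂ = ⟪star S' a, S b⟫_ℂ := by rw [hS.sa']
        _ = ⟪a, S' (S b)⟫_ℂ := by
            rw [ContinuousLinearMap.star_eq_adjoint, ContinuousLinearMap.adjoint_inner_left]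
        _ = _ := by rw [h2]
    exact h1 _ _
  have e3 : ‖⟪θ, θ⟫_ℂ‖ = ‖θ‖ ^ 2 := by
    rw [inner_self_eq_norm_sq_to_K]
    simp
  calc ‖θ‖ ^ 2 = ‖⟪amp (lm S' (vmap w)) ι U θ, amp (lm S w) ι U θ⟫_ℂ‖ := by rw [e4, e3]
    _ ≤ _ := norm_inner_le_norm _ _

open A22 Orbit in
theorem orbit (h : St_gt.{0, 0}) (h4 : K_fourier.{0}) (h5 : K_pars.{0}) {τ : B →ₗ[ℂ] ℂ}
    (hτ : IsTracialState τ) (D : AvData τ) (F : Uf B) {w : B →ₗ[ℂ] (K →L[ℂ] K)}
    (hw : IsHom w) {S S' : K →L[ℂ] K} (γ : ℝ) (hγ : 1 ≤ γ) (hS : IsLim D F w γ S S')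
    (hwc : ∀ b, ‖w b‖ ≤ γ * ‖b‖) (L m : ℕ) (hm : 0 < m) (hmL : m ≤ L) (hL : LvlBd w L γ)
    (R : ℕ) [NeZero R] (hmR : m < R) (Ω : Type) [Fintype Ω] [Nonempty Ω]
    (G : Ω → Fin (m * L) → unitary B) (x : CStarMatrix (Fin (m * L)) (Fin (m * L)) B)
    (hx : x ∈ unitary (CStarMatrix (Fin (m * L)) (Fin (m * L)) B))
    (hG : ∀ k, k < m → GramOK Ω G x R k (1 / (12 * m ^ 2 * ((m * L : ℕ) : ℝ) ^ m))
          (1 / (12 * m ^ 2)) ∧
        GramOK Ω (fun s c => star (G s c)) (star x) R k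
          (1 / (12 * m ^ 2 * ((m * L : ℕ) : ℝ) ^ m)) (1 / (12 * m ^ 2))) :
    (∀ (θ : HH (Fin (m * L)) K) (k : ℕ), k < m →
      (Fintype.card Ω * Fintype.card (Fin (m * L) → ZMod R) : ℝ) * ‖θ‖ ^ 2 ≤
        8 * γ ^ 2 * ∑ s, ∑ ω : Fin (m * L) → ZMod R,
          ‖amp (lm S w) (Fin (m * L)) ((x * gm (G s) * ph B ω) ^ k) θ‖ ^ 2) ∧
    (∀ (ζ : HH (Fin (m * L)) K) (q : ℕ), q < m →
      ∑ s, ∑ ω : Fin (m * L) → ZMod R,
        ‖amp (lm S w) (Fin (m * L)) (star (x * gm (G s) * ph B ω) ^ (q + 1))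
          (amp w (Fin (m * L)) x ζ)‖ ^ 2 ≤
        (Fintype.card Ω * Fintype.card (Fin (m * L) → ZMod R) : ℝ) *
          (8 * γ ^ 2 * ‖ζ‖ ^ 2)) := by
  have hn : 0 < m * L := Nat.mul_pos hm (by omega)
  have hγ0 : (0 : ℝ) ≤ γ := by linarith
  have hγp : (0 : ℝ) < γ := by linarith
  have hm0 : (0 : ℝ) < m := by exact_mod_cast hm
  have hn0 : (0 : ℝ) < ((m * L : ℕ) : ℝ) := by exact_mod_cast hn
  -- upper bound
  have up : ∀ (v w' : B →ₗ[ℂ] (K →L[ℂ] K)), ColIneq v w' → LvlBd w' L γ →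
      ∀ (G' : Ω → Fin (m * L) → unitary B) (x' y' : CStarMatrix (Fin (m * L)) (Fin (m * L)) B),
      x' ∈ unitary (CStarMatrix (Fin (m * L)) (Fin (m * L)) B) →
      y' ∈ unitary (CStarMatrix (Fin (m * L)) (Fin (m * L)) B) → ∀ k, k < m →
      GramOK Ω G' x' R k (1 / (12 * m ^ 2 * ((m * L : ℕ) : ℝ) ^ m)) (1 / (12 * m ^ 2)) →
      ∀ θ : HH (Fin (m * L)) K,
      ∑ s, ∑ ω : Fin (m * L) → ZMod R, ‖amp v (Fin (m * L)) (y' * Tw x' (G' s) ω k) θ‖ ^ 2 ≤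
        (Fintype.card Ω * Fintype.card (Fin (m * L) → ZMod R) : ℝ) * (8 * γ ^ 2 * ‖θ‖ ^ 2) := by
    intro v w' hc hL' G' x' y' hx' hy' k hk hGr θ
    have h := generic h4 h5 hc γ (m * γ) hγ0
      (mul_nonneg hm0.le hγ0) L (m * L) hn hL'
      (prove3_crude.{0, 0} B K w' L m γ hγ0 hL') R k (by omega) (by omega) Ω G' x' y' hx' hy'
      (1 / (12 * m ^ 2 * ((m * L : ℕ) : ℝ) ^ m)) (1 / (12 * m ^ 2)) (by positivity)
      (by positivity) hGr θ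
    refine h.trans ?_
    refine mul_le_mul_of_nonneg_left ?_ (by positivity)
    refine mul_le_mul_of_nonneg_right ?_ (by positivity)
    exact num_bound' m (m * L) k γ hγ hm hn hk
  have hcol := col_lim h hτ D F hw hS
  have hcol' := col_dual h hτ D F hw hγp hwc hS
  constructor
  · intro θ k hk
    rcases Nat.eq_zero_or_pos k with hk0 | hk0
    · subst hk0
      have e1 : ∀ (s : Ω) (ω : Fin (m * L) → ZMod R),
          ‖θ‖ ^ 2 ≤ 8 * γ ^ 2 * ‖amp (lm S w) (Fin (m * L)) ((x * gm (G s) * ph B ω) ^ 0) θ‖ ^ 2 := by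
        intro s ω
        rw [pow_zero, amp_lm_norm, amp_one hw, PiLp.norm_sq_eq_of_L2, Finset.mul_sum]
        refine Finset.sum_le_sum fun i _ => ?_
        have h2 : S' (S (θ i)) = θ i := by
          have : (S' * S) (θ i) = θ i := by rw [hS.l]; rfl
          exact this
        have h3 : ‖θ i‖ ≤ γ * ‖S (θ i)‖ := by
          calc ‖θ i‖ = ‖S' (S (θ i))‖ := by rw [h2]
            _ ≤ ‖S'‖ * ‖S (θ i)‖ := ContinuousLinearMap.le_opNorm _ _
            _ ≤ _ := mul_le_mul_of_nonneg_right hS.n' (norm_nonneg _)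
        calc ‖θ i‖ ^ 2 ≤ (γ * ‖S (θ i)‖) ^ 2 := pow_le_pow_left₀ (norm_nonneg _) h3 2
          _ = γ ^ 2 * ‖S (θ i)‖ ^ 2 := by ring
          _ ≤ 8 * γ ^ 2 * ‖S (θ i)‖ ^ 2 := by
              refine mul_le_mul_of_nonneg_right ?_ (by positivity)
              nlinarith [sq_nonneg γ]
      calc (Fintype.card Ω * Fintype.card (Fin (m * L) → ZMod R) : ℝ) * ‖θ‖ ^ 2
          = ∑ _s : Ω, ∑ _ω : Fin (m * L) → ZMod R, ‖θ‖ ^ 2 := by
            simp only [Finset.sum_const, Finset.card_univ, nsmul_eq_mul]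
            ring
        _ ≤ ∑ s : Ω, ∑ ω : Fin (m * L) → ZMod R, 8 * γ ^ 2 *
              ‖amp (lm S w) (Fin (m * L)) ((x * gm (G s) * ph B ω) ^ 0) θ‖ ^ 2 :=
            Finset.sum_le_sum fun s _ => Finset.sum_le_sum fun ω _ => e1 s ω
        _ = _ := by simp only [← Finset.mul_sum]
    · obtain ⟨k', rfl⟩ : ∃ k', k = k' + 1 := ⟨k - 1, by omega⟩
      have hk' : k' < m := by omega
      obtain ⟨v1, v2, v3⟩ := prove3_vmap.{0, 0} B K w
      have hb := up (lm S' (vmap w)) (vmap w) hcol' (v2 L γ hL) G x x hx hx k' hk'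
        (hG k' hk').1 θ
      have hUu : ∀ (s : Ω) (ω : Fin (m * L) → ZMod R),
          x * Tw x (G s) ω k' ∈ unitary (CStarMatrix (Fin (m * L)) (Fin (m * L)) B) := by
        intro s ω
        rw [← pow_U]
        exact pow_mem (mul_mem (mul_mem hx (gm_unitary _)) (Tele.ph_unitary _)) _
      have hfin := fwd_abs
        (fun (s : Ω) (ω : Fin (m * L) → ZMod R) =>
          ‖amp (lm S' (vmap w)) (Fin (m * L)) (x * Tw x (G s) ω k') θ‖)
        (fun (s : Ω) (ω : Fin (m * L) → ZMod R) =>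
          ‖amp (lm S w) (Fin (m * L)) (x * Tw x (G s) ω k') θ‖) (8 * γ ^ 2) (‖θ‖ ^ 2)
        (by positivity) (by positivity)
        (fun s ω => inner_low' hw hS _ (hUu s ω) θ) hb
      refine hfin.trans (le_of_eq ?_)
      congr 1
      refine Finset.sum_congr rfl fun s _ => Finset.sum_congr rfl fun ω _ => ?_
      rw [pow_U]
  · intro ζ q hq
    have hb := up (lm S w) w hcol hL (fun s c => star (G s c)) (star x) 1 (Unitary.star_mem hx)
      (one_mem _) q hq (hG q hq).2 ζ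
    refine le_trans (le_of_eq ?_) hb
    refine Finset.sum_congr rfl fun s _ => ?_
    rw [← Equiv.sum_comp (Equiv.neg (Fin (m * L) → ZMod R))
      fun ω => ‖amp (lm S w) (Fin (m * L)) (1 * Tw (star x) (fun c => star (G s c)) ω q) ζ‖ ^ 2]
    refine Finset.sum_congr rfl fun ω _ => ?_
    rw [amp_lm_norm, amp_lm_norm]
    refine Finset.sum_congr rfl fun i _ => ?_
    rw [← mul_apply_eq_comp, ← amp_mul hw, star_pow_U x hx]
    rfl

end Y268.Kad
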