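import Mathlib
import Pool.Agent.Y268.Kad.Orb
import Pool.Agent.H114R2.Kad3.Unit
import Pool.Agent.H711R2.KG.KAProps

/-!
The bound for flat unitaries, in the limit norm.
-/

open scoped ComplexOrder InnerProductSpace ComplexConjugate
open Finset

noncomputable section

namespace Y268.Kad

open H759R2.Kad H711R2.KG

variable {B : Type} [CStarAlgebra B] [PartialOrder B] [StarOrderedRing B]
  {K : Type} [NormedAddCommGroup K] [InnerProductSpace ℂ K] [CompleteSpace K]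

open Embed in
/-- The block inequality for `m × m` matrices. -/
theorem embed (h1 : St_gt.{0, 0}) {τ : B →ₗ[ℂ] ℂ} (hτ : IsTracialState τ) (D : AvData τ)
    (F : Uf B) {w : B →ₗ[ℂ] (K →L[ℂ] K)} (hw : IsHom w) {γ₀ : ℝ} {S S' : K →L[ℂ] K}
    (hS : IsLim D F w γ₀ S S') (m l q : ℕ) (hl : 0 < l) (hq : 0 < q) (hm : m ≤ q * l) (γ : ℝ)
    (hγ : 0 ≤ γ) (hY : LvlBd w l γ) (X : CStarMatrix (Fin m) (Fin m) B) (ξ : HH (Fin m) K) :
    ‖amp (cj S S' w) (Fin m) X ξ‖ ^ 2 ≤ 18 * γ ^ 2 * ‖ξ‖ ^ 2 *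
      (‖X‖ ^ 2 + 1 / (l : ℝ) * (tr τ (Fin m) (star X * X)).re) := by
  have : Nonempty (Fin m ↪ Fin q × Fin l) := by
    refine Function.Embedding.nonempty_of_card_le ?_
    simpa using hm
  obtain ⟨e⟩ := this
  have : Nonempty (Fin q) := ⟨⟨0, hq⟩⟩
  have : Nonempty (Fin l) := ⟨⟨0, hl⟩⟩
  have key := block_lim h1 hτ D F hw hS (Fin q) (Fin l) γ hγ hY (exH e X) (exv e ξ)
  rw [amp_ex, exv_norm, exv_norm, ← map_star, ← map_mul, tr_ex, Fintype.card_fin] at key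
  refine key.trans ?_
  have hn : ‖exH e X‖ ≤ ‖X‖ := NonUnitalStarAlgHom.norm_apply_le (exH e) X
  have hn2 : ‖exH e X‖ ^ 2 ≤ ‖X‖ ^ 2 := pow_le_pow_left₀ (norm_nonneg _) hn 2
  gcongr

open Rec2 in
theorem unit_key (hgt : St_gt.{0, 0}) (h1 : KA_rand.{0}) (h3 : T2_det.{0, 0})
    (h4 : St_phtr.{0}) (h41 : K_fourier.{0}) (h42 : K_pars.{0})
    {τ : B →ₗ[ℂ] ℂ} (hτ : IsTracialState τ) (hdix : HasDixmier τ) (horth : HasOrthA τ)
    (D : AvData τ) (F : Uf B) {w : B →ₗ[ℂ] (K →L[ℂ] K)} (hw : IsHom w)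
    {S S' : K →L[ℂ] K} (γ : ℝ) (hγ : 1 ≤ γ) (hS : IsLim D F w γ S S')
    (hwb : ∀ b, ‖w b‖ ≤ γ * ‖b‖)
    (L m : ℕ) (hm : 0 < m) (hL : 25920 * m ^ 11 ≤ L) (hl : LvlBd w L γ)
    (x : CStarMatrix (Fin (m * L)) (Fin (m * L)) B)
    (hx : x ∈ unitary (CStarMatrix (Fin (m * L)) (Fin (m * L)) B))
    (hp : ∀ i j, pmat τ x i j ≤ 1 / (12 * m ^ 4)) (ζ : HH (Fin (m * L)) K) :
    ‖amp w (Fin (m * L)) x ζ‖ ^ 2 ≤ 11528 * γ ^ 6 * ‖ζ‖ ^ 2 := by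
  have hγ0 : 0 ≤ γ := by linarith
  have hmr : (0 : ℝ) < m := by exact_mod_cast hm
  have hmp : 0 < m ^ 11 := by positivity
  have hL0 : 0 < L := by omega
  have hLr : (0 : ℝ) < L := by exact_mod_cast hL0
  have hmL : m ≤ L := by
    have : m ≤ m ^ 11 := Nat.le_self_pow (by norm_num) m
    omega
  have hL8 : 8 * (m : ℝ) ^ 6 ≤ L := by
    have e1 : m ^ 6 ≤ m ^ 11 := Nat.pow_le_pow_right hm (by norm_num)
    have e2 : 8 * m ^ 6 ≤ L := by omega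
    exact_mod_cast e2
  have : NeZero (2 * m + 2) := ⟨by omega⟩
  obtain ⟨n, hn⟩ : ∃ n : ℕ, n = m * L := ⟨_, rfl⟩
  have hnr : (n : ℝ) = m * L := by rw [hn]; push_cast; ring
  have hn0 : (0 : ℝ) < n := by rw [hnr]; positivity
  obtain ⟨Ω, iΩ, iN, G, hG⟩ := h1 B τ hτ hdix horth (m * L) m (2 * m + 2) (by omega) x hx
    (1 / (12 * m ^ 4)) hp (1 / (12 * m ^ 2 * ((m * L : ℕ) : ℝ) ^ m))
    (by
      have : (0 : ℝ) < ((m * L : ℕ) : ℝ) := by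
        rw [← hn]; exact hn0
      positivity)
  have hκ : (m : ℝ) ^ 2 * (1 / (12 * m ^ 4)) = 1 / (12 * m ^ 2) := by
    field_simp
  rw [hκ] at hG
  obtain ⟨ho1, ho2⟩ := orbit hgt h41 h42 hτ D F hw γ hγ hS hwb L m hm hmL hl (2 * m + 2)
    (by omega) Ω G x hx hG
  have hcr := prove3_crude.{0, 0} B K w L m γ hγ0 hl
  have hblk := embed hgt hτ D F hw hS (m * L) L m hL0 hm le_rfl γ hγ0 hl
  subst hn
  -- notation
  have hW : IsHom (amp w (Fin (m * L))) := ⟨Orbit.amp_mul hw, Orbit.amp_one hw⟩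
  have hv : IsHom (cj S S' w) := cj_hom hS.r hS.l hw
  have hV : IsHom (amp (cj S S' w) (Fin (m * L))) := ⟨Orbit.amp_mul hv, Orbit.amp_one hv⟩
  set W := amp w (Fin (m * L)) with hWdef
  set V := amp (cj S S' w) (Fin (m * L)) with hVdef
  set θ : HH (Fin (m * L)) K := W x ζ with hθ
  set θ' : HH (Fin (m * L)) K := dgo S (Fin (m * L)) θ with hθ'
  have hVS : ∀ X : CStarMatrix (Fin (m * L)) (Fin (m * L)) B,
      ‖V X θ'‖ ^ 2 = ∑ i, ‖S (W X θ i)‖ ^ 2 := by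
    intro X
    have e0 : dgo S' (Fin (m * L)) θ' = θ := by
      ext i
      rw [dgo_apply, hθ', dgo_apply]
      change (S' * S) (θ i) = θ i
      rw [hS.l]
      rfl
    rw [PiLp.norm_sq_eq_of_L2]
    refine Finset.sum_congr rfl fun i _ => ?_
    rw [hVdef, amp_cj, e0]
  have hVlm : ∀ X : CStarMatrix (Fin (m * L)) (Fin (m * L)) B,
      ‖V X θ'‖ ^ 2 = ‖amp (lm S w) (Fin (m * L)) X θ‖ ^ 2 := by
    intro X
    rw [hVS, amp_lm_norm]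
  let I := Ω × (Fin (m * L) → ZMod (2 * m + 2))
  let U : I → CStarMatrix (Fin (m * L)) (Fin (m * L)) B := fun p => x * gm (G p.1) * ph B p.2
  set N : ℝ := (Fintype.card I : ℝ) with hN
  have hNe : N = (Fintype.card Ω * Fintype.card (Fin (m * L) → ZMod (2 * m + 2)) : ℝ) := by
    rw [hN, Fintype.card_prod]
    push_cast
    rfl
  have hN0 : 0 < N := by
    rw [hN]
    exact_mod_cast Fintype.card_pos
  have hU : ∀ p : I, U p ∈ unitary (CStarMatrix (Fin (m * L)) (Fin (m * L)) B) :=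
    fun p => mul_mem (mul_mem hx (A23.gm_unitary _)) (ph_unitary B p.2)
  obtain ⟨Phi, hPhi⟩ : ∃ Phi : I → ℝ, Phi = fun p => ∑ k ∈ range m, ‖V (U p ^ k) θ'‖ ^ 2 :=
    ⟨_, rfl⟩
  obtain ⟨Psi, hPsi⟩ : ∃ Psi : I → ℝ, Psi = fun p =>
    (1 / (m : ℝ)) * ∑ q ∈ range m, ‖V (star (U p) ^ (q + 1)) θ'‖ ^ 2 := ⟨_, rfl⟩
  obtain ⟨Y, hY⟩ : ∃ Y : I → ℝ, Y = fun p =>
    ∑ k ∈ range (2 * m), ‖tr τ (Fin (m * L)) (U p ^ (k + 1))‖ := ⟨_, rfl⟩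
  have hY0 : ∀ p, 0 ≤ Y p := fun p => by
    rw [hY]
    exact sum_nonneg fun k _ => norm_nonneg _
  have hPsi0 : ∀ p, 0 ≤ Psi p := fun p => by
    rw [hPsi]
    exact mul_nonneg (by positivity) (sum_nonneg fun k _ => by positivity)
  have ht1 : (tr τ (Fin (m * L)) (1 : CStarMatrix (Fin (m * L)) (Fin (m * L)) B)).re =
      ((m * L : ℕ) : ℝ) := by
    rw [tr_one hτ, Fintype.card_fin]
    exact Complex.natCast_re _
  -- deterministic inequality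
  have hdet : ∀ p, m * Phi p ≤ (4 * m ^ 2 * (18 * γ ^ 2) + 18 * γ ^ 2 / L *
      (2 * m * ((m * L : ℕ) : ℝ) + 4 * m * Y p)) * Psi p := by
    intro p
    have h8 := h3 (CStarMatrix (Fin (m * L)) (Fin (m * L)) B) (HH (Fin (m * L)) K) V hV
      (tr τ (Fin (m * L))) (tr_star hτ) (by rw [ht1]; exact hn0.le)
      (18 * γ ^ 2) (18 * γ ^ 2 / L) (by positivity) (by positivity)
      (fun X ξ => by
        refine (hblk X ξ).trans_eq ?_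
        ring) (U p) (hU p) θ' m hm
    rw [ht1] at h8
    rw [hPhi, hPsi, hY]
    exact h8
  have hgood : ∀ p, Y p ≤ ((m * L : ℕ) : ℝ) → m * Phi p ≤ (180 * m ^ 2 * γ ^ 2) * Psi p := by
    intro p hp'
    refine (hdet p).trans (mul_le_mul_of_nonneg_right ?_ (hPsi0 p))
    have h8 : 18 * γ ^ 2 / L * (2 * m * ((m * L : ℕ) : ℝ) + 4 * m * Y p) ≤
        18 * γ ^ 2 / L * (2 * m * ((m * L : ℕ) : ℝ) + 4 * m * ((m * L : ℕ) : ℝ)) := by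
      gcongr
    have h9 : 18 * γ ^ 2 / L * (2 * m * ((m * L : ℕ) : ℝ) + 4 * m * ((m * L : ℕ) : ℝ)) =
        108 * γ ^ 2 * m ^ 2 := by
      rw [hnr]
      field_simp
      ring
    calc 4 * m ^ 2 * (18 * γ ^ 2) + 18 * γ ^ 2 / L *
          (2 * m * ((m * L : ℕ) : ℝ) + 4 * m * Y p)
        ≤ 4 * m ^ 2 * (18 * γ ^ 2) + 108 * γ ^ 2 * m ^ 2 := by
          rw [h9] at h8
          exact add_le_add le_rfl h8
      _ = 180 * m ^ 2 * γ ^ 2 := by ring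
  have hbad : ∀ p, m * Phi p ≤ m ^ 4 * γ ^ 4 * ‖ζ‖ ^ 2 := by
    intro p
    have h8 : ∀ k ∈ range m, ‖V (U p ^ k) θ'‖ ^ 2 ≤ γ ^ 2 * ((m * γ) ^ 2 * ‖ζ‖ ^ 2) := by
      intro k _
      have h9 : W (U p ^ k) θ = W (U p ^ k * x) ζ := by
        rw [hW.mul]
        rfl
      have h10 : U p ^ k * x ∈ unitary (CStarMatrix (Fin (m * L)) (Fin (m * L)) B) :=
        mul_mem (pow_mem (hU p) k) hx
      have h11 : ‖W (U p ^ k * x) ζ‖ ≤ m * γ * ‖ζ‖ := by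
        refine (ContinuousLinearMap.le_opNorm _ _).trans ?_
        refine mul_le_mul_of_nonneg_right ?_ (norm_nonneg _)
        refine (hcr _).trans ?_
        calc m * γ * ‖U p ^ k * x‖ ≤ m * γ * 1 :=
              mul_le_mul_of_nonneg_left (norm_unitary_le h10) (by positivity)
          _ = m * γ := mul_one _
      have h12 : ‖W (U p ^ k) θ‖ ^ 2 ≤ (m * γ) ^ 2 * ‖ζ‖ ^ 2 := by
        rw [h9]
        calc ‖W (U p ^ k * x) ζ‖ ^ 2 ≤ (m * γ * ‖ζ‖) ^ 2 :=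
              pow_le_pow_left₀ (norm_nonneg _) h11 2
          _ = (m * γ) ^ 2 * ‖ζ‖ ^ 2 := by ring
      rw [hVS]
      calc ∑ i, ‖S (W (U p ^ k) θ i)‖ ^ 2 ≤ ∑ i, γ ^ 2 * ‖W (U p ^ k) θ i‖ ^ 2 := by
            refine Finset.sum_le_sum fun i _ => ?_
            have h13 : ‖S (W (U p ^ k) θ i)‖ ≤ γ * ‖W (U p ^ k) θ i‖ :=
              (S.le_opNorm _).trans (mul_le_mul_of_nonneg_right hS.n (norm_nonneg _))
            calc ‖S (W (U p ^ k) θ i)‖ ^ 2 ≤ (γ * ‖W (U p ^ k) θ i‖) ^ 2 :=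
                  pow_le_pow_left₀ (norm_nonneg _) h13 2
              _ = _ := by ring
        _ = γ ^ 2 * ‖W (U p ^ k) θ‖ ^ 2 := by
            rw [← Finset.mul_sum, ← PiLp.norm_sq_eq_of_L2]
        _ ≤ _ := mul_le_mul_of_nonneg_left h12 (by positivity)
    have h12 : Phi p ≤ m * (γ ^ 2 * ((m * γ) ^ 2 * ‖ζ‖ ^ 2)) := by
      calc Phi p = ∑ k ∈ range m, ‖V (U p ^ k) θ'‖ ^ 2 := by rw [hPhi]
        _ ≤ ∑ _k ∈ range m, γ ^ 2 * ((m * γ) ^ 2 * ‖ζ‖ ^ 2) := sum_le_sum h8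
        _ = m * (γ ^ 2 * ((m * γ) ^ 2 * ‖ζ‖ ^ 2)) := by
          rw [sum_const, card_range, nsmul_eq_mul]
    calc m * Phi p ≤ m * (m * (γ ^ 2 * ((m * γ) ^ 2 * ‖ζ‖ ^ 2))) :=
          mul_le_mul_of_nonneg_left h12 hmr.le
      _ = m ^ 4 * γ ^ 4 * ‖ζ‖ ^ 2 := by ring
  -- traces
  have htr : ∀ k ∈ range (2 * m), ∀ s : Ω, ∑ ω : Fin (m * L) → ZMod (2 * m + 2),
      ‖tr τ (Fin (m * L)) (U (s, ω) ^ (k + 1))‖ ≤
        (Fintype.card (Fin (m * L) → ZMod (2 * m + 2)) : ℝ) *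
          (((m * L : ℕ) : ℝ) / (2 * m ^ 3)) := by
    intro k hk s
    rw [Finset.mem_range] at hk
    set G' : ℝ := (Fintype.card (Fin (m * L) → ZMod (2 * m + 2)) : ℝ) with hG'
    have hG0 : 0 < G' := by
      rw [hG']
      exact_mod_cast Fintype.card_pos
    have h8 : ∑ ω : Fin (m * L) → ZMod (2 * m + 2),
        ‖tr τ (Fin (m * L)) (U (s, ω) ^ (k + 1))‖ ^ 2 ≤ G' * ((k + 1) * ((m * L : ℕ) : ℝ)) := by
      have := h4 (Fin (m * L)) (2 * m + 2) B τ hτ (x * gm (G s))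
        (mul_mem hx (A23.gm_unitary _)) k (by omega)
      rw [Fintype.card_fin] at this
      exact this
    have h9 : (∑ ω : Fin (m * L) → ZMod (2 * m + 2),
        ‖tr τ (Fin (m * L)) (U (s, ω) ^ (k + 1))‖) ^ 2 ≤
        G' * ∑ ω : Fin (m * L) → ZMod (2 * m + 2),
        ‖tr τ (Fin (m * L)) (U (s, ω) ^ (k + 1))‖ ^ 2 := by
      have := sq_sum_le_card_mul_sum_sq
        (s := (Finset.univ : Finset (Fin (m * L) → ZMod (2 * m + 2))))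
        (f := fun ω => ‖tr τ (Fin (m * L)) (U (s, ω) ^ (k + 1))‖)
      rw [Finset.card_univ] at this
      exact this
    have h10 : (0 : ℝ) ≤ ∑ ω : Fin (m * L) → ZMod (2 * m + 2),
        ‖tr τ (Fin (m * L)) (U (s, ω) ^ (k + 1))‖ := Finset.sum_nonneg fun ω _ => norm_nonneg _
    have hk' : ((k : ℝ) + 1) ≤ 2 * m := by exact_mod_cast hk
    rw [← pow_le_pow_iff_left₀ h10 (by positivity) two_ne_zero]
    refine h9.trans ((mul_le_mul_of_nonneg_left h8 hG0.le).trans ?_)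
    have h11 : ((k : ℝ) + 1) * ((m * L : ℕ) : ℝ) ≤ 2 * m * ((m * L : ℕ) : ℝ) :=
      mul_le_mul_of_nonneg_right hk' hn0.le
    have h12 : 2 * (m : ℝ) * ((m * L : ℕ) : ℝ) ≤ (((m * L : ℕ) : ℝ) / (2 * m ^ 3)) ^ 2 := by
      rw [div_pow, le_div_iff₀ (by positivity)]
      have h13 : 2 * (m : ℝ) * ((m * L : ℕ) : ℝ) * (2 * m ^ 3) ^ 2 =
          (m * (8 * m ^ 6)) * ((m * L : ℕ) : ℝ) := by ring
      have h14 : (m : ℝ) * (8 * m ^ 6) ≤ ((m * L : ℕ) : ℝ) := by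
        rw [hnr]
        exact mul_le_mul_of_nonneg_left hL8 hmr.le
      rw [h13, sq]
      exact mul_le_mul_of_nonneg_right h14 hn0.le
    calc G' * (G' * ((k + 1) * ((m * L : ℕ) : ℝ)))
        ≤ G' * (G' * (((m * L : ℕ) : ℝ) / (2 * m ^ 3)) ^ 2) := by
          have := h11.trans h12
          gcongr
      _ = (G' * (((m * L : ℕ) : ℝ) / (2 * m ^ 3))) ^ 2 := by ring
  have hsumY : ∑ p, Y p ≤ N * (((m * L : ℕ) : ℝ) / m ^ 2) := by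
    have e1 : ∑ p, Y p = ∑ k ∈ range (2 * m), ∑ s : Ω, ∑ ω : Fin (m * L) → ZMod (2 * m + 2),
        ‖tr τ (Fin (m * L)) (U (s, ω) ^ (k + 1))‖ := by
      rw [hY, sum_comm]
      refine sum_congr rfl fun k _ => ?_
      rw [Fintype.sum_prod_type]
    rw [e1]
    have e2 : ∀ k ∈ range (2 * m), ∑ s : Ω, ∑ ω : Fin (m * L) → ZMod (2 * m + 2),
        ‖tr τ (Fin (m * L)) (U (s, ω) ^ (k + 1))‖ ≤ N * (((m * L : ℕ) : ℝ) / (2 * m ^ 3)) := by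
      intro k hk
      refine (sum_le_sum fun s _ => htr k hk s).trans_eq ?_
      rw [sum_const, card_univ, nsmul_eq_mul, hNe]
      ring
    refine (sum_le_sum e2).trans_eq ?_
    rw [Finset.sum_const, Finset.card_range, nsmul_eq_mul]
    push_cast
    field_simp
  -- orbits
  have hlow : m * (N * ‖θ‖ ^ 2) ≤ 8 * γ ^ 2 * ∑ p, Phi p := by
    have e1 : ∑ p, Phi p = ∑ k ∈ range m, ∑ s : Ω, ∑ ω : Fin (m * L) → ZMod (2 * m + 2),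
        ‖V ((x * gm (G s) * ph B ω) ^ k) θ'‖ ^ 2 := by
      rw [hPhi, sum_comm]
      refine sum_congr rfl fun k _ => ?_
      rw [Fintype.sum_prod_type]
    rw [e1, mul_sum]
    have h8 : ∑ _k ∈ range m, (N * ‖θ‖ ^ 2) ≤ ∑ k ∈ range m,
        8 * γ ^ 2 * ∑ s : Ω, ∑ ω : Fin (m * L) → ZMod (2 * m + 2),
          ‖V ((x * gm (G s) * ph B ω) ^ k) θ'‖ ^ 2 := by
      refine sum_le_sum fun k hk => ?_
      rw [hNe]
      simp only [hVlm]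
      exact ho1 θ k (mem_range.1 hk)
    rw [sum_const, card_range, nsmul_eq_mul] at h8
    exact h8
  have hup : ∑ p, Psi p ≤ N * (8 * γ ^ 2 * ‖ζ‖ ^ 2) := by
    have h8 : ∑ p, Psi p = (1 / (m : ℝ)) * ∑ q ∈ range m,
        ∑ s : Ω, ∑ ω : Fin (m * L) → ZMod (2 * m + 2),
          ‖V (star (x * gm (G s) * ph B ω) ^ (q + 1)) θ'‖ ^ 2 := by
      rw [hPsi]
      rw [← mul_sum, sum_comm]
      congr 1
      refine sum_congr rfl fun k _ => ?_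
      rw [Fintype.sum_prod_type]
    have h9 : ∑ q ∈ range m, ∑ s : Ω, ∑ ω : Fin (m * L) → ZMod (2 * m + 2),
          ‖V (star (x * gm (G s) * ph B ω) ^ (q + 1)) θ'‖ ^ 2 ≤
        ∑ _q ∈ range m, N * (8 * γ ^ 2 * ‖ζ‖ ^ 2) := by
      refine sum_le_sum fun q hq => ?_
      rw [hNe]
      simp only [hVlm]
      exact ho2 ζ q (mem_range.1 hq)
    rw [sum_const, card_range, nsmul_eq_mul] at h9
    rw [h8]
    calc (1 / (m : ℝ)) * ∑ q ∈ range m, ∑ s : Ω, ∑ ω : Fin (m * L) → ZMod (2 * m + 2),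
          ‖V (star (x * gm (G s) * ph B ω) ^ (q + 1)) θ'‖ ^ 2
        ≤ (1 / (m : ℝ)) * (m * (N * (8 * γ ^ 2 * ‖ζ‖ ^ 2))) :=
          mul_le_mul_of_nonneg_left h9 (by positivity)
      _ = N * (8 * γ ^ 2 * ‖ζ‖ ^ 2) := by field_simp
  have hcomb := A23.combine Phi Psi Y m ((m * L : ℕ) : ℝ) (m ^ 4 * γ ^ 4 * ‖ζ‖ ^ 2)
    (180 * m ^ 2 * γ ^ 2) (((m * L : ℕ) : ℝ) / m ^ 2) hn0 (by positivity) (by positivity)
    hY0 hPsi0 hgood hbad hsumY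
  have hE : m ^ 4 * γ ^ 4 * ‖ζ‖ ^ 2 / ((m * L : ℕ) : ℝ) * (((m * L : ℕ) : ℝ) / m ^ 2) =
      m ^ 2 * γ ^ 4 * ‖ζ‖ ^ 2 := by
    field_simp
  rw [hE, ← hN] at hcomb
  have hfin : (N * m ^ 2) * ‖θ‖ ^ 2 ≤ (N * m ^ 2) * (11528 * γ ^ 6 * ‖ζ‖ ^ 2) := by
    have e1 : (m : ℝ) * (m * (N * ‖θ‖ ^ 2)) ≤ m * (8 * γ ^ 2 * ∑ p, Phi p) :=
      mul_le_mul_of_nonneg_left hlow hmr.le
    have e2 : (180 * (m : ℝ) ^ 2 * γ ^ 2) * ∑ p, Psi p ≤
        (180 * (m : ℝ) ^ 2 * γ ^ 2) * (N * (8 * γ ^ 2 * ‖ζ‖ ^ 2)) :=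
      mul_le_mul_of_nonneg_left hup (by positivity)
    have e3 : 8 * γ ^ 2 * (m * ∑ p, Phi p) ≤
        8 * γ ^ 2 * ((180 * (m : ℝ) ^ 2 * γ ^ 2) * (N * (8 * γ ^ 2 * ‖ζ‖ ^ 2)) +
          N * (m ^ 2 * γ ^ 4 * ‖ζ‖ ^ 2)) :=
      mul_le_mul_of_nonneg_left (hcomb.trans (add_le_add e2 le_rfl)) (by positivity)
    calc (N * m ^ 2) * ‖θ‖ ^ 2 = (m : ℝ) * (m * (N * ‖θ‖ ^ 2)) := by ring
      _ ≤ m * (8 * γ ^ 2 * ∑ p, Phi p) := e1
      _ = 8 * γ ^ 2 * (m * ∑ p, Phi p) := by ring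
      _ ≤ _ := e3
      _ = _ := by ring
  exact le_of_mul_le_mul_left hfin (by positivity)

theorem unit_bd (hgt : St_gt.{0, 0}) (h1 : KA_rand.{0}) (h3 : T2_det.{0, 0})
    (h4 : St_phtr.{0}) (h41 : K_fourier.{0}) (h42 : K_pars.{0})
    {τ : B →ₗ[ℂ] ℂ} (hτ : IsTracialState τ) (hdix : HasDixmier τ) (horth : HasOrthA τ)
    {w : B →ₗ[ℂ] (K →L[ℂ] K)} (hw : IsHom w) (γ : ℝ) (hγ : 1 ≤ γ)
    (hwb : ∀ b, ‖w b‖ ≤ γ * ‖b‖)
    (L m : ℕ) (hm : 0 < m) (hL : 25920 * m ^ 11 ≤ L) (hl : LvlBd w L γ)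
    (x : CStarMatrix (Fin (m * L)) (Fin (m * L)) B)
    (hx : x ∈ unitary (CStarMatrix (Fin (m * L)) (Fin (m * L)) B))
    (hp : ∀ i j, pmat τ x i j ≤ 1 / (12 * m ^ 4)) :
    ‖amp w (Fin (m * L)) x‖ ≤ 108 * γ ^ 3 := by
  obtain ⟨D⟩ := exists_av hτ hdix
  obtain ⟨F⟩ := exists_uf B
  obtain ⟨S, S', hS⟩ := exists_lim D F w hw γ (by linarith) hwb
  apply ContinuousLinearMap.opNorm_le_bound _ (by positivity)
  intro ζ
  have h8 := unit_key hgt h1 h3 h4 h41 h42 hτ hdix horth D F hw γ hγ hS hwb L m hm hL hl x hx hp ζ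
  have h9 : ‖amp w (Fin (m * L)) x ζ‖ ^ 2 ≤ (108 * γ ^ 3 * ‖ζ‖) ^ 2 := by
    refine h8.trans ?_
    have : (108 * γ ^ 3 * ‖ζ‖) ^ 2 = 11664 * γ ^ 6 * ‖ζ‖ ^ 2 := by ring
    rw [this]
    have h10 : 0 ≤ γ ^ 6 * ‖ζ‖ ^ 2 := by positivity
    nlinarith
  exact (abs_le_of_sq_le_sq' h9 (by positivity)).2

end Y268.Kad
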