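import Mathlib
import Pool.Agent.Y268.Kad.Unit
import Pool.Agent.Y268.Kad.Sim
import Pool.Agent.H711R2.KG.G1

/-!
The bounds for algebras with a Dixmier trace and for their matrix algebras.
-/

open scoped ComplexOrder InnerProductSpace ComplexConjugate
open Finset

noncomputable section

namespace Y268.Kad

open H759R2.Kad H711R2.KG

/-- The bound on flat unitaries. -/
def KA_unit3 : Prop :=
  ∀ (B : Type) [CStarAlgebra B] [PartialOrder B] [StarOrderedRing B]
    (K : Type) [NormedAddCommGroup K] [InnerProductSpace ℂ K] [CompleteSpace K]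
    (w : B →ₗ[ℂ] (K →L[ℂ] K)) (τ : B →ₗ[ℂ] ℂ), IsHom w → IsTracialState τ → HasDixmier τ →
    HasOrthA τ → ∀ γ : ℝ, 1 ≤ γ → (∀ b, ‖w b‖ ≤ γ * ‖b‖) →
    ∀ L m : ℕ, 0 < m → 25920 * m ^ 11 ≤ L → LvlBd w L γ →
    ∀ x : CStarMatrix (Fin (m * L)) (Fin (m * L)) B,
      x ∈ unitary (CStarMatrix (Fin (m * L)) (Fin (m * L)) B) →
      (∀ i j, pmat τ x i j ≤ 1 / (12 * m ^ 4)) →
      ‖amp w (Fin (m * L)) x‖ ≤ 108 * γ ^ 3

/-- The main inequality. -/
def KA_main3 : Prop :=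
  ∀ (B : Type) [CStarAlgebra B] [PartialOrder B] [StarOrderedRing B]
    (K : Type) [NormedAddCommGroup K] [InnerProductSpace ℂ K] [CompleteSpace K]
    (w : B →ₗ[ℂ] (K →L[ℂ] K)) (τ : B →ₗ[ℂ] ℂ), IsHom w → IsTracialState τ → HasDixmier τ →
    HasOrthA τ → ∀ γ : ℝ, 1 ≤ γ → (∀ b, ‖w b‖ ≤ γ * ‖b‖) →
    ∀ L m : ℕ, 0 < m → 25920 * m ^ 11 ≤ L → LvlBd w L γ → LvlBd w (m * L) (216 * γ ^ 3)

/-- The bound for matrix algebras. -/
def KA_final5 : Prop :=
  ∀ (B : Type) [CStarAlgebra B] [PartialOrder B] [StarOrderedRing B] (τ : B →ₗ[ℂ] ℂ),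
    IsTracialState τ → HasDixmier τ → HasOrthA τ →
    ∀ (H : Type) [NormedAddCommGroup H] [InnerProductSpace ℂ H] [CompleteSpace H] (L m : ℕ),
    0 < m → 25920 * m ^ 11 ≤ L → ∀ (u : CStarMatrix (Fin L) (Fin L) B →ₗ[ℂ] (H →L[ℂ] H)),
    IsHom u → ∀ c : ℝ, 1 ≤ c → (∀ X, ‖u X‖ ≤ c * ‖X‖) → LvlBd u m (216 * c ^ 5)

open H294R2.Kad2 H759R2.Kad.A24 in
theorem main_bd (h1 : KA_unit3) (h2 : K_flat.{0}) : KA_main3 := by
  intro B _ _ _ K _ _ _ w τ hw hτ hD hO γ hγ hwγ L m hm hL hLvl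
  have hγ0 : (0 : ℝ) ≤ γ := zero_le_one.trans hγ
  have hLpos : 0 < L := lt_of_lt_of_le (by positivity) hL
  have hn : 0 < m * L := Nat.mul_pos hm hLpos
  have hC : (0 : ℝ) ≤ 108 * γ ^ 3 := by positivity
  have key : ∀ x ∈ unitary (CStarMatrix (Fin (m * L)) (Fin (m * L)) B),
      ‖amp w (Fin (m * L)) x‖ ≤ 108 * γ ^ 3 := by
    intro x hx
    obtain ⟨t, ht, hflat⟩ := h2 B τ hτ (m * L) hn x hx
    have hT : tens t (1 : B) ∈ unitary (CStarMatrix (Fin (m * L)) (Fin (m * L)) B) :=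
      Block.tens_unitary ht (one_mem _)
    have hy : x * tens t (1 : B) ∈ unitary (CStarMatrix (Fin (m * L)) (Fin (m * L)) B) :=
      mul_mem hx hT
    have hy1 := h1 B K w τ hw hτ hD hO γ hγ hwγ L m hm hL hLvl (x * tens t (1 : B)) hy
      (fun i j => A24.flat_num hm hL (hflat i j))
    have e1 : x = (x * tens t (1 : B)) * tens (star t) (1 : B) := by
      have e2 : star (tens t (1 : B)) = tens (star t) (1 : B) := by
        rw [star_tens, star_one]
      rw [← e2, mul_assoc, hT.2, mul_one]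
    have e3 : amp w (Fin (m * L)) x =
        amp w (Fin (m * L)) (x * tens t (1 : B)) * amp w (Fin (m * L)) (tens (star t) (1 : B)) := by
      rw [← (amp_isHom hw).mul, ← e1]
    have e4 : ‖amp w (Fin (m * L)) (tens (star t) (1 : B))‖ ≤ 1 :=
      A24.norm_amp_tens_one hw.one (Unitary.star_mem ht)
    calc ‖amp w (Fin (m * L)) x‖ = ‖amp w (Fin (m * L)) (x * tens t (1 : B)) *
          amp w (Fin (m * L)) (tens (star t) (1 : B))‖ := by rw [← e3]
      _ ≤ ‖amp w (Fin (m * L)) (x * tens t (1 : B))‖ *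
          ‖amp w (Fin (m * L)) (tens (star t) (1 : B))‖ := norm_mul_le _ _
      _ ≤ 108 * γ ^ 3 * 1 := mul_le_mul hy1 e4 (norm_nonneg _) hC
      _ = 108 * γ ^ 3 := mul_one _
  intro X
  obtain ⟨u, c, hX, hc⟩ := CStarAlgebra.exists_sum_four_unitary X
  calc ‖amp w (Fin (m * L)) X‖ = ‖∑ i, c i • amp w (Fin (m * L))
        (u i : CStarMatrix (Fin (m * L)) (Fin (m * L)) B)‖ := by
        conv_lhs => rw [hX]
        rw [map_sum]
        simp_rw [map_smul]
    _ ≤ ∑ i, ‖c i • amp w (Fin (m * L))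
        (u i : CStarMatrix (Fin (m * L)) (Fin (m * L)) B)‖ := norm_sum_le _ _
    _ ≤ ∑ i : Fin 4, ‖X‖ / 2 * (108 * γ ^ 3) := by
        refine Finset.sum_le_sum fun i _ => ?_
        rw [norm_smul]
        exact mul_le_mul (hc i) (key _ (u i).2) (norm_nonneg _) (by positivity)
    _ = 216 * γ ^ 3 * ‖X‖ := by
        simp
        ring

open A30 in
theorem final_bd (h1 : KA_main3) (h3 : K_units.{0, 0}) (h4 : K_nest.{0, 0})
    (h5 : K_transport.{0, 0}) : KA_final5 := by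
  intro B _ _ _ τ hτ hdix horth H _ _ _ L m hm hL u hu c hc hbd
  have hc0 : 0 ≤ c := zero_le_one.trans hc
  have hLpos : 0 < L := by
    have : 0 < 25920 * m ^ 11 := by positivity
    omega
  obtain ⟨S, S', hSS', hS'S, hS, hS', hSb, hstar⟩ := sim2.{0, 0} B H L u hu c hc0 hbd
  let u' : CStarMatrix (Fin L) (Fin L) B →ₗ[ℂ] (H →L[ℂ] H) :=
    { toFun := fun X => S * u X * S'
      map_add' := fun X Y => by rw [map_add, mul_add, add_mul]
      map_smul' := fun r X => by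
        rw [map_smul, mul_smul_comm, smul_mul_assoc, RingHom.id_apply] }
  have hu' : IsHom u' := by
    refine ⟨fun X Y => ?_, ?_⟩
    · show S * u (X * Y) * S' = (S * u X * S') * (S * u Y * S')
      rw [hu.mul]
      calc S * (u X * u Y) * S' = S * u X * 1 * u Y * S' := by
            simp only [mul_assoc, one_mul]
        _ = S * u X * (S' * S) * u Y * S' := by rw [hS'S]
        _ = _ := by simp only [mul_assoc]
    · show S * u 1 * S' = 1
      rw [hu.one, mul_one, hSS']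
  have hbd' : ∀ X, ‖u' X‖ ≤ c * ‖X‖ := hSb
  obtain ⟨K, iK1, iK2, iK3, w, V, hw, hV⟩ := h3 B H L hLpos u' hu' hstar
  have hlvl : LvlBd w L c := by
    intro Y
    refine ContinuousLinearMap.opNorm_le_bound _ (by positivity) fun ξ => ?_
    have e1 : ‖amp w (Fin L) Y ξ‖ = ‖u' Y (V ξ)‖ := by
      rw [hV, LinearIsometryEquiv.norm_map]
    rw [e1]
    calc ‖u' Y (V ξ)‖ ≤ ‖u' Y‖ * ‖V ξ‖ := ContinuousLinearMap.le_opNorm _ _
      _ ≤ c * ‖Y‖ * ‖ξ‖ := by
        rw [LinearIsometryEquiv.norm_map]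
        exact mul_le_mul_of_nonneg_right (hbd' Y) (norm_nonneg _)
  have hwb : ∀ b, ‖w b‖ ≤ c * ‖b‖ := by
    intro b
    refine ContinuousLinearMap.opNorm_le_bound _ (by positivity) fun ξ => ?_
    let i0 : Fin L := ⟨0, hLpos⟩
    have e1 : w b ξ = amp w (Fin L) (cornerHom i0 b) (inj i0 ξ) i0 := by
      rw [amp_apply, Finset.sum_eq_single i0]
      · rw [cornerHom_apply, inj_apply]
        simp
      · intro j _ hj
        rw [inj_apply, if_neg hj, map_zero]
      · simp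
    calc ‖w b ξ‖ = ‖amp w (Fin L) (cornerHom i0 b) (inj i0 ξ) i0‖ := by rw [e1]
      _ ≤ ‖amp w (Fin L) (cornerHom i0 b) (inj i0 ξ)‖ := PiLp.norm_apply_le _ _
      _ ≤ ‖amp w (Fin L) (cornerHom i0 b)‖ * ‖inj (H := K) i0 ξ‖ :=
          ContinuousLinearMap.le_opNorm _ _
      _ ≤ (c * ‖cornerHom i0 b‖) * ‖ξ‖ := by
          rw [norm_inj]
          exact mul_le_mul_of_nonneg_right (hlvl _) (norm_nonneg _)
      _ ≤ (c * ‖b‖) * ‖ξ‖ := by
          have : ‖cornerHom i0 b‖ ≤ ‖b‖ := NonUnitalStarAlgHom.norm_apply_le (cornerHom i0) b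
          gcongr
  have hmain := h1 B K w τ hw hτ hdix horth c hc hwb L m hm hL hlvl
  have hnest := h4 B K w L m (216 * c ^ 3) (by positivity) hmain
  have htr := h5 (CStarMatrix (Fin L) (Fin L) B) H (HH (Fin L) K) u (amp w (Fin L)) V S S' c
    (216 * c ^ 3) hc0 (by positivity) hS'S hS hS' (fun X ξ => hV X ξ) m hnest
  have e : c ^ 2 * (216 * c ^ 3) = 216 * c ^ 5 := by ring
  rw [e] at htr
  exact htr

theorem main_KA3 : KA_main3 := by
  have hgt : St_gt.{0, 0} := main_gt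
  have hphtr : St_phtr.{0} := prove_phtr prove_orth prove_expand
  have hfam : KA_fam.{0} := proveA_fam proveA_fam1
  have hword : K_word.{0} := prove3_word prove3_indep prove3_avgone
  have hgram : K_gram.{0} := prove3_gram hword prove3_path prove3_entries
  have hrand : KA_rand.{0} := proveA_rand hfam prove3_adj hgram
  refine main_bd ?_ prove3_flat
  intro B _ _ _ K _ _ _ w τ hw hτ hD hO γ hγ hwγ L m hm hL hLvl x hx hp
  exact unit_bd hgt hrand prove2_det hphtr (prove3_fourier prove3_expand) prove3_pars hτ hD hO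
    hw γ hγ hwγ L m hm hL hLvl x hx hp

theorem main_KA5 : KA_final5 := final_bd main_KA3 prove3_units prove3_nest prove3_transport

end Y268.Kad
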