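import Mathlib
import Pool.Agent.Y268.Kad.Main
import Pool.Agent.H770R2.Kad.HAsm

/-!
First assembly.
-/

open scoped ComplexOrder InnerProductSpace ComplexConjugate
open Finset

noncomputable section

namespace Y268.Kad

open H759R2.Kad H711R2.KG H770R2.Kad

/-- The theorem for fibre algebras. -/
def G_fib7 : Prop :=
  ∀ (B : Type) [CStarAlgebra B] [PartialOrder B] [StarOrderedRing B], IsFib B →
    ∀ (H : Type) [NormedAddCommGroup H] [InnerProductSpace ℂ H] [CompleteSpace H]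
      (u : B →ₗ[ℂ] (H →L[ℂ] H)), IsHom u → ∀ c : ℝ, 1 ≤ c → (∀ X, ‖u X‖ ≤ c * ‖X‖) →
    ∀ m : ℕ, LvlBd u m (432 * c ^ 7)

/-- Bounded homomorphisms of von Neumann algebras are completely bounded. -/
def H_vn11 : Prop :=
  ∀ (L : Type) [NormedAddCommGroup L] [InnerProductSpace ℂ L] [CompleteSpace L]
    (M : VonNeumannAlgebra L) [PartialOrder M.toStarSubalgebra]
    [StarOrderedRing M.toStarSubalgebra]
    (H : Type) [NormedAddCommGroup H] [InnerProductSpace ℂ H] [CompleteSpace H]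
    (W : M.toStarSubalgebra →ₗ[ℂ] (H →L[ℂ] H)), IsHom W → ∀ c : ℝ, 1 ≤ c →
    (∀ a, ‖W a‖ ≤ c * ‖a‖) → ∀ m, LvlBd W m (864 * c ^ 11)

/-- Bounded homomorphisms of fibre algebras are completely bounded. -/
theorem g_fib7 : G_fib7 := by
  intro B _ _ _ hB H _ _ _ u hu c hc hb m
  have hc0 : 0 ≤ c := by linarith
  rcases Nat.eq_zero_or_pos m with rfl | hm
  · exact lvl_zero u (by positivity)
  by_cases hs : ∃ K, Small (1 : B) K
  · obtain ⟨K, hK⟩ := hs
    refine lvl_mono (main_small B hB K hK H u hu c hc0 hb m) ?_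
    calc c ^ 2 ≤ c ^ 7 := pow_le_pow_right₀ hc (by norm_num)
      _ ≤ 432 * c ^ 7 := by nlinarith [pow_nonneg hc0 7]
  have hns : ∀ K, ¬ Small (1 : B) K := fun K hK => hs ⟨K, hK⟩
  by_cases ht : ∃ τ : B →ₗ[ℂ] ℂ, IsTracialState τ
  · obtain ⟨τ, hτ⟩ := ht
    obtain ⟨k, hk⟩ : ∃ k : ℕ, 25920 * (2 * m) ^ 11 ≤ 2 ^ k :=
      ⟨_, (Nat.lt_two_pow_self (n := 25920 * (2 * m) ^ 11)).le⟩
    obtain ⟨f, r, hf, hr, hfr, hsum, heqv, hsub, htr, hnsf⟩ := main_dich B hB τ hτ hns k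
    let i0 : Fin (2 ^ k) := ⟨0, by positivity⟩
    have hne : f i0 ≠ 0 := by
      intro h0
      have := htr i0
      rw [h0, map_zero] at this
      simp at this
    obtain ⟨C, _, _, _, ι, hι⟩ := p_C_exists B (f i0) (hf.1 i0).1
    obtain ⟨hC, hCs⟩ := p_C_fib p_C_ord B C ι (f i0) hι hne hB
    obtain ⟨τ', hτ'⟩ := p_C_tr B C ι (f i0) τ hι hτ (htr i0)
    have hD : HasDixmier τ' := p_B_dix p_B_step C hC τ' hτ'
    have hO : HasOrthA τ' := p_B_orth C τ' hτ'
      (main_dich C hC τ' hτ' fun K hK => hnsf i0 K (hCs K hK))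
    obtain ⟨Φ, hΦ⟩ := p_C_units B C (2 ^ k) f i0 ι hι hf heqv
    have hSub : Sub (1 - ∑ i, f i) (∑ i, f i) := by
      obtain ⟨v, hv1, hv2⟩ := hsub i0
      refine ⟨v, ?_, ?_⟩
      · rw [hv1, ← hsum]
        abel
      · rw [← hv2, ← mul_assoc, Finset.sum_mul, Finset.sum_eq_single i0]
        · rw [(hf.1 i0).1.2]
        · intro j _ hj
          exact hf.2 j i0 hj
        · simp
    have h := p_C_ext prove3_level B (CStarMatrix (Fin (2 ^ k)) (Fin (2 ^ k)) C) Φ (∑ i, f i) hΦ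
      hSub H u hu c (216 * c ^ 5) hc0 (by positivity) hb m
      (fun K _ _ _ w hw hwb => main_KA5 C τ' hτ' hD hO K (2 ^ k) (2 * m) (by positivity) hk w hw c
        hc hwb)
    refine lvl_mono h (le_of_eq (by ring))
  · refine lvl_mono (notrace B ht H u hu c hc0 hb m) ?_
    have h4 : c ^ 4 ≤ c ^ 7 := pow_le_pow_right₀ hc (by norm_num)
    nlinarith [pow_nonneg hc0 7]

/-- Fibres of von Neumann algebras: homomorphisms of the images of a von Neumann algebra under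
*-homomorphisms that map the centre to scalars. -/
theorem g_fibre7 (H : Type) [NormedAddCommGroup H] [InnerProductSpace ℂ H] [CompleteSpace H]
    (M : VonNeumannAlgebra H)
    (B : Type) [CStarAlgebra B] [PartialOrder B] [StarOrderedRing B]
    (φ : M.toStarSubalgebra →⋆ₐ[ℂ] B) (hφ : Function.Surjective φ)
    (hz : ∀ z : M.toStarSubalgebra, (∀ a, z * a = a * z) → ∃ l : ℂ, φ z = algebraMap ℂ B l)
    (K : Type) [NormedAddCommGroup K] [InnerProductSpace ℂ K] [CompleteSpace K]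
    (w : B →ₗ[ℂ] (K →L[ℂ] K)) (hw : IsHom w) (c : ℝ) (hc : 1 ≤ c) (hb : ∀ b, ‖w b‖ ≤ c * ‖b‖)
    (m : ℕ) : LvlBd w m (432 * c ^ 7) := by
  by_cases h1 : (1 : B) ≠ 0
  · letI P : PartialOrder M.toStarSubalgebra := CStarAlgebra.spectralOrder M.toStarSubalgebra
    haveI S : StarOrderedRing M.toStarSubalgebra :=
      CStarAlgebra.spectralOrderedRing M.toStarSubalgebra
    have hM : IsVN M.toStarSubalgebra := main_V H M
    have hB : IsFib B := p_Q_fib p_Q_lift M.toStarSubalgebra B φ hM hφ h1 hz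
    exact g_fib7 B hB K w hw c hc hb m
  · rw [not_not] at h1
    intro Y
    have hY : Y = 0 := by
      ext i j
      have : (Y i j : B) = 0 := by rw [← mul_one (Y i j), h1, mul_zero]
      exact this
    rw [hY, map_zero, norm_zero, norm_zero, mul_zero]

theorem hvn11 (h1 : H_ult) (h2 : H_fib) (h3 : H_hfib) : H_vn11 := by
  intro L _ _ _ M _ _ H _ _ _ W hW c hc hWc m X
  have hc0 : 0 < c := lt_of_lt_of_le one_pos hc
  by_cases h0 : amp W (Fin m) X = 0
  · rw [h0, norm_zero]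
    positivity
  obtain ⟨F, hF, hFX⟩ := h1 L M H W hW c hc hWc m X h0
  have hpos : 0 < ‖amp W (Fin m) X‖ := norm_pos_iff.2 h0
  have hκ : 0 < ‖amp W (Fin m) X‖ / c ^ 3 := by positivity
  have hκ' : ∀ p ∈ F, ‖amp W (Fin m) X‖ / c ^ 3 ≤ ‖dg m (W p) * amp W (Fin m) X‖ := by
    intro p hp
    rw [div_le_iff₀ (by positivity), mul_comm]
    exact hFX p hp
  obtain ⟨K, _, _, _, w, hw, hwa, hκw⟩ := h3 L M F hF H W hW c hc hWc m X _ hκ hκ'
  obtain ⟨B, _, φ, hφs, hφc, hφr⟩ := h2 L M F hF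
  have hex : ∀ a : M.toStarSubalgebra, ∀ r : ℝ, 0 < r → ∃ p ∈ F, ‖p * a‖ < ‖φ a‖ + r := by
    intro a r hr
    by_contra hcon
    push Not at hcon
    have := hφr a (‖φ a‖ + r) hcon
    linarith
  have hwφ : ∀ a : M.toStarSubalgebra, ‖w a‖ ≤ c * ‖φ a‖ := by
    intro a
    refine le_of_forall_pos_le_add ?_
    intro ε hε
    obtain ⟨p, hp, hpa⟩ := hex a (ε / c) (by positivity)
    calc ‖w a‖ ≤ c * ‖p * a‖ := hwa a p hp
      _ ≤ c * (‖φ a‖ + ε / c) := by gcongr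
      _ = c * ‖φ a‖ + ε := by field_simp
  have hfac : ∀ a b : M.toStarSubalgebra, φ a = φ b → w a = w b := by
    intro a b hab
    have e1 := hwφ (a - b)
    rw [map_sub φ, hab, sub_self, norm_zero, mul_zero] at e1
    have e2 : w (a - b) = 0 := norm_le_zero_iff.1 e1
    rw [map_sub] at e2
    exact sub_eq_zero.1 e2
  let s : B → M.toStarSubalgebra := Function.surjInv hφs
  have hs : ∀ b, φ (s b) = b := Function.surjInv_eq hφs
  let w' : B →ₗ[ℂ] (K →L[ℂ] K) :=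
    { toFun := fun b => w (s b)
      map_add' := fun a b => by
        rw [← map_add]
        apply hfac
        rw [map_add, hs, hs, hs]
      map_smul' := fun r a => by
        rw [RingHom.id_apply, ← map_smul]
        apply hfac
        rw [map_smul, hs, hs] }
  have hw'φ : ∀ a, w' (φ a) = w a := by
    intro a
    apply hfac
    rw [hs]
  have hw' : IsHom w' := by
    constructor
    · intro a b
      rw [← hs a, ← hs b, ← map_mul, hw'φ, hw'φ, hw'φ, hw.mul]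
    · rw [← map_one φ, hw'φ, hw.one]
  have hw'c : ∀ b, ‖w' b‖ ≤ c * ‖b‖ := by
    intro b
    rw [← hs b, hw'φ]
    exact hwφ _
  letI : PartialOrder B := CStarAlgebra.spectralOrder B
  haveI : StarOrderedRing B := CStarAlgebra.spectralOrderedRing B
  have hlvl := g_fibre7 L M B φ hφs (fun z hzc => by
      obtain ⟨l, hl⟩ := hφc z hzc
      exact ⟨l, by rw [hl, Algebra.algebraMap_eq_smul_one]⟩) K w' hw' c hc hw'c m
    (CStarMatrix.mapₙₐ (n := Fin m) (φ : M.toStarSubalgebra →⋆ₙₐ[ℂ] B) X)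
  have hn : ‖CStarMatrix.mapₙₐ (n := Fin m) (φ : M.toStarSubalgebra →⋆ₙₐ[ℂ] B) X‖ ≤ ‖X‖ :=
    NonUnitalStarAlgHom.norm_apply_le _ _
  have he : amp w' (Fin m) (CStarMatrix.mapₙₐ (n := Fin m)
      (φ : M.toStarSubalgebra →⋆ₙₐ[ℂ] B) X) = amp w (Fin m) X := by
    ext ξ i
    rw [amp_apply, amp_apply]
    refine Finset.sum_congr rfl fun j _ => ?_
    rw [← hw'φ]
    rfl
  rw [he] at hlvl
  have hfin : ‖amp w (Fin m) X‖ ≤ 432 * c ^ 7 * ‖X‖ :=
    hlvl.trans (mul_le_mul_of_nonneg_left hn (by positivity))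
  calc ‖amp W (Fin m) X‖ = c ^ 3 * (‖amp W (Fin m) X‖ / c ^ 3) := by field_simp
    _ ≤ c ^ 3 * (2 * c * ‖amp w (Fin m) X‖) := by gcongr
    _ ≤ c ^ 3 * (2 * c * (432 * c ^ 7 * ‖X‖)) := by gcongr
    _ = 864 * c ^ 11 * ‖X‖ := by ring

end Y268.Kad
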