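import Mathlib
import Pool.Agent.Y268.Kad.Asm1
import Pool.Agent.Y268.Kad.Top

/-!
First bound: exponent 11.
-/

open scoped ComplexOrder InnerProductSpace

noncomputable section

namespace Y268.Kad

open H759R2.Kad H711R2.KG H770R2.Kad

theorem vn11 : VnBd (fun c => 864 * c ^ 11) :=
  hvn11 prove_ult fin_hfib (prove_hfib prove_up prove_upalg)

theorem cb11 : CbBd (fun c => 864 * (2 * c) ^ 11) :=
  cb_of (fun c => 864 * c ^ 11) (fun c hc => by positivity) 2 (by norm_num) ext_two vn11

end Y268.Kad
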